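import Pool.Agent.Q97.MM.Shf

set_option autoImplicit false

open MeasureTheory Filter Topology Complex Set FourierTransform ComplexConjugate

namespace Q97.MM

noncomputable section

variable (k : ℕ)

/-- the point of the critical line with ordinate `y` -/
def pt (y : ℝ) : ℂ := ((1 / 2 : ℝ) : ℂ) + y * I

/-- the correlation of `FF` on the critical line -/
def VC (T U η : ℝ) : ℂ := ∫ y : ℝ, FF k T U (pt (y + η)) * conj (FF k T U (pt y))

/-- the correlation of `ζ ^ k` on the critical line -/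
def CZ (T U η : ℝ) : ℂ :=
  ∫ y : ℝ, riemannZeta (pt (y + η)) ^ k * conj (riemannZeta (pt y)) ^ k * (wt T U y : ℂ)

theorem pt_ne (y : ℝ) : pt y ≠ 1 := ne_one_of_re (by norm_num) y

theorem zeta_bd (y : ℝ) : ‖riemannZeta (pt y)‖ ≤ 180 * (1 + |y|) ^ 2 := by
  have h3 := Z1_growth (x := 1 / 2) (y := y) (by norm_num) (by norm_num)
  rw [Z1_of_ne (ne_one_of_re (by norm_num) y), norm_mul] at h3
  have h4 : 1 / 4 ≤ ‖((1 / 2 : ℝ) : ℂ) + y * I - 1‖ := by
    have := Complex.abs_re_le_norm (((1 / 2 : ℝ) : ℂ) + y * I - 1)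
    have e : (((1 / 2 : ℝ) : ℂ) + y * I - 1).re = 1 / 2 - 1 := by simp
    rw [e] at this
    refine le_trans ?_ this
    norm_num
  have h6 := mul_le_mul_of_nonneg_right h4 (norm_nonneg (riemannZeta (pt y)))
  unfold pt at h6 ⊢
  linarith

theorem FF_pt (T U y : ℝ) :
    FF k T U (pt y) = Z1 (pt y) ^ k * (Real.exp (-((y - T) ^ 2 / (2 * U ^ 2))) : ℂ) := by
  unfold FF
  congr 1
  rw [Complex.ofReal_exp]
  congr 1
  unfold pt
  push_cast
  have e : ((1 / 2 : ℂ) + y * I - 1 / 2 - T * I) ^ 2 = -((y : ℂ) - T) ^ 2 := by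
    linear_combination ((y : ℂ) - T) ^ 2 * Complex.I_sq
  rw [e]
  ring

theorem Z1_pt (y : ℝ) : Z1 (pt y) = (pt y - 1) * riemannZeta (pt y) := Z1_of_ne (pt_ne y)

theorem FF_pt_norm_sq (T U y : ℝ) : ‖FF k T U (pt y)‖ ^ 2 = ‖FF k T U (((1 / 2 : ℝ) : ℂ) + y * I)‖ ^ 2 := rfl

/-- the quotient of the polynomial factors -/
theorem z_eq (y η : ℝ) : (pt (y + η) - 1) * conj (pt y - 1) =
    ((1 / 4 + y * (y + η) : ℝ) : ℂ) - ((η / 2 : ℝ) : ℂ) * I := by
  unfold pt
  simp only [map_sub, map_add, map_mul, Complex.conj_ofReal, Complex.conj_I, map_one]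
  push_cast
  linear_combination (-(y : ℂ) * (y + η)) * Complex.I_sq

theorem psi_cont {ε : ℝ} (hε : 0 < ε) : ∃ d : ℝ, 0 < d ∧ ∀ (z : ℂ) (t : ℝ), ‖z - 1‖ < d → |t| < d →
    z ≠ 0 ∧ ‖1 - (z⁻¹) ^ k * (Real.exp t : ℂ)‖ ≤ ε := by
  have h1 : ContinuousAt (fun p : ℂ × ℝ => 1 - (p.1⁻¹) ^ k * (Real.exp p.2 : ℂ)) ((1 : ℂ), (0 : ℝ)) := by
    have h2 : ContinuousAt (fun p : ℂ × ℝ => p.1⁻¹) ((1 : ℂ), (0 : ℝ)) :=
      continuousAt_fst.inv₀ one_ne_zero
    have h3 : ContinuousAt (fun p : ℂ × ℝ => (Real.exp p.2 : ℂ)) ((1 : ℂ), (0 : ℝ)) := by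
      have : Continuous (fun p : ℂ × ℝ => (Real.exp p.2 : ℂ)) := by fun_prop
      exact this.continuousAt
    exact continuousAt_const.sub ((h2.pow k).mul h3)
  have h0 : (fun p : ℂ × ℝ => 1 - (p.1⁻¹) ^ k * (Real.exp p.2 : ℂ)) ((1 : ℂ), (0 : ℝ)) = 0 := by
    simp
  obtain ⟨d, hd, hd'⟩ := Metric.continuousAt_iff.mp h1 ε hε
  refine ⟨min d 1, lt_min hd one_pos, fun z t hz ht => ⟨?_, ?_⟩⟩
  · rintro rfl
    rw [zero_sub, norm_neg, norm_one] at hz
    exact absurd hz (not_lt.2 (min_le_right _ _))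
  · have h2 := hd' (x := (z, t)) (by
      rw [Prod.dist_eq, max_lt_iff, dist_eq_norm, Real.dist_eq, sub_zero]
      exact ⟨hz.trans_le (min_le_left _ _), ht.trans_le (min_le_left _ _)⟩)
    have h3 : (1 : ℂ) - ((1 : ℂ), (0 : ℝ)).1⁻¹ ^ k * (Real.exp ((1 : ℂ), (0 : ℝ)).2 : ℂ) = 0 := h0
    rw [h3, dist_zero_right] at h2
    exact h2.le

/-- The two correlations are asymptotically equal. -/
theorem F3 (h : ℝ) {ε : ℝ} (hε : 0 < ε) : ∀ᶠ T : ℝ in atTop, ∀ U : ℝ, Adm T U →
    ‖VC k T U (h / Real.log T) - (T : ℂ) ^ (2 * k) * CZ k T U (h / Real.log T)‖ ≤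
      ε * V0 k T U := by
  obtain ⟨d, hd, hd'⟩ := psi_cont k (half_pos hε)
  obtain ⟨c, hc, hc'⟩ := V0_lower k
  set ϑ : ℝ := min (1 / 2) (d / (8 * (1 + |h|))) with hϑ
  have hϑ0 : 0 < ϑ := lt_min (by norm_num) (by positivity)
  have hϑ1 : ϑ ≤ 1 / 2 := min_le_left _ _
  have hϑ2 : ϑ * (1 + |h|) ≤ d / 8 := by
    have h1 : ϑ ≤ d / (8 * (1 + |h|)) := min_le_right _ _
    have h2 := mul_le_mul_of_nonneg_right h1 (show 0 ≤ 1 + |h| by positivity)
    refine h2.trans (le_of_eq ?_)
    field_simp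
  have hK := KK_nonneg (4 * k)
  have hsq2 : (0 : ℝ) < ϑ / √2 := by positivity
  have htail := (tail_tendsto (6 * k) hsq2).const_mul (3 * 129600 ^ k * KK (4 * k) / c)
  rw [mul_zero] at htail
  filter_upwards [htail.eventually (gt_mem_nhds (half_pos hε)),
    (log_div_tendsto h).eventually (gt_mem_nhds (show (0 : ℝ) < min (1 / 2) (d / 8) by positivity)),
    eventually_ge_atTop (max 8 (8 / d))] with T h1 h2 h3 U hA
  have hT : 0 < T := by linarith [hA.1]
  have hU := hA.pos
  have hU1 := hA.2.1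
  have hL := hA.log
  have hV0 := V0_pos k hA
  have hT8 : 8 ≤ T := (le_max_left _ _).trans h3
  have hTd : 8 ≤ d * T := by
    have := (le_max_right 8 (8 / d)).trans h3
    rwa [div_le_iff₀ hd, mul_comm] at this
  set L := Real.log T with hLd
  have hL0 : 0 < L := by linarith
  set η := h / L with hη
  have hη1 : |η| < 1 / 2 := h2.trans_le (min_le_left _ _)
  have hη2 : |η| < d / 8 := h2.trans_le (min_le_right _ _)
  have hηL : |η| * L = |h| := by
    rw [hη, abs_div, abs_of_pos hL0]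
    field_simp
  set E := Real.exp (-((ϑ / √2 * L) ^ 2 / 2)) with hE
  have hE0 : 0 < E := Real.exp_pos _
  have hEe : E = Real.exp (-((ϑ * L) ^ 2 / 4)) := by
    rw [hE]
    congr 2
    rw [div_mul_eq_mul_div, div_pow, Real.sq_sqrt (by norm_num)]
    ring
  obtain ⟨M, δ, hM, hδ, hbd⟩ := FF_bd k T hU
  have hdiff := FF_differentiable k T U
  -- integrability
  have il : Integrable (fun y : ℝ => FF k T U (pt y)) :=
    ln_integrable hdiff hδ hbd (by norm_num) (by norm_num)
  have im2 : MemLp (fun y : ℝ => FF k T U (pt y)) 2 :=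
    ln_memLp hdiff hδ hbd (by norm_num) (by norm_num)
  have iC := (cross il im2 η).1
  have hs : Integrable (fun y => ‖FF k T U (pt y)‖ ^ 2) :=
    (memLp_two_iff_integrable_sq_norm im2.aestronglyMeasurable).mp im2
  have hs' : Integrable (fun y => ‖FF k T U (pt (y + η))‖ ^ 2) := hs.comp_add_right η
  have is := scaled_integrable (4 * k) T hU
  have hzc : Continuous (fun y : ℝ => riemannZeta (pt y)) := zeta_line_cont (by norm_num)
  have hzc' : Continuous (fun y : ℝ => riemannZeta (pt (y + η))) :=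
    hzc.comp (continuous_id.add continuous_const)
  have hwc : Continuous (fun y : ℝ => (wt T U y : ℂ)) := by
    have : Continuous (wt T U) := by unfold wt; fun_prop
    exact Complex.continuous_ofReal.comp this
  have hDm : Continuous (fun y : ℝ => riemannZeta (pt (y + η)) ^ k * conj (riemannZeta (pt y)) ^ k *
      (wt T U y : ℂ)) :=
    ((hzc'.pow k).mul ((Complex.continuous_conj.comp hzc).pow k)).mul hwc
  -- growth
  have habs : ∀ y : ℝ, 1 + |y + η| ≤ 2 * (1 + |y|) := by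
    intro y
    have := abs_add_le y η
    linarith [abs_nonneg y]
  have hz1 : ∀ y : ℝ, ‖riemannZeta (pt (y + η)) ^ k * conj (riemannZeta (pt y)) ^ k‖ ≤
      129600 ^ k * (1 + |y|) ^ (4 * k) := by
    intro y
    rw [norm_mul, norm_pow, norm_pow, RCLike.norm_conj, ← mul_pow]
    have a1 := zeta_bd (y + η)
    have a2 := zeta_bd y
    have a3 : 180 * (1 + |y + η|) ^ 2 ≤ 180 * (2 * (1 + |y|)) ^ 2 := by
      have := pow_le_pow_left₀ (by positivity) (habs y) 2
      linarith
    calc _ ≤ ((180 * (2 * (1 + |y|)) ^ 2) * (180 * (1 + |y|) ^ 2)) ^ k := by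
          apply pow_le_pow_left₀ (by positivity)
          exact mul_le_mul (a1.trans a3) a2 (norm_nonneg _) (by positivity)
      _ = _ := by
          rw [pow_mul, ← mul_pow]
          congr 1
          ring
  have hZ1 : ∀ y : ℝ, ‖Z1 (pt (y + η)) ^ k * conj (Z1 (pt y)) ^ k‖ ≤
      129600 ^ k * (1 + |y|) ^ (4 * k) := by
    intro y
    rw [norm_mul, norm_pow, norm_pow, RCLike.norm_conj, ← mul_pow]
    have a1 : ‖Z1 (pt (y + η))‖ ≤ 45 * (1 + |y + η|) ^ 2 := Z1_growth (by norm_num) (by norm_num)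
    have a2 : ‖Z1 (pt y)‖ ≤ 45 * (1 + |y|) ^ 2 := Z1_growth (by norm_num) (by norm_num)
    have a3 : 45 * (1 + |y + η|) ^ 2 ≤ 45 * (2 * (1 + |y|)) ^ 2 := by
      have := pow_le_pow_left₀ (by positivity) (habs y) 2
      linarith
    calc _ ≤ ((45 * (2 * (1 + |y|)) ^ 2) * (45 * (1 + |y|) ^ 2)) ^ k := by
          apply pow_le_pow_left₀ (by positivity)
          exact mul_le_mul (a1.trans a3) a2 (norm_nonneg _) (by positivity)
      _ ≤ _ := by
          rw [pow_mul, ← mul_pow]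
          apply pow_le_pow_left₀ (by positivity)
          have : 0 ≤ (1 + |y|) ^ 4 := by positivity
          nlinarith
  have hwle : ∀ y : ℝ, ϑ * (U * L) < |y - T| → wt T U y ≤ E * Real.exp (-(((y - T) / U) ^ 2 / 2)) ∧
      Real.exp (-((y + η - T) ^ 2 / (2 * U ^ 2))) * Real.exp (-((y - T) ^ 2 / (2 * U ^ 2))) ≤
        2 * E * Real.exp (-(((y - T) / U) ^ 2 / 2)) := by
    intro y hy
    have h4 : ϑ * L ≤ |(y - T) / U| := by
      rw [abs_div, abs_of_pos hU, le_div_iff₀ hU]
      linarith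
    have h6 : (ϑ * L) ^ 2 ≤ ((y - T) / U) ^ 2 := by
      rw [← sq_abs ((y - T) / U)]
      exact pow_le_pow_left₀ (by positivity) h4 2
    constructor
    · rw [wt, hEe, ← Real.exp_add]
      apply Real.exp_le_exp.2
      nlinarith
    · rw [hEe, ← Real.exp_add, mul_assoc, ← Real.exp_add]
      have e2 : (2 : ℝ) = Real.exp (Real.log 2) := (Real.exp_log (by norm_num)).symm
      rw [show (2 : ℝ) * Real.exp (-((ϑ * L) ^ 2 / 4) + -(((y - T) / U) ^ 2 / 2)) =
        Real.exp (Real.log 2) * Real.exp (-((ϑ * L) ^ 2 / 4) + -(((y - T) / U) ^ 2 / 2)) by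
          rw [← e2], ← Real.exp_add]
      apply Real.exp_le_exp.2
      have h7 := Real.log_two_gt_d9
      have h8 : (y + η - T) ^ 2 / (2 * U ^ 2) + (y - T) ^ 2 / (2 * U ^ 2) ≥
          3 / 4 * ((y - T) / U) ^ 2 - 1 / 2 := by
        have h9 : η ^ 2 ≤ 1 := by
          rw [← sq_abs]
          nlinarith [abs_nonneg η]
        have e3 : (y + η - T) ^ 2 / (2 * U ^ 2) + (y - T) ^ 2 / (2 * U ^ 2) -
            3 / 4 * ((y - T) / U) ^ 2 = ((y + η - T) ^ 2 - 1 / 2 * (y - T) ^ 2) / (2 * U ^ 2) := by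
          field_simp
          ring
        have h10 : -(1 : ℝ) ≤ (y + η - T) ^ 2 - 1 / 2 * (y - T) ^ 2 := by
          nlinarith [sq_nonneg (y - T + 2 * η)]
        have h11 : -(1 / 2 : ℝ) ≤ ((y + η - T) ^ 2 - 1 / 2 * (y - T) ^ 2) / (2 * U ^ 2) := by
          rw [le_div_iff₀ (by positivity)]
          nlinarith
        linarith
      linarith
  -- the pointwise bound
  have hpt : ∀ y : ℝ, ‖FF k T U (pt (y + η)) * conj (FF k T U (pt y)) -
      (T : ℂ) ^ (2 * k) * (riemannZeta (pt (y + η)) ^ k * conj (riemannZeta (pt y)) ^ k *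
        (wt T U y : ℂ))‖ ≤
      ε / 4 * (‖FF k T U (pt (y + η))‖ ^ 2 + ‖FF k T U (pt y)‖ ^ 2) +
      3 * 129600 ^ k * ((1 + T) ^ (6 * k) * E) *
        ((1 + |(y - T) / U|) ^ (4 * k) * Real.exp (-(((y - T) / U) ^ 2 / 2))) := by
    intro y
    set A : ℂ := Z1 (pt (y + η)) ^ k * conj (Z1 (pt y)) ^ k with hAd
    set G1 := Real.exp (-((y + η - T) ^ 2 / (2 * U ^ 2))) with hG1
    set G2 := Real.exp (-((y - T) ^ 2 / (2 * U ^ 2))) with hG2
    have eF : FF k T U (pt (y + η)) * conj (FF k T U (pt y)) = A * ((G1 * G2 : ℝ) : ℂ) := by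
      rw [FF_pt, FF_pt, map_mul, map_pow, Complex.conj_ofReal, ← hG1, ← hG2, hAd,
        Complex.ofReal_mul]
      ring
    by_cases hy : |y - T| ≤ ϑ * (U * L)
    · have hUL : U * L ≤ T := by
        have := hA.2.2
        rwa [le_div_iff₀ hL0] at this
      have hyT : |y - T| ≤ ϑ * T := hy.trans (mul_le_mul_of_nonneg_left hUL hϑ0.le)
      have hy1 := abs_le.mp hyT
      set z : ℂ := (pt (y + η) - 1) * conj (pt y - 1) / (T : ℂ) ^ 2 with hz
      set t : ℝ := (2 * η * (y - T) + η ^ 2) / (2 * U ^ 2) with ht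
      have hTc : (T : ℂ) ^ 2 ≠ 0 := pow_ne_zero _ (Complex.ofReal_ne_zero.2 hT.ne')
      have hz1' : ‖z - 1‖ < d := by
        have e1 : z - 1 = (((1 / 4 + (y * (y + η) - T ^ 2) : ℝ) : ℂ) - ((η / 2 : ℝ) : ℂ) * I) /
            (T : ℂ) ^ 2 := by
          rw [hz, z_eq, eq_div_iff hTc, sub_mul, div_mul_cancel₀ _ hTc, one_mul]
          push_cast
          ring
        rw [e1, norm_div, norm_pow, Complex.norm_real, Real.norm_of_nonneg hT.le,
          div_lt_iff₀ (by positivity)]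
        refine lt_of_le_of_lt (norm_sub_le _ _) ?_
        rw [norm_mul, Complex.norm_I, mul_one, Complex.norm_real, Complex.norm_real,
          Real.norm_eq_abs, Real.norm_eq_abs, abs_div, abs_of_pos (by norm_num : (0 : ℝ) < 2)]
        have h4 : |1 / 4 + (y * (y + η) - T ^ 2)| ≤ 1 / 4 + (3 * ϑ * T ^ 2 + 2 * T * |η|) := by
          have e2 : y * (y + η) - T ^ 2 = (y - T) * (y + T) + y * η := by ring
          have h5 : |(y - T) * (y + T)| ≤ ϑ * T * (3 * T) := by
            rw [abs_mul]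
            apply mul_le_mul hyT _ (abs_nonneg _) (by positivity)
            rw [abs_le]
            constructor <;> nlinarith
          have h6 : |y * η| ≤ 2 * T * |η| := by
            rw [abs_mul]
            apply mul_le_mul_of_nonneg_right _ (abs_nonneg _)
            rw [abs_le]
            constructor <;> nlinarith
          calc |1 / 4 + (y * (y + η) - T ^ 2)| ≤ |(1 / 4 : ℝ)| + |y * (y + η) - T ^ 2| :=
                abs_add_le _ _
            _ ≤ 1 / 4 + (|(y - T) * (y + T)| + |y * η|) := by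
                rw [e2, abs_of_pos (by norm_num : (0 : ℝ) < 1 / 4)]
                linarith [abs_add_le ((y - T) * (y + T)) (y * η)]
            _ ≤ _ := by nlinarith
        have h7 : ϑ ≤ d / 8 := by
          have := mul_nonneg hϑ0.le (abs_nonneg h)
          linarith
        have hTT : 0 < T ^ 2 := by positivity
        have h8 : 3 * ϑ * T ^ 2 ≤ 3 * (d / 8) * T ^ 2 := by gcongr
        have h9 : 2 * T * |η| ≤ d / 32 * T ^ 2 * 8 := by
          have : |η| * (2 * T) ≤ d / 8 * (2 * T) := by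
            exact mul_le_mul_of_nonneg_right hη2.le (by positivity)
          nlinarith
        have h10 : 1 / 4 + |η| / 2 ≤ d * T ^ 2 / 16 := by
          have : 8 * T ≤ d * T * T := mul_le_mul_of_nonneg_right hTd hT.le
          nlinarith
        have hdT : 0 < d * T ^ 2 := by positivity
        linarith
      have ht1 : |t| < d := by
        rw [ht, abs_div, abs_of_pos (by positivity : (0 : ℝ) < 2 * U ^ 2),
          div_lt_iff₀ (by positivity)]
        have h4 : |2 * η * (y - T) + η ^ 2| ≤ 2 * |η| * (ϑ * (U * L)) + |η| ^ 2 := by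
          refine (abs_add_le _ _).trans ?_
          rw [abs_mul, abs_mul, abs_of_pos (by norm_num : (0 : ℝ) < 2), abs_pow]
          gcongr
        have h5 : 2 * |η| * (ϑ * (U * L)) = 2 * (ϑ * |h|) * U := by
          rw [← hηL]; ring
        have h6 : ϑ * |h| ≤ d / 8 := by
          have := mul_nonneg hϑ0.le (abs_nonneg h)
          nlinarith
        have h7 : |η| ^ 2 ≤ d / 8 := by
          nlinarith [abs_nonneg η]
        have hUU : U ≤ U ^ 2 := by nlinarith
        have h8 : 2 * (ϑ * |h|) * U ≤ 2 * (d / 8) * U ^ 2 := by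
          have : 0 ≤ ϑ * |h| := by positivity
          calc 2 * (ϑ * |h|) * U ≤ 2 * (d / 8) * U := by gcongr
            _ ≤ _ := by gcongr
        have hU21 : 1 ≤ U ^ 2 := by nlinarith
        nlinarith
      obtain ⟨hz0, hψ⟩ := hd' z t hz1' ht1
      have e4 : (T : ℂ) ^ (2 * k) * (riemannZeta (pt (y + η)) ^ k * conj (riemannZeta (pt y)) ^ k *
          (wt T U y : ℂ)) = A * ((G1 * G2 : ℝ) : ℂ) * ((z⁻¹) ^ k * (Real.exp t : ℂ)) := by
        have e5 : (wt T U y : ℝ) = G1 * G2 * Real.exp t := by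
          rw [hG1, hG2, ht, wt, ← Real.exp_add, ← Real.exp_add]
          congr 1
          field_simp
          ring
        have e6 : A = ((pt (y + η) - 1) * conj (pt y - 1)) ^ k *
            (riemannZeta (pt (y + η)) ^ k * conj (riemannZeta (pt y)) ^ k) := by
          rw [hAd, Z1_pt, Z1_pt, map_mul, mul_pow, mul_pow, mul_pow]
          ring
        have e7 : ((pt (y + η) - 1) * conj (pt y - 1)) ^ k * (z⁻¹) ^ k = (T : ℂ) ^ (2 * k) := by
          rw [← mul_pow, pow_mul]
          congr 1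
          have hnz : (pt (y + η) - 1) * conj (pt y - 1) ≠ 0 := by
            intro h0
            apply hz0
            rw [hz, h0, zero_div]
          rw [hz, inv_div, mul_div_cancel₀ _ hnz]
        rw [e5, e6, ← e7]
        push_cast
        ring
      rw [eF, e4, show A * ((G1 * G2 : ℝ) : ℂ) - A * ((G1 * G2 : ℝ) : ℂ) *
        ((z⁻¹) ^ k * (Real.exp t : ℂ)) = A * ((G1 * G2 : ℝ) : ℂ) *
          (1 - (z⁻¹) ^ k * (Real.exp t : ℂ)) by ring, norm_mul, ← eF, norm_mul, RCLike.norm_conj]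
      have h4 : 0 ≤ 3 * 129600 ^ k * ((1 + T) ^ (6 * k) * E) *
        ((1 + |(y - T) / U|) ^ (4 * k) * Real.exp (-(((y - T) / U) ^ 2 / 2))) := by positivity
      have h5 : ‖FF k T U (pt (y + η))‖ * ‖FF k T U (pt y)‖ ≤
          1 / 2 * (‖FF k T U (pt (y + η))‖ ^ 2 + ‖FF k T U (pt y)‖ ^ 2) := by
        nlinarith [sq_nonneg (‖FF k T U (pt (y + η))‖ - ‖FF k T U (pt y)‖)]
      have h6 : ‖FF k T U (pt (y + η))‖ * ‖FF k T U (pt y)‖ *
          ‖1 - (z⁻¹) ^ k * (Real.exp t : ℂ)‖ ≤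
          (1 / 2 * (‖FF k T U (pt (y + η))‖ ^ 2 + ‖FF k T U (pt y)‖ ^ 2)) * (ε / 2) :=
        mul_le_mul h5 hψ (norm_nonneg _) (by positivity)
      linarith
    · push Not at hy
      obtain ⟨hw1, hw2⟩ := hwle y hy
      set X := Real.exp (-(((y - T) / U) ^ 2 / 2)) with hX
      have hX0 : 0 < X := Real.exp_pos _
      have h4 : 0 ≤ ε / 4 * (‖FF k T U (pt (y + η))‖ ^ 2 + ‖FF k T U (pt y)‖ ^ 2) := by positivity
      have b1 : ‖FF k T U (pt (y + η)) * conj (FF k T U (pt y))‖ ≤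
          129600 ^ k * (1 + |y|) ^ (4 * k) * (2 * E * X) := by
        rw [eF, norm_mul, Complex.norm_real, Real.norm_of_nonneg (by positivity)]
        exact mul_le_mul (hZ1 y) hw2 (by positivity) (by positivity)
      have b2 : ‖(T : ℂ) ^ (2 * k) * (riemannZeta (pt (y + η)) ^ k *
          conj (riemannZeta (pt y)) ^ k * (wt T U y : ℂ))‖ ≤
          T ^ (2 * k) * (129600 ^ k * (1 + |y|) ^ (4 * k) * (E * X)) := by
        rw [norm_mul, norm_pow, Complex.norm_real, Real.norm_of_nonneg hT.le, norm_mul,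
          Complex.norm_real, Real.norm_of_nonneg (wt_pos _ _ _).le]
        apply mul_le_mul_of_nonneg_left _ (by positivity)
        exact mul_le_mul (hz1 y) hw1 (wt_pos _ _ _).le (by positivity)
      have b3 : (1 + |y|) ^ (4 * k) ≤ (1 + T) ^ (4 * k) * (1 + |(y - T) / U|) ^ (4 * k) := by
        rw [← mul_pow]
        exact pow_le_pow_left₀ (by positivity) (abs_le_scaled hU hT.le hA.le y) _
      have b4 : 2 + T ^ (2 * k) ≤ 3 * (1 + T) ^ (2 * k) := by
        have c1 : (1 : ℝ) ≤ (1 + T) ^ (2 * k) := one_le_pow₀ (by linarith)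
        have c2 : T ^ (2 * k) ≤ (1 + T) ^ (2 * k) := pow_le_pow_left₀ hT.le (by linarith) _
        linarith
      have b5 : (1 + T) ^ (6 * k) = (1 + T) ^ (2 * k) * (1 + T) ^ (4 * k) := by
        rw [← pow_add]
        congr 1
        ring
      refine (norm_sub_le _ _).trans ?_
      calc _ ≤ 129600 ^ k * (1 + |y|) ^ (4 * k) * (2 * E * X) +
            T ^ (2 * k) * (129600 ^ k * (1 + |y|) ^ (4 * k) * (E * X)) := add_le_add b1 b2
        _ = (2 + T ^ (2 * k)) * (129600 ^ k * (E * X)) * (1 + |y|) ^ (4 * k) := by ring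
        _ ≤ (3 * (1 + T) ^ (2 * k)) * (129600 ^ k * (E * X)) *
            ((1 + T) ^ (4 * k) * (1 + |(y - T) / U|) ^ (4 * k)) := by gcongr
        _ = 3 * 129600 ^ k * ((1 + T) ^ (6 * k) * E) * ((1 + |(y - T) / U|) ^ (4 * k) * X) := by
            rw [b5]; ring
        _ ≤ _ := by linarith
  -- integrability of the second product
  have iZ : Integrable (fun y : ℝ => riemannZeta (pt (y + η)) ^ k * conj (riemannZeta (pt y)) ^ k *
      (wt T U y : ℂ)) := by
    have hp := poly_wt_integrable (4 * k) (C₀ := 129600 ^ k) hU hT.le hA.le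
      (p := fun y => ‖riemannZeta (pt (y + η)) ^ k * conj (riemannZeta (pt y)) ^ k‖)
      (((hzc'.pow k).mul ((Complex.continuous_conj.comp hzc).pow k)).norm.aestronglyMeasurable)
      (fun y => by
        rw [abs_of_nonneg (norm_nonneg _)]
        exact hz1 y)
    refine hp.mono' hDm.aestronglyMeasurable (Eventually.of_forall fun y => ?_)
    rw [norm_mul, Complex.norm_real, Real.norm_of_nonneg (wt_pos _ _ _).le]
  have hfin : ‖VC k T U η - (T : ℂ) ^ (2 * k) * CZ k T U η‖ ≤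
      ε / 4 * (V0 k T U + V0 k T U) + 3 * 129600 ^ k * ((1 + T) ^ (6 * k) * E) *
        (U * KK (4 * k)) := by
    unfold VC CZ
    rw [← integral_const_mul, ← integral_sub iC (iZ.const_mul _)]
    have g1 := norm_integral_le_of_norm_le (((hs'.add hs).const_mul (ε / 4)).add (is.const_mul
      (3 * 129600 ^ k * ((1 + T) ^ (6 * k) * E)))) (Eventually.of_forall hpt)
    refine g1.trans (le_of_eq ?_)
    have g2 := integral_add ((hs'.add hs).const_mul (ε / 4)) (is.const_mul
      (3 * 129600 ^ k * ((1 + T) ^ (6 * k) * E)))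
    have g3 := integral_add hs' hs
    have g4 : ∫ y, ‖FF k T U (pt (y + η))‖ ^ 2 = V0 k T U :=
      integral_add_right_eq_self (μ := (volume : Measure ℝ)) (fun y => ‖FF k T U (pt y)‖ ^ 2) η
    have g5 : ∫ y, ‖FF k T U (pt y)‖ ^ 2 = V0 k T U := rfl
    simp only [Pi.add_apply] at g2
    rw [integral_const_mul, integral_const_mul, scaled_integral (4 * k) T hU, g3, g4, g5] at g2
    exact g2
  refine hfin.trans ?_
  have g6 : 3 * 129600 ^ k * ((1 + T) ^ (6 * k) * E) * (U * KK (4 * k)) ≤ ε / 2 * V0 k T U := by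
    have e4 := hc' T U hA
    have hT1 : 1 ≤ T ^ (2 * k) := one_le_pow₀ (by linarith)
    have e5 : 3 * 129600 ^ k * ((1 + T) ^ (6 * k) * E) * (U * KK (4 * k)) =
        (3 * 129600 ^ k * KK (4 * k) / c * ((1 + T) ^ (6 * k) * E)) * (c * U) := by
      field_simp
    rw [e5]
    calc _ ≤ ε / 2 * (c * U) := mul_le_mul_of_nonneg_right h1.le (by positivity)
      _ ≤ ε / 2 * (c * (T ^ (2 * k) * U)) := by
          apply mul_le_mul_of_nonneg_left _ (by positivity)
          apply mul_le_mul_of_nonneg_left _ hc.le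
          exact le_mul_of_one_le_left hU.le hT1
      _ ≤ ε / 2 * V0 k T U := mul_le_mul_of_nonneg_left e4 (by positivity)
  linarith

end

end Q97.MM
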