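import Pool.Agent.Q97.MM.Abs

set_option autoImplicit false
set_option linter.unusedSectionVars false

/-!
# Measures with a functional equation
-/

namespace Q97.MM

open MeasureTheory Filter Topology Set ProbabilityTheory

variable {ν : Measure ℝ} [IsProbabilityMeasure ν] {κ : ℝ}

/-- No mass on the negative half-line. -/
theorem neg_null (hint : ∀ a : ℝ, Integrable (fun u => Real.exp (-(a * u))) ν)
    (h1 : ∀ a : ℝ, 0 ≤ a → ∫ u, Real.exp (-(a * u)) ∂ν ≤ 1) : ν (Iio 0) = 0 := by
  have hδ : ∀ n : ℕ, ν (Iic (-(1 / ((n : ℝ) + 1)))) = 0 := by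
    intro n
    have hpos : (0 : ℝ) < 1 / ((n : ℝ) + 1) := by positivity
    set δ := 1 / ((n : ℝ) + 1) with hδ
    have hb : ∀ a : ℝ, 0 ≤ a → ν (Iic (-δ)) ≤ ENNReal.ofReal (Real.exp (-(a * δ))) := by
      intro a ha
      have hsub : Iic (-δ) ⊆ {u : ℝ | ENNReal.ofReal (Real.exp (a * δ)) ≤
          ENNReal.ofReal (Real.exp (-(a * u)))} := by
        intro u hu
        rw [mem_ofPred_eq]
        apply ENNReal.ofReal_le_ofReal
        apply Real.exp_le_exp.mpr
        have hu' : u ≤ -δ := hu
        nlinarith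
      have h3 := mul_meas_ge_le_lintegral₀ (μ := ν)
        (f := fun u => ENNReal.ofReal (Real.exp (-(a * u)))) (by fun_prop)
        (ENNReal.ofReal (Real.exp (a * δ)))
      rw [lintegral_of_integrable (hint a)] at h3
      have h4 := h3.trans (ENNReal.ofReal_le_ofReal (h1 a ha))
      rw [Real.exp_neg, ← one_div, ENNReal.ofReal_div_of_pos (Real.exp_pos _)]
      rw [ENNReal.le_div_iff_mul_le (Or.inl (by simpa using Real.exp_pos (a * δ)))
        (Or.inl ENNReal.ofReal_ne_top)]
      rw [mul_comm]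
      exact (mul_le_mul_right (measure_mono hsub) _).trans h4
    have hlim : Tendsto (fun a : ℝ => ENNReal.ofReal (Real.exp (-(a * δ)))) atTop (𝓝 0) := by
      have h2 : Tendsto (fun a : ℝ => Real.exp (-(a * δ))) atTop (𝓝 0) := by
        apply Real.tendsto_exp_neg_atTop_nhds_zero.comp
        exact tendsto_id.atTop_mul_const hpos
      have h3 := ENNReal.tendsto_ofReal h2
      rwa [ENNReal.ofReal_zero] at h3
    have h5 := ge_of_tendsto hlim ((eventually_ge_atTop 0).mono hb)
    exact le_antisymm h5 bot_le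
  have hcov : Iio (0 : ℝ) ⊆ ⋃ n : ℕ, Iic (-(1 / ((n : ℝ) + 1))) := by
    intro u hu
    have hu' : 0 < -u := by
      have : u < 0 := hu
      linarith
    obtain ⟨n, hn⟩ := exists_nat_one_div_lt hu'
    rw [mem_iUnion]
    exact ⟨n, by rw [mem_Iic]; linarith⟩
  exact measure_mono_null hcov (measure_iUnion_null hδ)

theorem mgf_eq (ν : Measure ℝ) (t : ℝ) : mgf id ν t = ∫ u, Real.exp (-((-t) * u)) ∂ν := by
  unfold mgf
  congr 1
  funext u
  change Real.exp (t * u) = _
  rw [neg_mul, neg_neg]

theorem integrableExpSet_univ (hint : ∀ a : ℝ, Integrable (fun u => Real.exp (-(a * u))) ν) :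
    integrableExpSet id ν = univ := by
  apply eq_univ_of_forall
  intro t
  have h1 := hint (-t)
  change Integrable (fun u => Real.exp (t * id u)) ν
  simpa [neg_mul, neg_neg] using h1

/-- Probability measures with the same Laplace transform are equal. -/
theorem eq_of_lt {μ : Measure ℝ} [IsProbabilityMeasure μ]
    (hint : ∀ a : ℝ, Integrable (fun u => Real.exp (-(a * u))) ν)
    (h : ∀ a : ℝ, ∫ u, Real.exp (-(a * u)) ∂ν = ∫ u, Real.exp (-(a * u)) ∂μ) : ν = μ := by
  have h1 : mgf id ν = mgf id μ := by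
    funext t
    rw [mgf_eq, mgf_eq, h]
  have h2 := eqOn_complexMGF_of_mgf h1
  rw [integrableExpSet_univ hint, interior_univ] at h2
  apply Measure.ext_of_complexMGF_id_eq
  funext z
  exact h2 (mem_univ _)

/-- The functional equation makes the measure symmetric. -/
theorem symm_of_fe (hint : ∀ a : ℝ, Integrable (fun u => Real.exp (-(a * u))) ν)
    (hfe : ∀ a : ℝ, ∫ u, Real.exp (-((-a) * u)) ∂ν =
      Real.exp (κ * a) * ∫ u, Real.exp (-(a * u)) ∂ν) :
    ν.map (fun u => κ - u) = ν := by
  have hmeas : Measurable (fun u : ℝ => κ - u) := by fun_prop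
  have : IsProbabilityMeasure (ν.map (fun u => κ - u)) :=
    Measure.isProbabilityMeasure_map hmeas.aemeasurable
  symm
  apply eq_of_lt hint
  intro a
  rw [integral_map hmeas.aemeasurable (by fun_prop)]
  have h1 : ∀ u, Real.exp (-(a * (κ - u))) = Real.exp (-(κ * a)) * Real.exp (-((-a) * u)) := by
    intro u
    rw [← Real.exp_add]
    congr 1
    ring
  simp_rw [h1]
  rw [integral_const_mul, hfe, ← mul_assoc, ← Real.exp_add, neg_add_cancel, Real.exp_zero, one_mul]

/-- The measure lives on `[0, κ]`. -/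
theorem supp_of_fe (hint : ∀ a : ℝ, Integrable (fun u => Real.exp (-(a * u))) ν)
    (h1 : ∀ a : ℝ, 0 ≤ a → ∫ u, Real.exp (-(a * u)) ∂ν ≤ 1)
    (hfe : ∀ a : ℝ, ∫ u, Real.exp (-((-a) * u)) ∂ν =
      Real.exp (κ * a) * ∫ u, Real.exp (-(a * u)) ∂ν) :
    ν (Icc 0 κ)ᶜ = 0 := by
  have h2 := neg_null hint h1
  have h3 : ν (Ioi κ) = 0 := by
    rw [← symm_of_fe hint hfe, Measure.map_apply (by fun_prop) measurableSet_Ioi]
    have h4 : (fun u : ℝ => κ - u) ⁻¹' Ioi κ = Iio 0 := by
      ext u
      simp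
    rw [h4]
    exact h2
  have h4 : (Icc 0 κ)ᶜ ⊆ Iio 0 ∪ Ioi κ := by
    intro u hu
    rw [mem_compl_iff, mem_Icc, not_and_or, not_le, not_le] at hu
    exact hu
  exact measure_mono_null h4 (measure_union_null h2 h3)

/-- Two-sided bounds for symmetric measures on `[0, κ]`. -/
theorem lt_bounds (hint : ∀ a : ℝ, Integrable (fun u => Real.exp (-(a * u))) ν)
    (hsupp : ν (Icc 0 κ)ᶜ = 0) (hsym : ν.map (fun u => κ - u) = ν) (a : ℝ) :
    Real.exp (-(κ * a / 2)) ≤ ∫ u, Real.exp (-(a * u)) ∂ν ∧
      ∫ u, Real.exp (-(a * u)) ∂ν ≤ (1 + Real.exp (-(κ * a))) / 2 := by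
  have hmeas : Measurable (fun u : ℝ => κ - u) := by fun_prop
  have hI : ∫ u, Real.exp (-(a * u)) ∂ν = ∫ u, Real.exp (-(a * (κ - u))) ∂ν := by
    conv_lhs => rw [← hsym]
    rw [integral_map hmeas.aemeasurable (by fun_prop)]
  have hint2 : Integrable (fun u => Real.exp (-(a * (κ - u)))) ν := by
    have h1 : ∀ u, Real.exp (-(a * (κ - u))) = Real.exp (-(κ * a)) * Real.exp (-((-a) * u)) := by
      intro u
      rw [← Real.exp_add]
      congr 1
      ring
    simp_rw [h1]
    exact (hint (-a)).const_mul _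
  have hsum : ∫ u, Real.exp (-(a * u)) ∂ν =
      ∫ u, (Real.exp (-(a * u)) + Real.exp (-(a * (κ - u)))) / 2 ∂ν := by
    rw [integral_div, integral_add (hint a) hint2, ← hI]
    ring
  have hae : ∀ᵐ u ∂ν, u ∈ Icc 0 κ := by
    rw [ae_iff]
    exact hsupp
  have hcint : ∀ c : ℝ, Integrable (fun _ : ℝ => c) ν := fun c => integrable_const c
  have hmid : Integrable (fun u => (Real.exp (-(a * u)) + Real.exp (-(a * (κ - u)))) / 2) ν :=
    ((hint a).add hint2).div_const 2
  have hconst : ∀ c : ℝ, ∫ _u, c ∂ν = c := by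
    intro c
    rw [integral_const, probReal_univ, one_smul]
  rw [hsum]
  constructor
  · rw [← hconst (Real.exp (-(κ * a / 2)))]
    apply integral_mono_ae (hcint _) hmid
    filter_upwards with u
    have h1 : Real.exp (-(κ * a / 2)) * Real.exp (-(κ * a / 2)) =
        Real.exp (-(a * u)) * Real.exp (-(a * (κ - u))) := by
      rw [← Real.exp_add, ← Real.exp_add]
      congr 1
      ring
    have hp := Real.exp_pos (-(κ * a / 2))
    have hx := Real.exp_pos (-(a * u))
    have hy := Real.exp_pos (-(a * (κ - u)))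
    nlinarith [sq_nonneg (Real.exp (-(a * u)) - Real.exp (-(a * (κ - u))))]
  · rw [← hconst ((1 + Real.exp (-(κ * a))) / 2)]
    apply integral_mono_ae hmid (hcint _)
    filter_upwards [hae] with u hu
    apply div_le_div_of_nonneg_right _ (by norm_num)
    -- (1 - x) (1 - y) >= 0 for x = exp(-a u), y = exp(-a (κ - u)) on the same side of 1
    have h1 : Real.exp (-(κ * a)) = Real.exp (-(a * u)) * Real.exp (-(a * (κ - u))) := by
      rw [← Real.exp_add]
      congr 1
      ring
    rw [h1]
    have hx : 0 ≤ (1 - Real.exp (-(a * u))) * (1 - Real.exp (-(a * (κ - u)))) := by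
      rcases le_total 0 a with ha | ha
      · apply mul_nonneg
        · rw [sub_nonneg]
          exact Real.exp_le_one_iff.mpr (by nlinarith [hu.1])
        · rw [sub_nonneg]
          exact Real.exp_le_one_iff.mpr (by nlinarith [hu.2])
      · apply mul_nonneg_of_nonpos_of_nonpos
        · rw [sub_nonpos]
          exact Real.one_le_exp (by nlinarith [hu.1])
        · rw [sub_nonpos]
          exact Real.one_le_exp (by nlinarith [hu.2])
    nlinarith

end Q97.MM
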