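import Pool.Agent.Q97.MM.Cor
import Pool.Agent.Q97.MM.Lim

set_option autoImplicit false

open MeasureTheory Filter Topology Complex Set ComplexConjugate

namespace Q97.MM

theorem exists_limit2 (ν : ℕ → ProbabilityMeasure ℝ)
    (h : ∀ a : ℝ, ∃ C, ∀ᶠ j in atTop,
      ∫⁻ u, ENNReal.ofReal (Real.exp (-(a * u))) ∂(ν j : Measure ℝ) ≤ ENNReal.ofReal C) :
    ∃ φ : ℕ → ℕ, StrictMono φ ∧ ∃ μ : ProbabilityMeasure ℝ,
      Tendsto (fun j => ν (φ j)) atTop (𝓝 μ) ∧
      (∀ a : ℝ, Integrable (fun u => Real.exp (-(a * u))) (μ : Measure ℝ)) ∧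
      ∀ a : ℝ, Tendsto (fun j => ∫ u, Real.exp (-(a * u)) ∂(ν (φ j) : Measure ℝ)) atTop
        (𝓝 (∫ u, Real.exp (-(a * u)) ∂(μ : Measure ℝ))) := by
  choose C hC using h
  have hC' : ∀ a : ℝ, ∀ᶠ j in atTop,
      ∫⁻ u, ENNReal.ofReal (Real.exp (-(a * u))) ∂(ν j : Measure ℝ) ≤
        ENNReal.ofReal (max (C a) 0) := by
    intro a
    filter_upwards [hC a] with j hj
    exact hj.trans (ENNReal.ofReal_le_ofReal (le_max_left _ _))
  obtain ⟨j0, hj0⟩ := eventually_atTop.mp ((hC' 1).and (hC' (-1)))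
  -- the tail is tight
  let S : Set (ProbabilityMeasure ℝ) := {m | ∃ j, m = ν (j + j0)}
  have htight : IsTightMeasureSet {((m : ProbabilityMeasure ℝ) : Measure ℝ) | m ∈ S} := by
    rw [isTightMeasureSet_iff_exists_isCompact_measure_compl_le]
    intro ε hε
    have hlim : Tendsto (fun R : ℝ => ENNReal.ofReal
        ((max (C 1) 0 + max (C (-1)) 0) * Real.exp (-R))) atTop (𝓝 0) := by
      have h1 : Tendsto (fun R : ℝ => (max (C 1) 0 + max (C (-1)) 0) * Real.exp (-R)) atTop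
          (𝓝 0) := by
        have h2 := Real.tendsto_exp_neg_atTop_nhds_zero.const_mul
          (max (C 1) 0 + max (C (-1)) 0)
        rwa [mul_zero] at h2
      have h3 := ENNReal.tendsto_ofReal h1
      rwa [ENNReal.ofReal_zero] at h3
    obtain ⟨R, hR⟩ := (hlim.eventually (ge_mem_nhds hε)).exists
    refine ⟨Icc (-R) R, isCompact_Icc, ?_⟩
    rintro _ ⟨m, ⟨j, rfl⟩, rfl⟩
    have h1 := hj0 (j + j0) (Nat.le_add_left _ _)
    exact (tail_bound (le_max_right _ _) (le_max_right _ _) h1.1 h1.2).trans hR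
  have hcomp := isCompact_closure_of_isTightMeasureSet htight
  obtain ⟨μ, _, φ0, hφ0, hlim⟩ := hcomp.tendsto_subseq
    (x := fun j => ν (j + j0)) (fun j => subset_closure ⟨j, rfl⟩)
  let φ : ℕ → ℕ := fun j => φ0 j + j0
  have hφ : StrictMono φ := fun i j hij => Nat.add_lt_add_right (hφ0 hij) j0
  have hlim' : Tendsto (fun j => ν (φ j)) atTop (𝓝 μ) := hlim
  have hopen : ∀ G : Set ℝ, IsOpen G →
      (μ : Measure ℝ) G ≤ atTop.liminf (fun j => (ν (φ j) : Measure ℝ) G) :=
    fun G hG => ProbabilityMeasure.le_liminf_measure_open_of_tendsto hlim' hG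
  have hbd : ∀ a : ℝ, ∫⁻ u, ENNReal.ofReal (Real.exp (-(a * u))) ∂(μ : Measure ℝ) ≤
      ENNReal.ofReal (max (C a) 0) := by
    intro a
    refine (lintegral_le_liminf_lintegral_of_forall_isOpen_measure_le_liminf_measure
      (μ := (μ : Measure ℝ)) (μs := fun j => (ν (φ j) : Measure ℝ))
      (f := fun u => Real.exp (-(a * u))) (by fun_prop) (fun u => (Real.exp_pos _).le)
      hopen).trans ?_
    refine Filter.liminf_le_of_frequently_le' ?_
    exact ((hφ.tendsto_atTop.eventually (hC' a))).frequently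
  have hint : ∀ a : ℝ, Integrable (fun u => Real.exp (-(a * u))) (μ : Measure ℝ) :=
    fun a => exp_integrable_of_lintegral (hbd a)
  refine ⟨φ, hφ, μ, hlim', hint, fun a => ?_⟩
  -- convergence
  rw [Metric.tendsto_atTop]
  intro ε hε
  set K := max (C (2 * a)) 0 with hK
  have hK0 : 0 ≤ K := le_max_right _ _
  obtain ⟨M, hM, hMε⟩ : ∃ M : ℝ, 0 < M ∧ K / M < ε / 3 := by
    refine ⟨3 * (K + 1) / ε, by positivity, ?_⟩
    rw [div_lt_div_iff₀ (by positivity) (by norm_num)]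
    have : ε * (3 * (K + 1) / ε) = 3 * (K + 1) := by field_simp
    rw [this]
    linarith
  let g : BoundedContinuousFunction ℝ ℝ := BoundedContinuousFunction.ofNormedAddCommGroup
    (fun u => min (Real.exp (-(a * u))) M) (by fun_prop) M (fun u => by
      rw [Real.norm_eq_abs, abs_of_nonneg (le_min (Real.exp_pos _).le hM.le)]
      exact min_le_right _ _)
  have hg := (ProbabilityMeasure.tendsto_iff_forall_integral_tendsto.mp hlim') g
  have hg2 : ∀ᶠ j in atTop, |∫ u, min (Real.exp (-(a * u))) M ∂(ν (φ j) : Measure ℝ) -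
      ∫ u, min (Real.exp (-(a * u))) M ∂(μ : Measure ℝ)| < ε / 3 := by
    have h1 := (Metric.tendsto_nhds.mp hg) (ε / 3) (by positivity)
    filter_upwards [h1] with j hj
    rw [Real.dist_eq] at hj
    exact hj
  have hev := (hφ.tendsto_atTop.eventually (hC' a)).and
    ((hφ.tendsto_atTop.eventually (hC' (2 * a))).and hg2)
  obtain ⟨n, hn⟩ := eventually_atTop.mp hev
  refine ⟨n, fun j hj => ?_⟩
  obtain ⟨h1, h2, h3⟩ := hn j hj
  have i1 := exp_integrable_of_lintegral h1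
  have i2 := exp_integrable_of_lintegral h2
  have b2 : ∫ u, Real.exp (-(2 * a * u)) ∂(ν (φ j) : Measure ℝ) ≤ K := by
    rw [lintegral_of_integrable i2] at h2
    exact (ENNReal.ofReal_le_ofReal_iff hK0).mp h2
  have b3 : ∫ u, Real.exp (-(2 * a * u)) ∂(μ : Measure ℝ) ≤ K := by
    have h4 := hbd (2 * a)
    rw [lintegral_of_integrable (hint (2 * a))] at h4
    exact (ENNReal.ofReal_le_ofReal_iff hK0).mp h4
  have t1 := trunc (μ := (ν (φ j) : Measure ℝ)) hM i1 i2 b2
  have t2 := trunc (μ := (μ : Measure ℝ)) hM (hint a) (hint (2 * a)) b3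
  rw [Real.dist_eq]
  rw [abs_le] at t1 t2
  rw [abs_lt] at h3 ⊢
  constructor <;> linarith [t1.1, t1.2, t2.1, t2.2, h3.1, h3.2]


noncomputable section

variable (k : ℕ)

theorem seq_limit2 {T U : ℕ → ℝ} (hT : Tendsto T atTop atTop)
    (hU : ∀ j, 1 ≤ U j ∧ U j ≤ T j / Real.log (T j)) :
    ∃ φ : ℕ → ℕ, StrictMono φ ∧ ∃ ν : ProbabilityMeasure ℝ,
      (∀ f : BoundedContinuousFunction ℝ ℝ,
        Tendsto (fun j => ∫ u, f u ∂(nuT k (T (φ j)) (U (φ j)))) atTop
          (𝓝 (∫ u, f u ∂(ν : Measure ℝ)))) ∧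
      (∀ a : ℝ, Integrable (fun u => Real.exp (-(a * u))) (ν : Measure ℝ)) ∧
      (∀ a : ℝ, 0 ≤ a → ∫ u, Real.exp (-(a * u)) ∂(ν : Measure ℝ) ≤ 1) ∧
      (∀ a : ℝ, ∫ u, Real.exp (-((-a) * u)) ∂(ν : Measure ℝ) =
        Real.exp (2 * k * a) * ∫ u, Real.exp (-(a * u)) ∂(ν : Measure ℝ)) ∧
      ∀ a : ℝ, Tendsto (fun j => Gn k (T (φ j)) (U (φ j)) a) atTop
        (𝓝 (∫ u, Real.exp (-(a * u)) ∂(ν : Measure ℝ))) := by
  classical
  let μ : ℕ → ProbabilityMeasure ℝ := fun j =>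
    if h : Adm (T j) (U j) then ⟨nuT k (T j) (U j), nuT_prob k h⟩ else ⟨Measure.dirac 0, inferInstance⟩
  have hμ : ∀ j, Adm (T j) (U j) → (μ j : Measure ℝ) = nuT k (T j) (U j) := by
    intro j h
    have h1 : μ j = ⟨nuT k (T j) (U j), nuT_prob k h⟩ := dif_pos h
    rw [h1]
    rfl
  have hlint : ∀ a : ℝ, ∀ᶠ j in atTop,
      ∫⁻ u, ENNReal.ofReal (Real.exp (-(a * u))) ∂(μ j : Measure ℝ) =
        ENNReal.ofReal (Gn k (T j) (U j) a) := by
    intro a
    have h1 := (log_div_tendsto a).eventually (gt_mem_nhds (show (0 : ℝ) < 1 / 4 by norm_num))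
    filter_upwards [seq_adm hT hU, hT.eventually h1] with j h2 h3
    rw [hμ j h2]
    exact nuT_lint k h2 h3.le
  have hbd : ∀ a : ℝ, ∃ C, ∀ᶠ j in atTop,
      ∫⁻ u, ENNReal.ofReal (Real.exp (-(a * u))) ∂(μ j : Measure ℝ) ≤ ENNReal.ofReal C := by
    intro a
    obtain ⟨C, hC, hC'⟩ := G_bdd k a
    refine ⟨C, ?_⟩
    filter_upwards [seq_adm hT hU, hT.eventually hC', hlint a] with j h1 h2 h3
    rw [h3]
    exact ENNReal.ofReal_le_ofReal (h2 _ h1)
  obtain ⟨φ, hφ, ν, hweak, hν, hlim⟩ := exists_limit2 μ hbd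
  have hreal : ∀ a : ℝ, ∀ᶠ j in atTop,
      ∫ u, Real.exp (-(a * u)) ∂(μ j : Measure ℝ) = Gn k (T j) (U j) a := by
    intro a
    filter_upwards [seq_adm hT hU, hlint a] with j h1 h2
    rw [integral_eq_lintegral_of_nonneg_ae (Eventually.of_forall fun u => (Real.exp_pos _).le)
      (by fun_prop), h2, ENNReal.toReal_ofReal (Gn_nonneg k h1 a)]
  have hconv : ∀ a : ℝ, Tendsto (fun j => Gn k (T (φ j)) (U (φ j)) a) atTop
        (𝓝 (∫ u, Real.exp (-(a * u)) ∂(ν : Measure ℝ))) := by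
    intro a
    refine (hlim a).congr' ?_
    exact hφ.tendsto_atTop.eventually (hreal a)
  refine ⟨φ, hφ, ν, fun f => ?_, hν, ?_, ?_, hconv⟩
  · have h1 := (ProbabilityMeasure.tendsto_iff_forall_integral_tendsto.mp hweak) f
    refine h1.congr' ?_
    filter_upwards [hφ.tendsto_atTop.eventually (seq_adm hT hU)] with j hj
    rw [hμ _ hj]
  · intro a ha
    apply le_of_forall_pos_le_add
    intro ε hε
    refine le_of_tendsto (hconv a) ?_
    have h1 := hT.eventually (Gn_le k ha hε)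
    have h2 : ∀ᶠ j in atTop, Gn k (T j) (U j) a ≤ 1 + ε := by
      filter_upwards [h1, seq_adm hT hU] with j h3 h4 using h3 _ h4
    exact hφ.tendsto_atTop.eventually h2
  · intro a
    have h1 := (seq_fe k hT hU a).comp hφ.tendsto_atTop
    have h2 := (hconv (-a)).sub ((hconv a).const_mul (Real.exp (2 * k * a)))
    have h3 := tendsto_nhds_unique h1 h2
    linarith


theorem nu_int {F : ℂ → ℂ} {c L : ℝ} (hd : Continuous (dens F c)) (hp : 0 < VI F c) {f : ℝ → ℝ}
    (hf : Continuous f) :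
    ∫ u, f u ∂(nu F c L) = ∫ ξ, dens F c ξ / VI F c * f (-(4 * Real.pi * ξ / L)) := by
  have hm : Measurable (fun ξ : ℝ => -(4 * Real.pi * ξ / L)) := by fun_prop
  have hdm : Measurable (fun ξ => ENNReal.ofReal (dens F c ξ / VI F c)) :=
    (hd.measurable.div_const _).ennreal_ofReal
  unfold nu
  rw [integral_map hm.aemeasurable hf.aestronglyMeasurable,
    integral_withDensity_eq_integral_toReal_smul hdm (Eventually.of_forall fun ξ =>
      ENNReal.ofReal_lt_top)]
  refine integral_congr_ae (Eventually.of_forall fun ξ => ?_)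
  simp only [smul_eq_mul]
  rw [ENNReal.toReal_ofReal (div_nonneg (dens_nonneg _ _ _) hp.le)]

/-- The correlation in terms of the spectral measure of the window. -/
theorem VC_eq {T U : ℝ} (hA : Adm T U) (h : ℝ) :
    VC k T U (h / Real.log T) / (V0 k T U : ℂ) =
      ((∫ u, Real.cos (h * u / 2) ∂(nuT k T U) : ℝ) : ℂ) -
        ((∫ u, Real.sin (h * u / 2) ∂(nuT k T U) : ℝ) : ℂ) * I := by
  have hL := hA.log
  have hL0 : Real.log T ≠ 0 := by linarith
  obtain ⟨M, δ, hM, hδ, hbd⟩ := FF_bd k T hA.pos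
  have hdiff := FF_differentiable k T U
  have hV0 := V0_pos k hA
  have il := ln_integrable hdiff hδ hbd (x := 1 / 2) (by norm_num) (by norm_num)
  have im2 := ln_memLp hdiff hδ hbd (x := 1 / 2) (by norm_num) (by norm_num)
  have hdc := dens_measurable hdiff hδ hbd (c := 1 / 2) (by norm_num) (by norm_num)
  obtain ⟨_, j2, j3⟩ := cross il im2 (h / Real.log T)
  have e0 : VC k T U (h / Real.log T) = ∫ ξ, cexp ((2 * Real.pi * (h / Real.log T) * ξ : ℝ) * I) *
      ((dens (FF k T U) (1 / 2) ξ : ℝ) : ℂ) := j3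
  have i0 : Integrable (fun ξ => dens (FF k T U) (1 / 2) ξ) := by
    have h1 := j2.norm
    refine h1.congr (Eventually.of_forall fun ξ => ?_)
    simp only
    rw [norm_mul, Complex.norm_exp_ofReal_mul_I, one_mul, Complex.norm_real,
      Real.norm_of_nonneg (by positivity)]
    rfl
  have ic : Integrable (fun ξ => dens (FF k T U) (1 / 2) ξ *
      Real.cos (2 * Real.pi * (h / Real.log T) * ξ)) := by
    refine i0.norm.mono' (i0.aestronglyMeasurable.mul (by fun_prop))
      (Eventually.of_forall fun ξ => ?_)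
    rw [norm_mul]
    exact mul_le_of_le_one_right (norm_nonneg _) (Real.abs_cos_le_one _)
  have is : Integrable (fun ξ => dens (FF k T U) (1 / 2) ξ *
      Real.sin (2 * Real.pi * (h / Real.log T) * ξ)) := by
    refine i0.norm.mono' (i0.aestronglyMeasurable.mul (by fun_prop))
      (Eventually.of_forall fun ξ => ?_)
    rw [norm_mul]
    exact mul_le_of_le_one_right (norm_nonneg _) (Real.abs_sin_le_one _)
  have e1 : VC k T U (h / Real.log T) = ((∫ ξ, dens (FF k T U) (1 / 2) ξ *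
      Real.cos (2 * Real.pi * (h / Real.log T) * ξ) : ℝ) : ℂ) +
      ((∫ ξ, dens (FF k T U) (1 / 2) ξ *
        Real.sin (2 * Real.pi * (h / Real.log T) * ξ) : ℝ) : ℂ) * I := by
    have c1 : ∫ ξ, ((dens (FF k T U) (1 / 2) ξ *
        Real.cos (2 * Real.pi * (h / Real.log T) * ξ) : ℝ) : ℂ) =
        ((∫ ξ, dens (FF k T U) (1 / 2) ξ *
          Real.cos (2 * Real.pi * (h / Real.log T) * ξ) : ℝ) : ℂ) :=
      integral_ofReal (μ := (volume : Measure ℝ)) (𝕜 := ℂ)
        (f := fun ξ => dens (FF k T U) (1 / 2) ξ * Real.cos (2 * Real.pi * (h / Real.log T) * ξ))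
    have c2 : ∫ ξ, ((dens (FF k T U) (1 / 2) ξ *
        Real.sin (2 * Real.pi * (h / Real.log T) * ξ) : ℝ) : ℂ) =
        ((∫ ξ, dens (FF k T U) (1 / 2) ξ *
          Real.sin (2 * Real.pi * (h / Real.log T) * ξ) : ℝ) : ℂ) :=
      integral_ofReal (μ := (volume : Measure ℝ)) (𝕜 := ℂ)
        (f := fun ξ => dens (FF k T U) (1 / 2) ξ * Real.sin (2 * Real.pi * (h / Real.log T) * ξ))
    rw [e0, ← c1, ← c2, ← integral_mul_const, ← integral_add ic.ofReal (is.ofReal.mul_const _)]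
    refine integral_congr_ae (Eventually.of_forall fun ξ => ?_)
    simp only
    rw [Complex.exp_mul_I, ← Complex.ofReal_cos, ← Complex.ofReal_sin, Complex.ofReal_mul,
      Complex.ofReal_mul]
    ring
  have p1 : ∫ u, Real.cos (h * u / 2) ∂(nuT k T U) = (∫ ξ, dens (FF k T U) (1 / 2) ξ *
      Real.cos (2 * Real.pi * (h / Real.log T) * ξ)) / V0 k T U := by
    unfold nuT
    rw [nu_int hdc hV0 (by fun_prop), ← integral_div]
    refine integral_congr_ae (Eventually.of_forall fun ξ => ?_)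
    simp only
    have a1 : h * -(4 * Real.pi * ξ / Real.log T) / 2 = -(2 * Real.pi * (h / Real.log T) * ξ) := by
      ring
    rw [a1, Real.cos_neg]
    unfold V0
    ring
  have p2 : ∫ u, Real.sin (h * u / 2) ∂(nuT k T U) = -(∫ ξ, dens (FF k T U) (1 / 2) ξ *
      Real.sin (2 * Real.pi * (h / Real.log T) * ξ)) / V0 k T U := by
    unfold nuT
    rw [nu_int hdc hV0 (by fun_prop), ← integral_neg, ← integral_div]
    refine integral_congr_ae (Eventually.of_forall fun ξ => ?_)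
    simp only
    have a1 : h * -(4 * Real.pi * ξ / Real.log T) / 2 = -(2 * Real.pi * (h / Real.log T) * ξ) := by
      ring
    rw [a1, Real.sin_neg]
    unfold V0
    ring
  rw [e1, p1, p2]
  push_cast
  ring

end

end Q97.MM
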