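import Pool.Agent.H345R2.Chi

set_option autoImplicit false

open MeasureTheory Filter Topology Set
open H345 H345.Chi

namespace Q97.MM

noncomputable section

theorem gron {G g : ℝ → ℂ} {a b K : ℝ} (hG : ∀ x ∈ Icc a b, HasDerivAt G (G x * g x) x)
    (hg : ∀ x ∈ Icc a b, ‖g x‖ ≤ K) (h0 : ‖G a‖ = 1) {x : ℝ} (hx : x ∈ Icc a b) :
    ‖G x‖ ≤ Real.exp (K * (x - a)) := by
  have gF := norm_le_gronwallBound_of_norm_deriv_right_le (f := G)
    (f' := fun x => G x * g x) (δ := 1) (K := K) (ε := 0)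
    (a := a) (b := b)
    (fun x hx => (hG x hx).continuousAt.continuousWithinAt)
    (fun x hx => (hG x ⟨hx.1, hx.2.le⟩).hasDerivWithinAt) h0.le
    (fun x hx => by
      rw [norm_mul, add_zero, mul_comm]
      exact mul_le_mul_of_nonneg_right (hg x ⟨hx.1, hx.2.le⟩) (norm_nonneg _)) x hx
  rwa [gronwallBound_ε0, one_mul] at gF

theorem gron_two {G g : ℝ → ℂ} {a b K : ℝ} (hG : ∀ x ∈ Icc a b, HasDerivAt G (G x * g x) x)
    (hne : ∀ x ∈ Icc a b, G x ≠ 0)
    (hg : ∀ x ∈ Icc a b, ‖g x‖ ≤ K) (h0 : ‖G a‖ = 1) {x : ℝ} (hx : x ∈ Icc a b) :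
    Real.exp (-(K * (x - a))) ≤ ‖G x‖ ∧ ‖G x‖ ≤ Real.exp (K * (x - a)) := by
  refine ⟨?_, gron hG hg h0 hx⟩
  have h1 : ∀ x ∈ Icc a b, HasDerivAt (fun x => (G x)⁻¹) ((G x)⁻¹ * (-g x)) x := by
    intro x hx
    refine ((hG x hx).inv (hne x hx)).congr_deriv ?_
    have := hne x hx
    field_simp
  have h2 := gron h1 (fun x hx => by rw [norm_neg]; exact hg x hx)
    (by rw [norm_inv, h0, inv_one]) hx
  rw [norm_inv] at h2
  have h3 : 0 < ‖G x‖ := norm_pos_iff.mpr (hne x hx)
  rw [Real.exp_neg]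
  exact inv_le_of_inv_le₀ h3 h2

/-- two-sided bounds for `XX` to the right of the critical line -/
theorem XX_two {δ t : ℝ} (h0 : 0 ≤ δ) (h2 : δ ≤ 1 / 4) (h1 : 12 ≤ t) :
    Real.exp (δ * Real.log (t / (2 * Real.pi)) - 14 / t * δ) ≤
        ‖XX (((1 / 2 + δ : ℝ) : ℂ) + (t : ℂ) * Complex.I)‖ ∧
      ‖XX (((1 / 2 + δ : ℝ) : ℂ) + (t : ℂ) * Complex.I)‖ ≤
        Real.exp (δ * Real.log (t / (2 * Real.pi)) + 14 / t * δ) := by
  have ht0 : 0 < t := by linarith
  have hπ := Real.pi_pos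
  set w : ℝ := t / (2 * Real.pi) with hw
  have hw0 : 0 < w := by positivity
  let P : ℝ → ℂ := fun x => (x : ℂ) + (t : ℂ) * Complex.I
  have hPre : ∀ x, (P x).re = x := by intro x; simp [P]
  have hPim : ∀ x, (P x).im = t := by intro x; simp [P]
  let F : ℝ → ℂ := fun x => XX (P x) * Complex.exp (-(((x - 1 / 2) * Real.log w : ℝ) : ℂ))
  have hFd : ∀ x ∈ Icc (1 / 2 : ℝ) 4, HasDerivAt F (F x * (L2 (P x) - (Real.log w : ℂ))) x := by
    intro x hx
    have d1 := hasDerivAt_XX (s := P x) (by rw [hPre]; linarith [hx.1]) (by rw [hPim]; linarith)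
    have d2 : HasDerivAt P 1 x := by
      have := (hasDerivAt_id x).ofReal_comp.add_const ((t : ℂ) * Complex.I)
      simpa [P] using this
    have d3 := d1.comp x d2
    have d4 : HasDerivAt (fun x : ℝ => -(((x - 1 / 2) * Real.log w : ℝ) : ℂ)) (-(Real.log w : ℂ)) x := by
      have h6 : HasDerivAt (fun x : ℝ => (((x - 1 / 2) * Real.log w : ℝ) : ℂ)) (Real.log w : ℂ) x := by
        have := (((hasDerivAt_id x).sub_const (1 / 2)).mul_const (Real.log w)).ofReal_comp
        simpa using this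
      exact h6.neg
    have d5 := d3.mul d4.cexp
    refine HasDerivAt.congr_deriv d5 ?_
    simp only [F, Function.comp]
    ring
  have hLx : ∀ x ∈ Icc (1 / 2 : ℝ) 4, ‖L2 (P x) - (Real.log w : ℂ)‖ ≤ 14 / t := by
    intro x hx
    have := L2_close (s := P x) (by rw [hPre]; linarith [hx.1]) (by rw [hPre]; exact hx.2)
      (by rw [hPim]; exact h1)
    rwa [hPim] at this
  have hF0 : ‖F (1 / 2)‖ = 1 := by
    have e1 : P (1 / 2) = 1 / 2 + (t : ℂ) * Complex.I := by simp [P]
    simp only [F]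
    rw [e1, norm_mul, norm_XX_half]
    simp
  have hne : ∀ x ∈ Icc (1 / 2 : ℝ) 4, F x ≠ 0 := by
    intro x hx
    refine mul_ne_zero (XX_ne ?_ ?_) (Complex.exp_ne_zero _)
    · rw [hPre]; linarith [hx.1]
    · rw [hPim]; linarith
  have hmem : 1 / 2 + δ ∈ Icc (1 / 2 : ℝ) 4 := ⟨by linarith, by linarith⟩
  have key := gron_two hFd hne hLx hF0 hmem
  have hFs : ‖F (1 / 2 + δ)‖ = ‖XX (((1 / 2 + δ : ℝ) : ℂ) + (t : ℂ) * Complex.I)‖ *
      Real.exp (-(δ * Real.log w)) := by
    simp only [F]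
    rw [norm_mul, Complex.norm_exp]
    have e2 : (-(((1 / 2 + δ - 1 / 2) * Real.log w : ℝ) : ℂ)).re = -(δ * Real.log w) := by
      rw [Complex.neg_re, Complex.ofReal_re]
      ring
    rw [e2]
  rw [hFs, show 1 / 2 + δ - 1 / 2 = δ by ring] at key
  set N := ‖XX (((1 / 2 + δ : ℝ) : ℂ) + (t : ℂ) * Complex.I)‖ with hN
  have e3 : N = N * Real.exp (-(δ * Real.log w)) * Real.exp (δ * Real.log w) := by
    rw [mul_assoc, ← Real.exp_add, neg_add_cancel, Real.exp_zero, mul_one]
  constructor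
  · rw [e3]
    calc Real.exp (δ * Real.log w - 14 / t * δ)
        = Real.exp (-(14 / t * δ)) * Real.exp (δ * Real.log w) := by
          rw [← Real.exp_add]; congr 1; ring
      _ ≤ _ := mul_le_mul_of_nonneg_right key.1 (Real.exp_pos _).le
  · rw [e3]
    calc N * Real.exp (-(δ * Real.log w)) * Real.exp (δ * Real.log w)
        ≤ Real.exp (14 / t * δ) * Real.exp (δ * Real.log w) :=
          mul_le_mul_of_nonneg_right key.2 (Real.exp_pos _).le
      _ = _ := by rw [← Real.exp_add]; congr 1; ring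

/-- the functional equation between symmetric lines -/
theorem zeta_sym (δ : ℝ) {y : ℝ} (h1 : 12 ≤ y) :
    ‖riemannZeta (((1 / 2 - δ : ℝ) : ℂ) + y * Complex.I)‖ =
      ‖XX (((1 / 2 + δ : ℝ) : ℂ) + (y : ℂ) * Complex.I)‖ *
        ‖riemannZeta (((1 / 2 + δ : ℝ) : ℂ) + y * Complex.I)‖ := by
  set s : ℂ := ((1 / 2 + δ : ℝ) : ℂ) + y * Complex.I with hs
  have him : s.im = y := by rw [hs]; simp
  have hc : (starRingEnd ℂ) s = ((1 / 2 + δ : ℝ) : ℂ) - y * Complex.I := by
    rw [hs, map_add, map_mul, Complex.conj_ofReal, Complex.conj_ofReal, Complex.conj_I]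
    ring
  have e1 : ((1 / 2 - δ : ℝ) : ℂ) + y * Complex.I = 1 - (starRingEnd ℂ) s := by
    rw [hc]; push_cast; ring
  have h3 := zeta_fe ((starRingEnd ℂ) s) (by
    intro m hm
    have := congrArg Complex.im hm
    rw [Complex.conj_im, him] at this
    simp at this
    linarith) (by
    intro hm
    have := congrArg Complex.im hm
    rw [Complex.conj_im, him] at this
    simp at this
    linarith)
  rw [e1, h3, XX_conj, riemannZeta_conj, ← map_mul, Complex.norm_conj, norm_mul]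

/-- The factor of the functional equation at distance `a / log T` from the critical line. -/
theorem XX_scaled {a : ℝ} (ha : 0 ≤ a) {ε : ℝ} (hε : 0 < ε) :
    ∀ᶠ T : ℝ in atTop, ∀ y : ℝ, |y - T| ≤ T / 2 →
      |‖XX (((1 / 2 + a / Real.log T : ℝ) : ℂ) + (y : ℂ) * Complex.I)‖ * Real.exp (-a) - 1| ≤ ε := by
  have hcont : Tendsto (fun x : ℝ => Real.exp x) (𝓝 0) (𝓝 1) := by
    have := Real.continuous_exp.tendsto 0
    rwa [Real.exp_zero] at this
  obtain ⟨d, hd, hd'⟩ := Metric.tendsto_nhds_nhds.mp hcont ε hε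
  have hL : Tendsto (fun T : ℝ => a * 4 / Real.log T) atTop (𝓝 0) :=
    Real.tendsto_log_atTop.const_div_atTop _
  have hL1 : Tendsto (fun T : ℝ => a / Real.log T) atTop (𝓝 0) :=
    Real.tendsto_log_atTop.const_div_atTop _
  filter_upwards [hL.eventually (gt_mem_nhds hd), hL1.eventually (gt_mem_nhds (show (0 : ℝ) < 1 / 4 by
    norm_num)), eventually_ge_atTop 28] with T h1 h2 h3 y hy
  have hT0 : 0 < T := by linarith
  have hlog : 1 ≤ Real.log T := by
    have h1 : Real.exp 1 ≤ T := by linarith [Real.exp_one_lt_d9]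
    have h2 := Real.log_le_log (Real.exp_pos 1) h1
    rwa [Real.log_exp] at h2
  rw [abs_le] at hy
  have hy1 : T / 2 ≤ y := by linarith [hy.1]
  have hy2 : y ≤ 3 / 2 * T := by linarith [hy.2]
  have hy0 : 0 < y := by linarith
  have hδ0 : 0 ≤ a / Real.log T := by positivity
  have key := XX_two hδ0 h2.le (by linarith : 12 ≤ y)
  set L := Real.log T with hLdef
  set N := ‖XX (((1 / 2 + a / L : ℝ) : ℂ) + (y : ℂ) * Complex.I)‖ with hN
  have hπ := Real.pi_pos
  have hπ4 := Real.pi_le_four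
  have hπ3 := Real.pi_gt_three
  -- comparison of logarithms
  have b1 : |Real.log (y / (2 * Real.pi)) - L| ≤ 3 := by
    have c1 : Real.log (y / (2 * Real.pi)) - L = Real.log (y / (2 * Real.pi) / T) := by
      rw [hLdef, ← Real.log_div (by positivity) hT0.ne']
    rw [c1, abs_le]
    constructor
    · rw [← Real.log_exp (-3)]
      apply Real.log_le_log (Real.exp_pos _)
      rw [le_div_iff₀ hT0, le_div_iff₀ (by positivity)]
      have c2 : Real.exp (-3) ≤ 1 / 16 := by
        rw [Real.exp_neg, ← one_div]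
        apply one_div_le_one_div_of_le (by norm_num)
        have c3 : (2.7 : ℝ) ≤ Real.exp 1 := by linarith [Real.exp_one_gt_d9]
        have c4 : Real.exp 3 = Real.exp 1 ^ 3 := by rw [← Real.exp_nat_mul]; norm_num
        rw [c4]
        calc (16 : ℝ) ≤ 2.7 ^ 3 := by norm_num
          _ ≤ _ := pow_le_pow_left₀ (by norm_num) c3 3
      calc Real.exp (-3) * T * (2 * Real.pi) ≤ 1 / 16 * T * (2 * 4) := by gcongr
        _ ≤ y := by linarith
    · have c5 : y / (2 * Real.pi) / T ≤ 1 := by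
        rw [div_le_one hT0, div_le_iff₀ (by positivity)]
        nlinarith
      have c6 := Real.log_nonpos (by positivity) c5
      linarith
  have b2 : 14 / y ≤ 1 := by
    rw [div_le_one hy0]
    linarith
  have b3 : 0 < 14 / y := by positivity
  rw [abs_le] at b1
  -- the exponent
  have hlogN : ∃ ρ : ℝ, |ρ| ≤ a * 4 / L ∧ N * Real.exp (-a) = Real.exp ρ := by
    have hN0 : 0 < N := lt_of_lt_of_le (Real.exp_pos _) key.1
    refine ⟨Real.log N - a, ?_, ?_⟩
    · have k1 := (Real.le_log_iff_exp_le hN0).mpr key.1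
      have k2 := (Real.log_le_iff_le_exp hN0).mpr key.2
      have e1 : a / L * L = a := by field_simp
      have e2 : a * 4 / L = a / L * 4 := by ring
      rw [e2, abs_le]
      constructor
      · nlinarith [mul_nonneg hδ0 (by linarith : 0 ≤ Real.log (y / (2 * Real.pi)) - L + 3),
          mul_nonneg hδ0 (by linarith : 0 ≤ 1 - 14 / y)]
      · nlinarith [mul_nonneg hδ0 (by linarith : 0 ≤ 3 - (Real.log (y / (2 * Real.pi)) - L)),
          mul_nonneg hδ0 (by linarith : 0 ≤ 1 - 14 / y)]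
    · rw [sub_eq_add_neg, Real.exp_add, Real.exp_log hN0]
  obtain ⟨ρ, hρ1, hρ2⟩ := hlogN
  rw [hρ2]
  have := hd' (x := ρ) (by
    rw [dist_zero_right, Real.norm_eq_abs]
    exact lt_of_le_of_lt hρ1 h1)
  rw [Real.dist_eq] at this
  exact this.le

end

end Q97.MM
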