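import Pool.Agent.Q97.MM.Lim

set_option autoImplicit false
set_option linter.unusedSectionVars false

/-!
# Uniqueness from the values on a set that is not too sparse
-/

namespace Q97.MM

open MeasureTheory Filter Topology Set ProbabilityTheory Complex

/-- Division by a half-plane Blaschke factor. -/
theorem blaschke_step {h : ℂ → ℂ} (hh : Differentiable ℂ h) {M : ℝ}
    (hM : ∀ w : ℂ, 0 ≤ w.re → ‖h w‖ ≤ M) {b : ℝ} (hb : 0 < b) (hz : h b = 0) :
    ∃ h1 : ℂ → ℂ, Differentiable ℂ h1 ∧ (∀ w : ℂ, 0 ≤ w.re → ‖h1 w‖ ≤ M) ∧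
      ∀ w, h w * (w + b) = (w - b) * h1 w := by
  have hM0 : 0 ≤ M := (norm_nonneg _).trans (hM 0 (by simp))
  have hds : Differentiable ℂ (dslope h (b : ℂ)) := by
    rw [← differentiableOn_univ]
    exact (differentiableOn_dslope univ_mem).mpr hh.differentiableOn
  let h1 : ℂ → ℂ := fun w => dslope h b w * (w + b)
  have hd1 : Differentiable ℂ h1 := hds.mul (differentiable_id.add_const _)
  have hfac : ∀ w, h w * (w + b) = (w - b) * h1 w := by
    intro w
    have h2 : (w - b) * dslope h b w = h w := by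
      have h3 := sub_smul_dslope h (b : ℂ) w
      rw [hz, sub_zero, smul_eq_mul] at h3
      exact h3
    change h w * (w + b) = (w - b) * (dslope h b w * (w + b))
    rw [← mul_assoc, h2]
  refine ⟨h1, hd1, ?_, hfac⟩
  -- a bound in the closed half-plane
  obtain ⟨K, hK⟩ := (isCompact_closedBall (b : ℂ) 1).exists_bound_of_continuousOn
    hd1.continuous.continuousOn
  have hbd : ∀ w : ℂ, 0 ≤ w.re → ‖h1 w‖ ≤ max K (M * (1 + 2 * b)) := by
    intro w hw
    by_cases hwb : w ∈ Metric.closedBall (b : ℂ) 1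
    · exact (hK w hwb).trans (le_max_left _ _)
    · refine le_trans ?_ (le_max_right _ _)
      rw [Metric.mem_closedBall, not_le, dist_eq_norm] at hwb
      have h2 : ‖h w‖ * ‖w + b‖ = ‖w - b‖ * ‖h1 w‖ := by
        rw [← norm_mul, ← norm_mul, hfac]
      have h3 : ‖w + b‖ ≤ ‖w - b‖ + 2 * b := by
        have h4 : w + b = (w - b) + ((2 * b : ℝ) : ℂ) := by push_cast; ring
        rw [h4]
        refine (norm_add_le _ _).trans ?_
        rw [Complex.norm_real, Real.norm_eq_abs, abs_of_pos (by positivity)]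
      have h5 := hM w hw
      have h6 : 0 < ‖w - b‖ := by linarith
      have h7 : ‖w - b‖ * ‖h1 w‖ ≤ ‖w - b‖ * (M * (1 + 2 * b)) := by
        rw [← h2]
        calc ‖h w‖ * ‖w + b‖ ≤ M * (‖w - b‖ + 2 * b) :=
              mul_le_mul h5 h3 (norm_nonneg _) hM0
          _ ≤ ‖w - b‖ * (M * (1 + 2 * b)) := by
              have h8 : 0 ≤ M * (2 * b) := by positivity
              nlinarith
      exact le_of_mul_le_mul_left h7 h6
  intro w hw
  refine PhragmenLindelof.right_half_plane_of_bounded_on_real (f := h1)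
    hd1.diffContOnCl ⟨1, by norm_num, 0, ?_⟩ ?_ ?_ hw
  · apply Asymptotics.IsBigO.of_bound (max K (M * (1 + 2 * b)))
    rw [eventually_inf_principal]
    filter_upwards with z hz
    simp only [zero_mul, Real.exp_zero, norm_one, mul_one]
    exact hbd z (le_of_lt hz)
  · refine isBoundedUnder_of_eventually_le (a := max K (M * (1 + 2 * b))) ?_
    filter_upwards [eventually_ge_atTop 0] with x hx
    exact hbd x (by simpa using hx)
  · intro x
    have h2 : ‖h (x * I)‖ * ‖(x * I : ℂ) + b‖ = ‖(x * I : ℂ) - b‖ * ‖h1 (x * I)‖ := by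
      rw [← norm_mul, ← norm_mul, hfac]
    have h3 : ‖(x * I : ℂ) + b‖ = ‖(x * I : ℂ) - b‖ := by
      rw [Complex.norm_def, Complex.norm_def]
      congr 1
      simp [Complex.normSq_apply]
    have h4 : 0 < ‖(x * I : ℂ) - b‖ := by
      rw [norm_pos_iff]
      intro h5
      have h6 := congrArg Complex.re h5
      simp at h6
      linarith
    rw [h3, mul_comm] at h2
    have h5 := mul_left_cancel₀ h4.ne' h2
    rw [← h5]
    exact hM _ (by simp)

/-- Bound by a finite product of Blaschke factors. -/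
theorem blaschke_bound (F : Finset ℝ) (hF : ∀ b ∈ F, 0 < b) : ∀ {h : ℂ → ℂ},
    Differentiable ℂ h → ∀ {M : ℝ}, (∀ w : ℂ, 0 ≤ w.re → ‖h w‖ ≤ M) → (∀ b ∈ F, h (b : ℂ) = 0) →
    ∀ x : ℝ, 0 < x → ‖h x‖ ≤ M * ∏ b ∈ F, (|x - b| / (x + b)) := by
  classical
  induction F using Finset.induction_on with
  | empty =>
    intro h _ M hM _ x hx
    rw [Finset.prod_empty, mul_one]
    exact hM x (by simpa using hx.le)
  | insert b F hbF ih =>
    intro h hh M hM hz x hx
    have hb : 0 < b := hF b (Finset.mem_insert_self _ _)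
    obtain ⟨h1, hd1, hM1, hfac⟩ := blaschke_step hh hM hb (hz b (Finset.mem_insert_self _ _))
    have hz1 : ∀ c ∈ F, h1 (c : ℂ) = 0 := by
      intro c hc
      have h2 := hfac c
      rw [hz c (Finset.mem_insert_of_mem hc), zero_mul] at h2
      have h3 : (c : ℂ) - b ≠ 0 := by
        intro h4
        apply hbF
        have h5 : (c : ℂ) = b := sub_eq_zero.mp h4
        rw [← Complex.ofReal_injective h5]
        exact hc
      exact (mul_eq_zero.mp h2.symm).resolve_left h3
    have h4 := ih (fun c hc => hF c (Finset.mem_insert_of_mem hc)) hd1 hM1 hz1 x hx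
    rw [Finset.prod_insert hbF]
    have h5 : ‖h x‖ * (x + b) = |x - b| * ‖h1 x‖ := by
      have h6 := congrArg norm (hfac x)
      rw [norm_mul, norm_mul] at h6
      have e1 : ‖(x : ℂ) + b‖ = x + b := by
        rw [← Complex.ofReal_add, Complex.norm_real, Real.norm_eq_abs, abs_of_pos (by linarith)]
      have e2 : ‖(x : ℂ) - b‖ = |x - b| := by
        rw [← Complex.ofReal_sub, Complex.norm_real, Real.norm_eq_abs]
      rw [e1, e2] at h6
      exact h6
    have hxb : 0 < x + b := by linarith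
    have h7 : ‖h x‖ = |x - b| / (x + b) * ‖h1 x‖ := by
      field_simp
      rw [h5]
    rw [h7]
    calc |x - b| / (x + b) * ‖h1 x‖ ≤ |x - b| / (x + b) *
          (M * ∏ b ∈ F, (|x - b| / (x + b))) := mul_le_mul_of_nonneg_left h4 (by positivity)
      _ = _ := by ring

/-- One factor. -/
theorem factor_le {x b : ℝ} (hx : 0 < x) (hb : 1 ≤ b) :
    |x - b| / (x + b) ≤ Real.exp (-(2 * min x 1 / (1 + x)) * (1 / (1 + b))) := by
  have hxb : 0 < x + b := by linarith
  have h1 : |x - b| / (x + b) ≤ 1 - 2 * min x 1 / (1 + x) * (1 / (1 + b)) := by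
    rw [div_le_iff₀ hxb]
    have h2 : 2 * min x 1 / (1 + x) * (1 / (1 + b)) * (x + b) ≤ 2 * min x 1 := by
      have h3 : 2 * min x 1 / (1 + x) * (1 / (1 + b)) * (x + b) =
          2 * min x 1 * ((x + b) / ((1 + x) * (1 + b))) := by
        field_simp
      rw [h3]
      have h4 : (x + b) / ((1 + x) * (1 + b)) ≤ 1 := by
        rw [div_le_one (by positivity)]
        nlinarith
      have h5 : 0 ≤ 2 * min x 1 := by
        have := le_min hx.le zero_le_one
        linarith
      exact mul_le_of_le_one_right h5 h4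
    have h6 : |x - b| ≤ x + b - 2 * min x 1 := by
      rcases le_total x b with h | h
      · rw [abs_of_nonpos (by linarith)]
        have := min_le_left x 1
        linarith
      · rw [abs_of_nonneg (by linarith)]
        have := min_le_right x 1
        linarith
    linarith
  refine h1.trans ?_
  have h2 := Real.add_one_le_exp (-(2 * min x 1 / (1 + x)) * (1 / (1 + b)))
  linarith

/-- Finite sets with large sums. -/
theorem exists_finset {S : Set ℝ} (hS : ¬ Summable (fun a : S => 1 / (1 + |(a : ℝ)|))) (K : ℝ) :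
    ∃ F : Finset ℝ, (∀ b ∈ F, 1 ≤ b ∧ ∃ a ∈ S, b = |a| + 1) ∧ K ≤ ∑ b ∈ F, 1 / (1 + b) := by
  classical
  have h1 : ∃ s : Finset S, 4 * K < ∑ a ∈ s, 1 / (1 + |(a : ℝ)|) := by
    by_contra hcon
    push Not at hcon
    exact hS (summable_of_sum_le (fun a => by positivity) hcon)
  obtain ⟨s, hs⟩ := h1
  let s' : Finset ℝ := s.map ⟨Subtype.val, Subtype.val_injective⟩
  have hs' : 4 * K < ∑ a ∈ s', 1 / (1 + |a|) := by
    rw [Finset.sum_map]
    exact hs
  have hs'S : ∀ a ∈ s', a ∈ S := by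
    intro a ha
    obtain ⟨b, _, rfl⟩ := Finset.mem_map.mp ha
    exact b.2
  -- a part on which the absolute value is injective
  have h2 : ∃ t ⊆ s', (∀ a ∈ t, ∀ b ∈ t, |a| = |b| → a = b) ∧ 2 * K ≤ ∑ a ∈ t, 1 / (1 + |a|) := by
    have h3 := Finset.sum_filter_add_sum_filter_not s' (fun a => 0 ≤ a) (fun a => 1 / (1 + |a|))
    rcases le_total (2 * K) (∑ a ∈ s' with 0 ≤ a, 1 / (1 + |a|)) with h | h
    · refine ⟨_, Finset.filter_subset _ _, ?_, h⟩
      intro a ha b hb hab
      rw [abs_of_nonneg (Finset.mem_filter.mp ha).2, abs_of_nonneg (Finset.mem_filter.mp hb).2]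
        at hab
      exact hab
    · refine ⟨_, Finset.filter_subset (fun a => ¬ 0 ≤ a) _, ?_, by linarith⟩
      intro a ha b hb hab
      rw [abs_of_neg (not_le.mp (Finset.mem_filter.mp ha).2),
        abs_of_neg (not_le.mp (Finset.mem_filter.mp hb).2)] at hab
      linarith
  obtain ⟨t, hts, hinj, ht⟩ := h2
  refine ⟨t.image (fun a => |a| + 1), ?_, ?_⟩
  · intro b hb
    obtain ⟨a, ha, rfl⟩ := Finset.mem_image.mp hb
    exact ⟨by linarith [abs_nonneg a], a, hs'S a (hts ha), rfl⟩
  · rw [Finset.sum_image (fun a ha b hb hab => hinj a ha b hb (by linarith))]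
    have h4 : ∀ a ∈ t, 1 / (1 + |a|) / 2 ≤ 1 / (1 + (|a| + 1)) := by
      intro a _
      rw [div_div, div_le_div_iff₀ (by positivity) (by positivity)]
      nlinarith [abs_nonneg a]
    have h5 := Finset.sum_le_sum h4
    rw [← Finset.sum_div] at h5
    linarith

/-- A bounded entire function on the right half-plane with a non-sparse set of zeros vanishes. -/
theorem vanish {h : ℂ → ℂ} (hh : Differentiable ℂ h) {M : ℝ}
    (hM : ∀ w : ℂ, 0 ≤ w.re → ‖h w‖ ≤ M) {S : Set ℝ}
    (hS : ¬ Summable (fun a : S => 1 / (1 + |(a : ℝ)|))) (hz : ∀ a ∈ S, h ((|a| + 1 : ℝ) : ℂ) = 0)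
    (x : ℝ) (hx : 0 < x) : h x = 0 := by
  have hM0 : 0 ≤ M := (norm_nonneg _).trans (hM 0 (by simp))
  set c := 2 * min x 1 / (1 + x) with hc
  have hc0 : 0 < c := by
    have : 0 < min x 1 := lt_min hx one_pos
    positivity
  have hb : ∀ K : ℝ, ‖h x‖ ≤ M * Real.exp (-(c * K)) := by
    intro K
    obtain ⟨F, hF1, hF2⟩ := exists_finset hS K
    have h1 := blaschke_bound F (fun b hb => by linarith [(hF1 b hb).1]) hh hM (fun b hb => by
      obtain ⟨a, ha, rfl⟩ := (hF1 b hb).2
      exact hz a ha) x hx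
    refine h1.trans (mul_le_mul_of_nonneg_left ?_ hM0)
    calc ∏ b ∈ F, (|x - b| / (x + b)) ≤ ∏ b ∈ F, Real.exp (-c * (1 / (1 + b))) := by
          apply Finset.prod_le_prod
          · intro b hb
            have := (hF1 b hb).1
            positivity
          · intro b hb
            exact factor_le hx (hF1 b hb).1
      _ = Real.exp (∑ b ∈ F, -c * (1 / (1 + b))) := (Real.exp_sum _ _).symm
      _ ≤ Real.exp (-(c * K)) := by
          apply Real.exp_le_exp.mpr
          rw [← Finset.mul_sum]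
          nlinarith
  have hlim : Tendsto (fun K : ℝ => M * Real.exp (-(c * K))) atTop (𝓝 0) := by
    have h1 : Tendsto (fun K : ℝ => Real.exp (-(c * K))) atTop (𝓝 0) :=
      Real.tendsto_exp_neg_atTop_nhds_zero.comp (tendsto_id.const_mul_atTop hc0)
    have h2 := h1.const_mul M
    rwa [mul_zero] at h2
  have h3 := ge_of_tendsto' hlim hb
  exact norm_le_zero_iff.mp h3

end Q97.MM

namespace Q97.MM

open MeasureTheory Filter Topology Set ProbabilityTheory Complex

section

variable {ν μ : Measure ℝ} [IsProbabilityMeasure ν] [IsProbabilityMeasure μ] {κ : ℝ}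

theorem differentiable_cmgf (hint : ∀ a : ℝ, Integrable (fun u => Real.exp (-(a * u))) ν) :
    Differentiable ℂ (complexMGF id ν) := by
  have h1 := differentiableOn_complexMGF (X := (id : ℝ → ℝ)) (μ := ν)
  rw [integrableExpSet_univ hint, interior_univ] at h1
  rw [← differentiableOn_univ]
  exact h1.mono fun z _ => mem_univ _

theorem cmgf_real (a : ℝ) : complexMGF id ν ((-a : ℝ) : ℂ) =
    ((∫ u, Real.exp (-(a * u)) ∂ν : ℝ) : ℂ) := by
  rw [complexMGF_ofReal, mgf_eq, neg_neg]

theorem cmgf_bound (hκ : 0 ≤ κ) (hint : ∀ a : ℝ, Integrable (fun u => Real.exp (-(a * u))) ν)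
    (hsupp : ν (Icc 0 κ)ᶜ = 0) {z : ℂ} (hz : z.re ≤ 1) :
    ‖complexMGF id ν z‖ ≤ Real.exp κ := by
  refine norm_complexMGF_le_mgf.trans ?_
  rw [mgf_eq]
  have hae : ∀ᵐ u ∂ν, u ∈ Icc 0 κ := by
    rw [ae_iff]
    exact hsupp
  have h1 : ∫ u, Real.exp (-(-z.re * u)) ∂ν ≤ ∫ _u, Real.exp κ ∂ν := by
    apply integral_mono_ae (hint _) (integrable_const _)
    filter_upwards [hae] with u hu
    apply Real.exp_le_exp.mpr
    rw [neg_mul, neg_neg]
    have h2 : z.re * u ≤ 1 * u := mul_le_mul_of_nonneg_right hz hu.1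
    linarith [hu.2]
  rw [integral_const, probReal_univ, one_smul] at h1
  exact h1

/-- Uniqueness of symmetric measures on `[0, κ]` from proportional values of the Laplace
transforms on a set that is not too sparse. -/
theorem uniq_lt (hκ : 0 ≤ κ)
    (hi1 : ∀ a : ℝ, Integrable (fun u => Real.exp (-(a * u))) ν)
    (hi2 : ∀ a : ℝ, Integrable (fun u => Real.exp (-(a * u))) μ)
    (hs1 : ν (Icc 0 κ)ᶜ = 0) (hs2 : μ (Icc 0 κ)ᶜ = 0)
    (hf1 : ∀ a : ℝ, ∫ u, Real.exp (-((-a) * u)) ∂ν =
      Real.exp (κ * a) * ∫ u, Real.exp (-(a * u)) ∂ν)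
    (hf2 : ∀ a : ℝ, ∫ u, Real.exp (-((-a) * u)) ∂μ =
      Real.exp (κ * a) * ∫ u, Real.exp (-(a * u)) ∂μ)
    {S : Set ℝ} (hS : ¬ Summable (fun a : S => 1 / (1 + |(a : ℝ)|))) (c d : ℝ)
    (heq : ∀ a ∈ S, c * ∫ u, Real.exp (-(a * u)) ∂ν = d * ∫ u, Real.exp (-(a * u)) ∂μ) (a : ℝ) :
    c * ∫ u, Real.exp (-(a * u)) ∂ν = d * ∫ u, Real.exp (-(a * u)) ∂μ := by
  -- the value at `|a|`
  have habs : ∀ a ∈ S, c * ∫ u, Real.exp (-(|a| * u)) ∂ν = d * ∫ u, Real.exp (-(|a| * u)) ∂μ := by
    intro a ha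
    rcases abs_choice a with h | h
    · rw [h]; exact heq a ha
    · rw [h, hf1 a, hf2 a]
      have := heq a ha
      linear_combination Real.exp (κ * a) * this
  let h : ℂ → ℂ := fun w => (c : ℂ) * complexMGF id ν (1 - w) - d * complexMGF id μ (1 - w)
  have hh : Differentiable ℂ h := by
    have h1 : Differentiable ℂ (fun w : ℂ => 1 - w) := by fun_prop
    exact (((differentiable_cmgf hi1).comp h1).const_mul _).sub
      (((differentiable_cmgf hi2).comp h1).const_mul _)
  have hM : ∀ w : ℂ, 0 ≤ w.re → ‖h w‖ ≤ |c| * Real.exp κ + |d| * Real.exp κ := by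
    intro w hw
    have hre : (1 - w).re ≤ 1 := by
      rw [Complex.sub_re, Complex.one_re]; linarith
    refine (norm_sub_le _ _).trans ?_
    rw [norm_mul, norm_mul, Complex.norm_real, Complex.norm_real, Real.norm_eq_abs,
      Real.norm_eq_abs]
    exact add_le_add (mul_le_mul_of_nonneg_left (cmgf_bound hκ hi1 hs1 hre) (abs_nonneg _))
      (mul_le_mul_of_nonneg_left (cmgf_bound hκ hi2 hs2 hre) (abs_nonneg _))
  have hval : ∀ t : ℝ, h ((t + 1 : ℝ) : ℂ) =
      ((c * ∫ u, Real.exp (-(t * u)) ∂ν - d * ∫ u, Real.exp (-(t * u)) ∂μ : ℝ) : ℂ) := by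
    intro t
    have e1 : (1 : ℂ) - ((t + 1 : ℝ) : ℂ) = ((-t : ℝ) : ℂ) := by push_cast; ring
    change (c : ℂ) * complexMGF id ν (1 - ((t + 1 : ℝ) : ℂ)) -
      d * complexMGF id μ (1 - ((t + 1 : ℝ) : ℂ)) = _
    rw [e1, cmgf_real, cmgf_real]
    push_cast
    ring
  have hz : ∀ a ∈ S, h ((|a| + 1 : ℝ) : ℂ) = 0 := by
    intro a ha
    rw [hval, habs a ha, sub_self, Complex.ofReal_zero]
  have hv := vanish hh hM hS hz
  have hpos : ∀ t : ℝ, -1 < t →
      c * ∫ u, Real.exp (-(t * u)) ∂ν = d * ∫ u, Real.exp (-(t * u)) ∂μ := by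
    intro t ht
    have h1 := hv (t + 1) (by linarith)
    rw [hval, Complex.ofReal_eq_zero] at h1
    linarith
  rcases lt_or_ge (-1) a with ha | ha
  · exact hpos a ha
  · have h1 := hpos (-a) (by linarith)
    have h2 := hf1 (-a)
    have h3 := hf2 (-a)
    rw [neg_neg] at h2 h3
    rw [h2, h3]
    linear_combination Real.exp (κ * -a) * h1

end

end Q97.MM
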