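import Pool.Agent.Q97.MM.Seq
import Pool.Agent.Q97.MM.Lim
import Pool.Agent.Q97.MM.Uniq

set_option autoImplicit false

open MeasureTheory Filter Topology Complex Set

namespace Q97.MM

noncomputable section

variable (k : ℕ)

/-- the moment at distance `a / log T` -/
def Ja (T U a : ℝ) : ℝ := JJ k T U (1 / 2 + a / Real.log T)

theorem Jn_div {T U : ℝ} (h : Adm T U) (a b : ℝ) :
    Jn k T U a / Jn k T U b = Ja k T U a / Ja k T U b := by
  have hT : 0 < T := by linarith [h.1]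
  have hV := V0_pos k h
  have hTk : (T ^ (2 * k)) ≠ 0 := by positivity
  unfold Jn Ja
  rw [div_div_div_cancel_right₀ hV.ne', mul_div_mul_left _ _ hTk]

/-- All that happens along a subsequence. -/
theorem core {T U : ℕ → ℝ} (hT : Tendsto T atTop atTop)
    (hU : ∀ j, 1 ≤ U j ∧ U j ≤ T j / Real.log (T j)) :
    ∃ φ : ℕ → ℕ, StrictMono φ ∧ ∃ ν : Measure ℝ, IsProbabilityMeasure ν ∧
      (∀ a : ℝ, Integrable (fun u => Real.exp (-(a * u))) ν) ∧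
      ν (Icc 0 (2 * k : ℝ))ᶜ = 0 ∧ ν.map (fun u => 2 * (k : ℝ) - u) = ν ∧
      (∀ a : ℝ, ∫ u, Real.exp (-((-a) * u)) ∂ν =
        Real.exp (2 * k * a) * ∫ u, Real.exp (-(a * u)) ∂ν) ∧
      ∀ a : ℝ, Tendsto (fun j => Ja k (T (φ j)) (U (φ j)) a / Ja k (T (φ j)) (U (φ j)) 0) atTop
        (𝓝 (∫ u, Real.exp (-(a * u)) ∂ν)) := by
  obtain ⟨φ, hφ, ν, h1, h2, h3, h4⟩ := seq_limit k hT hU
  refine ⟨φ, hφ, ν, inferInstance, h1, supp_of_fe h1 h2 h3, symm_of_fe h1 h3, h3, fun a => ?_⟩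
  have hJ : ∀ a : ℝ, Tendsto (fun j => Jn k (T (φ j)) (U (φ j)) a) atTop
      (𝓝 (∫ u, Real.exp (-(a * u)) ∂(ν : Measure ℝ))) := by
    intro a
    have e1 := (h4 a).sub ((seq_GJ k hT hU a).comp hφ.tendsto_atTop)
    rw [sub_zero] at e1
    refine e1.congr fun j => ?_
    simp only [Function.comp]
    ring
  have h0 : ∫ u, Real.exp (-((0 : ℝ) * u)) ∂(ν : Measure ℝ) = 1 := by simp
  have e2 := (hJ a).div (hJ 0) (by rw [h0]; exact one_ne_zero)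
  rw [h0, div_one] at e2
  refine e2.congr' ?_
  filter_upwards [hφ.tendsto_atTop.eventually (seq_adm hT hU)] with j hj
  exact Jn_div k hj a 0

theorem lt_pos {ν : Measure ℝ} [IsProbabilityMeasure ν]
    (h1 : ∀ a : ℝ, Integrable (fun u => Real.exp (-(a * u))) ν)
    (h2 : ν (Icc 0 (2 * k : ℝ))ᶜ = 0) (h3 : ν.map (fun u => 2 * (k : ℝ) - u) = ν) (a : ℝ) :
    0 < ∫ u, Real.exp (-(a * u)) ∂ν :=
  lt_of_lt_of_le (Real.exp_pos _) (lt_bounds h1 h2 h3 a).1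

/-- The uniform bounds. -/
theorem bounds (a : ℝ) {ε : ℝ} (hε : 0 < ε) : ∃ T₀ : ℝ, ∀ T : ℝ, T₀ ≤ T → ∀ U : ℝ, 1 ≤ U →
    U ≤ T / Real.log T →
    Real.exp (-(k * a)) - ε ≤ Ja k T U a / Ja k T U 0 ∧
      Ja k T U a / Ja k T U 0 ≤ (1 + Real.exp (-(2 * k * a))) / 2 + ε := by
  by_contra hcon
  push Not at hcon
  have hcon' : ∀ n : ℕ, ∃ T : ℝ, (n : ℝ) ≤ T ∧ ∃ U : ℝ, 1 ≤ U ∧ U ≤ T / Real.log T ∧
      (Real.exp (-(k * a)) - ε ≤ Ja k T U a / Ja k T U 0 →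
        (1 + Real.exp (-(2 * k * a))) / 2 + ε < Ja k T U a / Ja k T U 0) := fun n => hcon n
  choose T hT U hU1 hU2 hbad using hcon'
  have hTt : Tendsto T atTop atTop := tendsto_atTop_mono hT tendsto_natCast_atTop_atTop
  obtain ⟨φ, hφ, ν, hν, h1, h2, h3, h4, h5⟩ := core k hTt (fun j => ⟨hU1 j, hU2 j⟩)
  have hb := lt_bounds h1 h2 h3 a
  have e1 : 2 * (k : ℝ) * a / 2 = k * a := by ring
  rw [e1] at hb
  have c1 := (h5 a).eventually (lt_mem_nhds (show Real.exp (-(k * a)) - ε <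
    ∫ u, Real.exp (-(a * u)) ∂ν by linarith [hb.1]))
  have c2 := (h5 a).eventually (gt_mem_nhds (show ∫ u, Real.exp (-(a * u)) ∂ν <
    (1 + Real.exp (-(2 * k * a))) / 2 + ε by linarith [hb.2]))
  obtain ⟨j, hj1, hj2⟩ := (c1.and c2).exists
  exact absurd (hbad (φ j) hj1.le) (not_lt.mpr hj2.le)

/-- Asymptotics on a large set of distances give asymptotics at all distances. -/
theorem transfer {S : Set ℝ} (hS : ¬ Summable (fun a : S => 1 / (1 + |(a : ℝ)|)))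
    {T U N : ℕ → ℝ} (hT : Tendsto T atTop atTop)
    (hU : ∀ j, 1 ≤ U j ∧ U j ≤ T j / Real.log (T j))
    (hlim : ∀ a ∈ S, ∃ l : ℝ, 0 < l ∧ Tendsto (fun j => Ja k (T j) (U j) a / N j) atTop (𝓝 l))
    (a : ℝ) : ∃ l : ℝ, 0 < l ∧ Tendsto (fun j => Ja k (T j) (U j) a / N j) atTop (𝓝 l) := by
  have hne : S.Nonempty := by
    by_contra h
    rw [Set.not_nonempty_iff_eq_empty] at h
    subst h
    exact hS summable_empty
  obtain ⟨a₀, ha₀⟩ := hne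
  choose! l hl0 hl using hlim
  -- the limit along a subsequence
  have sub : ∀ ns : ℕ → ℕ, Tendsto ns atTop atTop → ∃ φ : ℕ → ℕ, StrictMono φ ∧
      ∃ ν : Measure ℝ, IsProbabilityMeasure ν ∧
      (∀ a : ℝ, Integrable (fun u => Real.exp (-(a * u))) ν) ∧
      ν (Icc 0 (2 * k : ℝ))ᶜ = 0 ∧ ν.map (fun u => 2 * (k : ℝ) - u) = ν ∧
      (∀ a : ℝ, ∫ u, Real.exp (-((-a) * u)) ∂ν =
        Real.exp (2 * k * a) * ∫ u, Real.exp (-(a * u)) ∂ν) ∧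
      ∃ r : ℝ, 0 < r ∧ ∀ a : ℝ, Tendsto (fun j => Ja k (T (ns (φ j))) (U (ns (φ j))) a /
        N (ns (φ j))) atTop (𝓝 (r * ∫ u, Real.exp (-(a * u)) ∂ν)) := by
    intro ns hns
    obtain ⟨φ, hφ, ν, hν, h1, h2, h3, h4, h5⟩ := core k (T := fun j => T (ns j))
      (U := fun j => U (ns j)) (hT.comp hns) (fun j => hU (ns j))
    have hp0 := lt_pos k h1 h2 h3 a₀
    have hns' : Tendsto (fun j => ns (φ j)) atTop atTop := hns.comp hφ.tendsto_atTop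
    have q1 := (hl a₀ ha₀).comp hns'
    have q2 := q1.div (h5 a₀) hp0.ne'
    refine ⟨φ, hφ, ν, hν, h1, h2, h3, h4, l a₀ / ∫ u, Real.exp (-(a₀ * u)) ∂ν,
      div_pos (hl0 a₀ ha₀) hp0, fun b => ?_⟩
    have q3 := q2.mul (h5 b)
    refine q3.congr' ?_
    have hpos := (h5 a₀).eventually (lt_mem_nhds hp0)
    filter_upwards [hpos] with j hj
    have g1 : Ja k (T (ns (φ j))) (U (ns (φ j))) a₀ ≠ 0 := by
      intro h
      rw [h, zero_div] at hj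
      exact lt_irrefl _ hj
    have g2 : Ja k (T (ns (φ j))) (U (ns (φ j))) 0 ≠ 0 := by
      intro h
      rw [h, div_zero] at hj
      exact lt_irrefl _ hj
    change Ja k (T (ns (φ j))) (U (ns (φ j))) a₀ / N (ns (φ j)) /
      (Ja k (T (ns (φ j))) (U (ns (φ j))) a₀ / Ja k (T (ns (φ j))) (U (ns (φ j))) 0) *
      (Ja k (T (ns (φ j))) (U (ns (φ j))) b / Ja k (T (ns (φ j))) (U (ns (φ j))) 0) =
      Ja k (T (ns (φ j))) (U (ns (φ j))) b / N (ns (φ j))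
    field_simp
  obtain ⟨φ₀, hφ₀, ν₀, hν₀, h1, h2, h3, h4, r₀, hr₀, h5⟩ := sub id tendsto_id
  have hS0 : ∀ b ∈ S, r₀ * ∫ u, Real.exp (-(b * u)) ∂ν₀ = l b := by
    intro b hb
    exact tendsto_nhds_unique (h5 b) ((hl b hb).comp (tendsto_id.comp hφ₀.tendsto_atTop))
  refine ⟨r₀ * ∫ u, Real.exp (-(a * u)) ∂ν₀, mul_pos hr₀ (lt_pos k h1 h2 h3 a), ?_⟩
  apply tendsto_of_subseq_tendsto
  intro ns hns
  obtain ⟨φ, hφ, ν, hν, g1, g2, g3, g4, r, hr, g5⟩ := sub ns hns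
  refine ⟨φ, ?_⟩
  have hS1 : ∀ b ∈ S, r * ∫ u, Real.exp (-(b * u)) ∂ν = l b := by
    intro b hb
    exact tendsto_nhds_unique (g5 b) ((hl b hb).comp (hns.comp hφ.tendsto_atTop))
  have key := uniq_lt (κ := 2 * k) (by positivity) g1 h1 g2 h2 g4 h4 hS r r₀
    (fun b hb => by rw [hS1 b hb, hS0 b hb]) a
  rw [← key]
  exact g5 a

end

end Q97.MM
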