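import Mathlib

set_option autoImplicit false

open MeasureTheory Filter Topology Complex Set ComplexConjugate

namespace Q97.MM

noncomputable section

/-- A measure on `[0, 2k]` is determined by its Fourier coefficients of positive index with respect
to a longer period. -/
theorem per_uniq {ν μ : Measure ℝ} [IsProbabilityMeasure ν] [IsProbabilityMeasure μ] {k κ : ℝ}
    (hk : 0 ≤ k) (hκ : k < κ) (hν : ∀ᵐ u ∂ν, u ∈ Icc 0 (2 * k)) (hμ : ∀ᵐ u ∂μ, u ∈ Icc 0 (2 * k))
    {r s : ℝ}
    (h : ∀ m : ℕ, 1 ≤ m → (r : ℂ) * ∫ u, cexp (-((Real.pi * m * u / κ : ℝ) : ℂ) * I) ∂ν =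
      s * ∫ u, cexp (-((Real.pi * m * u / κ : ℝ) : ℂ) * I) ∂μ)
    {φ : ℝ → ℂ} (hφ : Continuous φ) : (r : ℂ) * ∫ u, φ u ∂ν = s * ∫ u, φ u ∂μ := by
  set P : ℝ := 2 * κ with hP
  have hP0 : 0 < P := by rw [hP]; linarith
  have hkP : 2 * k < P := by rw [hP]; linarith
  have : Fact (0 < P) := ⟨hP0⟩
  have hq : Measurable (fun u : ℝ => (u : AddCircle P)) := AddCircle.measurable_mk'
  have hint : ∀ (ρ : Measure ℝ) [IsProbabilityMeasure ρ] (f : C(AddCircle P, ℂ)),
      Integrable (fun u : ℝ => f (u : AddCircle P)) ρ := by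
    intro ρ _ f
    refine (integrable_const ‖f‖).mono' ?_ (Eventually.of_forall fun u => f.norm_coe_le_norm _)
    exact (f.continuous.measurable.comp hq).aestronglyMeasurable
  have hintH : ∀ f : C(AddCircle P, ℂ), Integrable (fun x => f x) (AddCircle.haarAddCircle (T := P)) := by
    intro f
    exact (integrable_const ‖f‖).mono' f.continuous.aestronglyMeasurable
      (Eventually.of_forall fun u => f.norm_coe_le_norm _)
  -- the functional
  let Λ : C(AddCircle P, ℂ) →ₗ[ℂ] ℂ :=
    { toFun := fun f => (r : ℂ) * (∫ u, f (u : AddCircle P) ∂ν) - s * (∫ u, f (u : AddCircle P) ∂μ) -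
        (r - s) * ∫ x, f x ∂(AddCircle.haarAddCircle (T := P))
      map_add' := by
        intro f g
        have e1 := integral_add (hint ν f) (hint ν g)
        have e2 := integral_add (hint μ f) (hint μ g)
        have e3 := integral_add (hintH f) (hintH g)
        simp only [ContinuousMap.add_apply]
        rw [e1, e2, e3]
        ring
      map_smul' := by
        intro c f
        simp only [ContinuousMap.smul_apply, smul_eq_mul, RingHom.id_apply]
        rw [integral_const_mul, integral_const_mul, integral_const_mul]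
        ring }
  have hΛ : ∀ f : C(AddCircle P, ℂ), Λ f = (r : ℂ) * (∫ u, f (u : AddCircle P) ∂ν) -
      s * (∫ u, f (u : AddCircle P) ∂μ) -
        (r - s) * ∫ x, f x ∂(AddCircle.haarAddCircle (T := P)) := fun f => rfl
  have hbd : ∀ f : C(AddCircle P, ℂ), ‖Λ f‖ ≤ (|r| + |s| + |r - s|) * ‖f‖ := by
    intro f
    rw [hΛ]
    have b1 : ‖∫ u, f (u : AddCircle P) ∂ν‖ ≤ ‖f‖ := by
      have := norm_integral_le_of_norm_le_const (μ := ν) (f := fun u : ℝ => f (u : AddCircle P))
        (Eventually.of_forall fun u => f.norm_coe_le_norm _)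
      simpa using this
    have b2 : ‖∫ u, f (u : AddCircle P) ∂μ‖ ≤ ‖f‖ := by
      have := norm_integral_le_of_norm_le_const (μ := μ) (f := fun u : ℝ => f (u : AddCircle P))
        (Eventually.of_forall fun u => f.norm_coe_le_norm _)
      simpa using this
    have b3 : ‖∫ x, f x ∂(AddCircle.haarAddCircle (T := P))‖ ≤ ‖f‖ := by
      have := norm_integral_le_of_norm_le_const (μ := AddCircle.haarAddCircle (T := P))
        (f := fun x => f x) (Eventually.of_forall fun u => f.norm_coe_le_norm _)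
      simpa using this
    have n1 : ‖(r : ℂ)‖ = |r| := by rw [Complex.norm_real, Real.norm_eq_abs]
    have n2 : ‖(s : ℂ)‖ = |s| := by rw [Complex.norm_real, Real.norm_eq_abs]
    have n3 : ‖((r : ℂ) - s)‖ = |r - s| := by
      rw [← Complex.ofReal_sub, Complex.norm_real, Real.norm_eq_abs]
    calc _ ≤ ‖(r : ℂ) * (∫ u, f (u : AddCircle P) ∂ν)‖ + ‖(s : ℂ) * (∫ u, f (u : AddCircle P) ∂μ)‖ +
          ‖((r : ℂ) - s) * ∫ x, f x ∂(AddCircle.haarAddCircle (T := P))‖ :=
          (norm_sub_le _ _).trans (add_le_add (norm_sub_le _ _) le_rfl)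
      _ ≤ |r| * ‖f‖ + |s| * ‖f‖ + |r - s| * ‖f‖ := by
          rw [norm_mul, norm_mul, norm_mul, n1, n2, n3]
          gcongr
      _ = _ := by ring
  -- the functional vanishes on exponentials
  have hpos : ∀ m : ℕ, 1 ≤ m → (r : ℂ) * ∫ u, cexp (((Real.pi * m * u / κ : ℝ) : ℂ) * I) ∂ν =
      s * ∫ u, cexp (((Real.pi * m * u / κ : ℝ) : ℂ) * I) ∂μ := by
    intro m hm
    have h1 := congrArg conj (h m hm)
    rw [map_mul, map_mul, Complex.conj_ofReal, Complex.conj_ofReal, ← integral_conj,
      ← integral_conj] at h1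
    have e : ∀ u : ℝ, conj (cexp (-((Real.pi * m * u / κ : ℝ) : ℂ) * I)) =
        cexp (((Real.pi * m * u / κ : ℝ) : ℂ) * I) := by
      intro u
      rw [← Complex.exp_conj, map_mul, map_neg, Complex.conj_ofReal, Complex.conj_I]
      congr 1
      ring
    simp_rw [e] at h1
    exact h1
  have hfou : ∀ n : ℤ, Λ (fourier n) = 0 := by
    intro n
    rw [hΛ]
    rcases eq_or_ne n 0 with rfl | hn
    · simp
    · have hH : ∫ x, (fourier n : C(AddCircle P, ℂ)) x ∂(AddCircle.haarAddCircle (T := P)) = 0 :=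
        integral_eq_zero_of_add_right_eq_neg (μ := AddCircle.haarAddCircle)
          (fourier_add_half_inv_index hn hP0)
      rw [hH, mul_zero, sub_zero, sub_eq_zero]
      have e : ∀ u : ℝ, (fourier n : C(AddCircle P, ℂ)) (u : AddCircle P) =
          cexp (((Real.pi * n * u / κ : ℝ) : ℂ) * I) := by
        intro u
        rw [fourier_coe_apply]
        congr 1
        rw [hP]
        push_cast
        have : (κ : ℂ) ≠ 0 := Complex.ofReal_ne_zero.2 (by linarith)
        field_simp
      simp_rw [e]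
      rcases lt_or_gt_of_ne hn with h1 | h1
      · obtain ⟨m, hm⟩ : ∃ m : ℕ, n = -(m : ℤ) := ⟨n.natAbs, by omega⟩
        have hm1 : 1 ≤ m := by omega
        have h2 := h m hm1
        have e2 : ∀ u : ℝ, -((Real.pi * m * u / κ : ℝ) : ℂ) = ((Real.pi * n * u / κ : ℝ) : ℂ) := by
          intro u
          rw [hm, ← Complex.ofReal_neg]
          congr 1
          push_cast
          ring
        simp_rw [e2] at h2
        exact h2
      · obtain ⟨m, hm⟩ : ∃ m : ℕ, n = (m : ℤ) := ⟨n.natAbs, by omega⟩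
        have hm1 : 1 ≤ m := by omega
        have h2 := hpos m hm1
        rw [hm]
        push_cast at h2 ⊢
        exact h2
  have hall : ∀ f : C(AddCircle P, ℂ), Λ f = 0 := by
    intro f
    have hcl : (Submodule.span ℂ (range (@fourier P))).topologicalClosure = ⊤ :=
      span_fourier_closure_eq_top
    have hle : (Submodule.span ℂ (range (@fourier P))).topologicalClosure ≤ Λ.ker := by
      apply Submodule.topologicalClosure_minimal
      · rw [Submodule.span_le]
        rintro _ ⟨n, rfl⟩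
        exact hfou n
      · exact (Λ.mkContinuous _ hbd).isClosed_ker
    rw [hcl] at hle
    exact hle (Submodule.mem_top (x := f))
  -- a bump outside `[0, 2k]`
  let ψ : ℝ → ℝ := fun u => max 0 (min (u - 2 * k) (P - u))
  have hψc : Continuous ψ := by fun_prop
  have hψ0 : ∀ u, u ≤ 2 * k → ψ u = 0 := by
    intro u hu
    exact max_eq_left ((min_le_left _ _).trans (by linarith))
  have hψP : ψ P = 0 := max_eq_left ((min_le_right _ _).trans (by linarith))
  have hψn : ∀ u, 0 ≤ ψ u := fun u => le_max_left _ _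
  have hψ1 : Continuous (AddCircle.liftIco P 0 ψ) :=
    AddCircle.liftIco_zero_continuous (by rw [hψ0 0 (by linarith), hψP]) hψc.continuousOn
  have hrs : r = s := by
    let f : C(AddCircle P, ℂ) := ⟨fun x => ((AddCircle.liftIco P 0 ψ x : ℝ) : ℂ),
      Complex.continuous_ofReal.comp hψ1⟩
    have h1 := hall f
    rw [hΛ] at h1
    have hz : ∀ (ρ : Measure ℝ) [IsProbabilityMeasure ρ], (∀ᵐ u ∂ρ, u ∈ Icc 0 (2 * k)) →
        ∫ u, f (u : AddCircle P) ∂ρ = 0 := by
      intro ρ _ hρ
      refine integral_eq_zero_of_ae ?_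
      filter_upwards [hρ] with u hu
      show ((AddCircle.liftIco P 0 ψ (u : AddCircle P) : ℝ) : ℂ) = 0
      rw [AddCircle.liftIco_zero_coe_apply ⟨hu.1, by linarith [hu.2]⟩, hψ0 u hu.2,
        Complex.ofReal_zero]
    rw [hz ν hν, hz μ hμ, mul_zero, mul_zero, sub_zero, zero_sub, neg_eq_zero] at h1
    have h2 : 0 < ∫ x, AddCircle.liftIco P 0 ψ x ∂(AddCircle.haarAddCircle (T := P)) := by
      refine hψ1.integral_pos_of_hasCompactSupport_nonneg_nonzero
        (HasCompactSupport.of_compactSpace _) ?_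
        (x := ((k + κ : ℝ) : AddCircle P)) ?_
      · intro x
        have h3 : x ∈ (fun x : ℝ => (x : AddCircle P)) '' Ico 0 (0 + P) := by
          rw [AddCircle.coe_image_Ico_eq P 0]
          trivial
        obtain ⟨y, hy, rfl⟩ := h3
        show 0 ≤ AddCircle.liftIco P 0 ψ (y : AddCircle P)
        rw [AddCircle.liftIco_coe_apply hy]
        exact hψn y
      · rw [AddCircle.liftIco_zero_coe_apply ⟨by linarith, by rw [hP]; linarith⟩]
        have : 0 < ψ (k + κ) := by
          show 0 < max 0 (min (k + κ - 2 * k) (P - (k + κ)))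
          apply lt_max_of_lt_right
          apply lt_min <;> linarith
        exact this.ne'
    have h3 : ∫ x, f x ∂(AddCircle.haarAddCircle (T := P)) =
        ((∫ x, AddCircle.liftIco P 0 ψ x ∂(AddCircle.haarAddCircle (T := P)) : ℝ) : ℂ) :=
      integral_ofReal (μ := (AddCircle.haarAddCircle (T := P))) (𝕜 := ℂ)
        (f := fun x => AddCircle.liftIco P 0 ψ x)
    rw [h3] at h1
    rcases mul_eq_zero.mp h1 with h4 | h4
    · have h5 : (r : ℂ) = s := sub_eq_zero.mp h4
      exact Complex.ofReal_injective h5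
    · exact absurd (Complex.ofReal_eq_zero.mp h4) h2.ne'
  -- the general test function
  let φ1 : ℝ → ℂ := fun u => φ (min u (2 * k)) +
    ((max 0 (u - 2 * k) / (P - 2 * k) : ℝ) : ℂ) * (φ 0 - φ (2 * k))
  have hφ1c : Continuous φ1 := by
    have h1 : Continuous fun u : ℝ => φ (min u (2 * k)) := hφ.comp (by fun_prop)
    have h2 : Continuous fun u : ℝ => ((max 0 (u - 2 * k) / (P - 2 * k) : ℝ) : ℂ) :=
      Complex.continuous_ofReal.comp (by fun_prop)
    exact h1.add (h2.mul continuous_const)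
  have hφ10 : ∀ u, u ≤ 2 * k → φ1 u = φ u := by
    intro u hu
    show φ (min u (2 * k)) + _ = _
    rw [min_eq_left hu, max_eq_left (by linarith)]
    simp
  have hφ1P : φ1 P = φ 0 := by
    show φ (min P (2 * k)) + _ = _
    rw [min_eq_right hkP.le, max_eq_right (by linarith), div_self (by linarith)]
    push_cast
    ring
  have hφ1 : Continuous (AddCircle.liftIco P 0 φ1) :=
    AddCircle.liftIco_zero_continuous (by rw [hφ10 0 (by linarith), hφ1P]) hφ1c.continuousOn
  have h1 := hall ⟨AddCircle.liftIco P 0 φ1, hφ1⟩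
  rw [hΛ, hrs, sub_self, zero_mul, sub_zero, sub_eq_zero] at h1
  have hz : ∀ (ρ : Measure ℝ) [IsProbabilityMeasure ρ], (∀ᵐ u ∂ρ, u ∈ Icc 0 (2 * k)) →
      ∫ u, (⟨AddCircle.liftIco P 0 φ1, hφ1⟩ : C(AddCircle P, ℂ)) (u : AddCircle P) ∂ρ =
        ∫ u, φ u ∂ρ := by
    intro ρ _ hρ
    refine integral_congr_ae ?_
    filter_upwards [hρ] with u hu
    show AddCircle.liftIco P 0 φ1 (u : AddCircle P) = φ u
    rw [AddCircle.liftIco_zero_coe_apply ⟨hu.1, by linarith [hu.2]⟩, hφ10 u hu.2]
  rw [hz ν hν, hz μ hμ] at h1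
  rw [hrs]
  exact h1

end

end Q97.MM
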