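import Pool.Agent.Q97.MM.Cvg
import Pool.Agent.Q97.MM.Per
import Pool.Agent.Q97.MM.Fin

set_option autoImplicit false

open MeasureTheory Filter Topology Complex Set ComplexConjugate

namespace Q97.MM

noncomputable section

variable (k : ℕ)

/-- the moment on the critical line -/
def M0 (T U : ℝ) : ℝ := JJ k T U (1 / 2)

/-- the correlation divided by the moment -/
def Cq (T U h : ℝ) : ℂ := CZ k T U (h / Real.log T) / (M0 k T U : ℂ)

/-- Fourier transform of a measure -/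
def fr (ν : Measure ℝ) (h : ℝ) : ℂ := ∫ u, cexp (-((h * u / 2 : ℝ) : ℂ) * I) ∂ν

theorem fr_eq {ν : Measure ℝ} [IsProbabilityMeasure ν] (h : ℝ) :
    fr ν h = ((∫ u, Real.cos (h * u / 2) ∂ν : ℝ) : ℂ) -
      ((∫ u, Real.sin (h * u / 2) ∂ν : ℝ) : ℂ) * I := by
  have ic : Integrable (fun u => Real.cos (h * u / 2)) ν :=
    (integrable_const (1 : ℝ)).mono' (by fun_prop) (Eventually.of_forall fun u => Real.abs_cos_le_one _)
  have is : Integrable (fun u => Real.sin (h * u / 2)) ν :=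
    (integrable_const (1 : ℝ)).mono' (by fun_prop) (Eventually.of_forall fun u => Real.abs_sin_le_one _)
  have c1 : ∫ u, ((Real.cos (h * u / 2) : ℝ) : ℂ) ∂ν = ((∫ u, Real.cos (h * u / 2) ∂ν : ℝ) : ℂ) :=
    integral_ofReal (μ := ν) (𝕜 := ℂ) (f := fun u => Real.cos (h * u / 2))
  have c2 : ∫ u, ((Real.sin (h * u / 2) : ℝ) : ℂ) ∂ν = ((∫ u, Real.sin (h * u / 2) ∂ν : ℝ) : ℂ) :=
    integral_ofReal (μ := ν) (𝕜 := ℂ) (f := fun u => Real.sin (h * u / 2))
  unfold fr
  rw [← c1, ← c2, ← integral_mul_const, ← integral_sub ic.ofReal (is.ofReal.mul_const _)]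
  refine integral_congr_ae (Eventually.of_forall fun u => ?_)
  simp only
  rw [← Complex.ofReal_neg, Complex.exp_mul_I, ← Complex.ofReal_cos, ← Complex.ofReal_sin,
    Real.cos_neg, Real.sin_neg]
  push_cast
  ring

/-- All that happens along a subsequence. -/
theorem core2 {T U : ℕ → ℝ} (hT : Tendsto T atTop atTop)
    (hU : ∀ j, 1 ≤ U j ∧ U j ≤ T j / Real.log (T j)) :
    ∃ φ : ℕ → ℕ, StrictMono φ ∧ ∃ ν : Measure ℝ, IsProbabilityMeasure ν ∧
      (∀ᵐ u ∂ν, u ∈ Icc 0 (2 * k : ℝ)) ∧ ν.map (fun u => 2 * (k : ℝ) - u) = ν ∧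
      (∀ h : ℝ, Tendsto (fun j => Cq k (T (φ j)) (U (φ j)) h) atTop (𝓝 (fr ν h))) ∧
      (∀ a : ℝ, Tendsto (fun j => Ja k (T (φ j)) (U (φ j)) a / Ja k (T (φ j)) (U (φ j)) 0) atTop
        (𝓝 (∫ u, Real.exp (-(a * u)) ∂ν))) ∧
      ∀ᶠ j in atTop, 0 < M0 k (T (φ j)) (U (φ j)) := by
  obtain ⟨φ, hφ, ν, h0, h1, h2, h3, h4⟩ := seq_limit2 k hT hU
  have hsupp := supp_of_fe h1 h2 h3
  have hJ : ∀ a : ℝ, Tendsto (fun j => Jn k (T (φ j)) (U (φ j)) a) atTop
      (𝓝 (∫ u, Real.exp (-(a * u)) ∂(ν : Measure ℝ))) := by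
    intro a
    have e1 := (h4 a).sub ((seq_GJ k hT hU a).comp hφ.tendsto_atTop)
    rw [sub_zero] at e1
    refine e1.congr fun j => ?_
    simp only [Function.comp]
    ring
  have h00 : ∫ u, Real.exp (-((0 : ℝ) * u)) ∂(ν : Measure ℝ) = 1 := by simp
  have hJ0 := hJ 0
  rw [h00] at hJ0
  have hadm := hφ.tendsto_atTop.eventually (seq_adm hT hU)
  have hJM : ∀ j, Jn k (T (φ j)) (U (φ j)) 0 =
      T (φ j) ^ (2 * k) * M0 k (T (φ j)) (U (φ j)) / V0 k (T (φ j)) (U (φ j)) := by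
    intro j
    unfold Jn M0
    rw [zero_div, add_zero]
  refine ⟨φ, hφ, ν, inferInstance, ?_, symm_of_fe h1 h3, fun h => ?_, fun a => ?_, ?_⟩
  · rw [ae_iff]
    exact hsupp
  · -- the correlation
    set S : ℕ → ℝ := fun j => T (φ j) with hS
    set R : ℕ → ℝ := fun j => U (φ j) with hR
    let fc : BoundedContinuousFunction ℝ ℝ := BoundedContinuousFunction.ofNormedAddCommGroup
      (fun u => Real.cos (h * u / 2)) (by fun_prop) 1 (fun u => Real.abs_cos_le_one _)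
    let fs : BoundedContinuousFunction ℝ ℝ := BoundedContinuousFunction.ofNormedAddCommGroup
      (fun u => Real.sin (h * u / 2)) (by fun_prop) 1 (fun u => Real.abs_sin_le_one _)
    have g1 := h0 fc
    have g2 := h0 fs
    have g3 : Tendsto (fun j => VC k (S j) (R j) (h / Real.log (S j)) / (V0 k (S j) (R j) : ℂ)) atTop
        (𝓝 (fr (ν : Measure ℝ) h)) := by
      rw [fr_eq]
      have g4 := ((Complex.continuous_ofReal.tendsto _).comp g1).sub
        (((Complex.continuous_ofReal.tendsto _).comp g2).mul_const I)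
      refine g4.congr' ?_
      filter_upwards [hadm] with j hj
      exact (VC_eq k hj h).symm
    have g5 : Tendsto (fun j => (S j : ℂ) ^ (2 * k) * CZ k (S j) (R j) (h / Real.log (S j)) /
        (V0 k (S j) (R j) : ℂ)) atTop (𝓝 (fr (ν : Measure ℝ) h)) := by
      have g6 : Tendsto (fun j => VC k (S j) (R j) (h / Real.log (S j)) / (V0 k (S j) (R j) : ℂ) -
          (S j : ℂ) ^ (2 * k) * CZ k (S j) (R j) (h / Real.log (S j)) / (V0 k (S j) (R j) : ℂ))
          atTop (𝓝 0) := by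
        rw [Metric.tendsto_nhds]
        intro ε hε
        have hTS : Tendsto S atTop atTop := hT.comp hφ.tendsto_atTop
        filter_upwards [hTS.eventually (F3 k h (half_pos hε)), hadm] with j q1 q2
        have q3 := q1 (R j) q2
        have q4 := V0_pos k q2
        rw [dist_zero_right, ← sub_div, norm_div, Complex.norm_real, Real.norm_of_nonneg q4.le,
          div_lt_iff₀ q4]
        refine lt_of_le_of_lt q3 ?_
        exact mul_lt_mul_of_pos_right (by linarith) q4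
      have g7 := g3.sub g6
      rw [sub_zero] at g7
      refine g7.congr fun j => ?_
      ring
    have g8 : Tendsto (fun j => ((Jn k (S j) (R j) 0 : ℝ) : ℂ)) atTop (𝓝 ((1 : ℝ) : ℂ)) :=
      (Complex.continuous_ofReal.tendsto _).comp hJ0
    have g9 := g5.div g8 (by simp)
    rw [Complex.ofReal_one, div_one] at g9
    refine g9.congr' ?_
    filter_upwards [hadm] with j hj
    have q4 := V0_pos k hj
    have hS0 : 0 < S j := by linarith [hj.1]
    show (S j : ℂ) ^ (2 * k) * CZ k (S j) (R j) (h / Real.log (S j)) / (V0 k (S j) (R j) : ℂ) /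
      ((Jn k (S j) (R j) 0 : ℝ) : ℂ) = Cq k (S j) (R j) h
    rw [hJM j]
    unfold Cq
    push_cast
    have n1 : (V0 k (T (φ j)) (U (φ j)) : ℂ) ≠ 0 := Complex.ofReal_ne_zero.2 q4.ne'
    have n2 : ((T (φ j) : ℂ)) ^ (2 * k) ≠ 0 := pow_ne_zero _ (Complex.ofReal_ne_zero.2 hS0.ne')
    rw [div_div_div_cancel_right₀ n1, mul_div_mul_left _ _ n2]
  · have e2 := (hJ a).div (hJ 0) (by rw [h00]; exact one_ne_zero)
    rw [h00, div_one] at e2
    refine e2.congr' ?_
    filter_upwards [hadm] with j hj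
    exact Jn_div k hj a 0
  · filter_upwards [hadm, hJ0.eventually (lt_mem_nhds (show (1 / 2 : ℝ) < 1 by norm_num))]
      with j q1 q2
    rw [hJM j] at q2
    have q4 := V0_pos k q1
    have hS0 : 0 < T (φ j) := by linarith [q1.1]
    by_contra hcon
    push Not at hcon
    have : T (φ j) ^ (2 * k) * M0 k (T (φ j)) (U (φ j)) / V0 k (T (φ j)) (U (φ j)) ≤ 0 :=
      div_nonpos_of_nonpos_of_nonneg (mul_nonpos_of_nonneg_of_nonpos (by positivity) hcon) q4.le
    linarith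

/-- The centred Fourier transform of a symmetric measure is real and bounded below. -/
theorem fr_bounds {ν : Measure ℝ} [IsProbabilityMeasure ν] (h2 : ∀ᵐ u ∂ν, u ∈ Icc 0 (2 * k : ℝ))
    (h3 : ν.map (fun u => 2 * (k : ℝ) - u) = ν) (h : ℝ) :
    (cexp (((k * h / 2 : ℝ) : ℂ) * I) * fr ν h).im = 0 ∧
    (|k * h| ≤ 2 * Real.pi → Real.cos (k * h / 2) ≤ (cexp (((k * h / 2 : ℝ) : ℂ) * I) * fr ν h).re) := by
  have ic : Integrable (fun u => Real.cos (h * (u - k) / 2)) ν :=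
    (integrable_const (1 : ℝ)).mono' (by fun_prop) (Eventually.of_forall fun u => Real.abs_cos_le_one _)
  have is : Integrable (fun u => Real.sin (h * (u - k) / 2)) ν :=
    (integrable_const (1 : ℝ)).mono' (by fun_prop) (Eventually.of_forall fun u => Real.abs_sin_le_one _)
  have c1 : ∫ u, ((Real.cos (h * (u - k) / 2) : ℝ) : ℂ) ∂ν =
      ((∫ u, Real.cos (h * (u - k) / 2) ∂ν : ℝ) : ℂ) :=
    integral_ofReal (μ := ν) (𝕜 := ℂ) (f := fun u => Real.cos (h * (u - k) / 2))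
  have c2 : ∫ u, ((Real.sin (h * (u - k) / 2) : ℝ) : ℂ) ∂ν =
      ((∫ u, Real.sin (h * (u - k) / 2) ∂ν : ℝ) : ℂ) :=
    integral_ofReal (μ := ν) (𝕜 := ℂ) (f := fun u => Real.sin (h * (u - k) / 2))
  have e1 : cexp (((k * h / 2 : ℝ) : ℂ) * I) * fr ν h =
      ((∫ u, Real.cos (h * (u - k) / 2) ∂ν : ℝ) : ℂ) -
        ((∫ u, Real.sin (h * (u - k) / 2) ∂ν : ℝ) : ℂ) * I := by
    unfold fr
    rw [← c1, ← c2, ← integral_mul_const, ← integral_sub ic.ofReal (is.ofReal.mul_const _),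
      ← integral_const_mul]
    refine integral_congr_ae (Eventually.of_forall fun u => ?_)
    simp only
    rw [← Complex.exp_add]
    have e2 : ((k * h / 2 : ℝ) : ℂ) * I + -((h * u / 2 : ℝ) : ℂ) * I =
        ((-(h * (u - k) / 2) : ℝ) : ℂ) * I := by
      push_cast
      ring
    rw [e2, Complex.exp_mul_I, ← Complex.ofReal_cos, ← Complex.ofReal_sin, Real.cos_neg,
      Real.sin_neg]
    push_cast
    ring
  have hs0 : ∫ u, Real.sin (h * (u - k) / 2) ∂ν = 0 := by
    have hm : Measurable (fun u : ℝ => 2 * (k : ℝ) - u) := by fun_prop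
    have h5 : ∫ u, Real.sin (h * (u - k) / 2) ∂ν = ∫ u, Real.sin (h * ((2 * (k : ℝ) - u) - k) / 2) ∂ν := by
      conv_lhs => rw [← h3]
      rw [integral_map hm.aemeasurable (by fun_prop)]
    have h6 : ∫ u, Real.sin (h * ((2 * (k : ℝ) - u) - k) / 2) ∂ν =
        -∫ u, Real.sin (h * (u - k) / 2) ∂ν := by
      rw [← integral_neg]
      refine integral_congr_ae (Eventually.of_forall fun u => ?_)
      simp only
      rw [← Real.sin_neg]
      congr 1
      ring
    linarith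
  rw [e1, hs0]
  refine ⟨by simp, fun hkh => ?_⟩
  have h7 : Real.cos (k * h / 2) ≤ ∫ u, Real.cos (h * (u - k) / 2) ∂ν := by
    have h8 : ∫ _u, Real.cos (k * h / 2) ∂ν ≤ ∫ u, Real.cos (h * (u - k) / 2) ∂ν := by
      apply integral_mono_ae (integrable_const _) ic
      filter_upwards [h2] with u hu
      rw [← Real.cos_abs (k * h / 2), ← Real.cos_abs (h * (u - k) / 2)]
      apply Real.cos_le_cos_of_nonneg_of_le_pi (abs_nonneg _)
      · rw [abs_div, abs_of_pos (by norm_num : (0 : ℝ) < 2)]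
        linarith
      · rw [abs_div, abs_div, abs_mul, abs_mul]
        apply div_le_div_of_nonneg_right _ (abs_nonneg _)
        have hk : |(k : ℝ)| = k := abs_of_nonneg (Nat.cast_nonneg k)
        rw [hk, mul_comm]
        apply mul_le_mul_of_nonneg_right _ (abs_nonneg _)
        rw [abs_le]
        constructor <;> linarith [hu.1, hu.2]
    rw [integral_const, probReal_univ, one_smul] at h8
    exact h8
  simpa using h7

/-- **The uniform bounds for the correlations.** -/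
theorem bounds2 (h : ℝ) {ε : ℝ} (hε : 0 < ε) : ∃ T₀ : ℝ, ∀ T : ℝ, T₀ ≤ T → ∀ U : ℝ, 1 ≤ U →
    U ≤ T / Real.log T → 0 < M0 k T U ∧
    |(cexp (((k * h / 2 : ℝ) : ℂ) * I) * Cq k T U h).im| ≤ ε ∧
    (|k * h| ≤ 2 * Real.pi →
      Real.cos (k * h / 2) - ε ≤ (cexp (((k * h / 2 : ℝ) : ℂ) * I) * Cq k T U h).re) := by
  by_contra hcon
  push Not at hcon
  choose T hT U hU1 hU2 hbad using fun n : ℕ => hcon n
  have hTt : Tendsto T atTop atTop := tendsto_atTop_mono hT tendsto_natCast_atTop_atTop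
  obtain ⟨φ, hφ, ν, hν, h2, h3, h5, -, h6⟩ := core2 k hTt (fun j => ⟨hU1 j, hU2 j⟩)
  have hb := fr_bounds k h2 h3 h
  have c0 := (h5 h).const_mul (cexp (((k * h / 2 : ℝ) : ℂ) * I))
  have c1 : Tendsto (fun j => |(cexp (((k * h / 2 : ℝ) : ℂ) * I) *
      Cq k (T (φ j)) (U (φ j)) h).im|) atTop (𝓝 0) := by
    have := ((Complex.continuous_im.tendsto _).comp c0).abs
    rw [hb.1, abs_zero] at this
    exact this
  have c2 := (Complex.continuous_re.tendsto _).comp c0
  have c3 := c1.eventually (gt_mem_nhds hε)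
  by_cases hkh : |k * h| ≤ 2 * Real.pi
  · have c4 := c2.eventually (lt_mem_nhds (show Real.cos (k * h / 2) - ε < _ by
      have := hb.2 hkh
      linarith))
    obtain ⟨j, hj1, hj2, hj3⟩ := (h6.and (c3.and c4)).exists
    have := hbad (φ j) hj1 hj2.le
    have hj3' : Real.cos (k * h / 2) - ε <
      (cexp (((k * h / 2 : ℝ) : ℂ) * I) * Cq k (T (φ j)) (U (φ j)) h).re := hj3
    linarith [this.2]
  · obtain ⟨j, hj1, hj2⟩ := (h6.and c3).exists
    have := hbad (φ j) hj1 hj2.le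
    exact hkh this.1

/-- A set of shifts which determines the Fourier transforms of the possible limits. -/
def Det (S : Set ℝ) : Prop :=
  ∀ (ν μ : Measure ℝ) [IsProbabilityMeasure ν] [IsProbabilityMeasure μ],
    (∀ᵐ u ∂ν, u ∈ Icc 0 (2 * k : ℝ)) → (∀ᵐ u ∂μ, u ∈ Icc 0 (2 * k : ℝ)) → ∀ r s : ℝ,
    (∀ h ∈ S, (r : ℂ) * fr ν h = s * fr μ h) → ∀ h : ℝ, (r : ℂ) * fr ν h = s * fr μ h

theorem fr_zero (ν : Measure ℝ) [IsProbabilityMeasure ν] : fr ν 0 = 1 := by
  unfold fr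
  simp

/-- Arithmetic progressions. -/
theorem det_arith {κ : ℝ} (hκ : (k : ℝ) < κ) :
    Det k (range fun m : ℕ => 2 * Real.pi * ((m : ℝ) + 1) / κ) := by
  have hκ0 : 0 < κ := lt_of_le_of_lt (Nat.cast_nonneg k) hκ
  have hfr : ∀ (ν : Measure ℝ) (m : ℕ), fr ν (2 * Real.pi * m / κ) =
      ∫ u, cexp (-((Real.pi * m * u / κ : ℝ) : ℂ) * I) ∂ν := by
    intro ν m
    unfold fr
    congr 1
    funext u
    congr 4
    field_simp
  intro ν μ _ _ h1 h2 r s h h'
  refine per_uniq (Nat.cast_nonneg k) hκ h1 h2 (fun m hm => ?_) (by fun_prop)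
  obtain ⟨n, rfl⟩ : ∃ n, m = n + 1 := ⟨m - 1, by omega⟩
  rw [← hfr, ← hfr]
  push_cast
  exact h _ ⟨n, rfl⟩

/-- Sets with an accumulation point. -/
theorem det_acc {S : Set ℝ} {x : ℝ} (hx : AccPt x (𝓟 S)) : Det k S := by
  intro ν μ _ _ h1 h2 r s h h'
  have hint : ∀ (ρ : Measure ℝ) [IsProbabilityMeasure ρ], (∀ᵐ u ∂ρ, u ∈ Icc 0 (2 * k : ℝ)) →
      ∀ a : ℝ, Integrable (fun u => Real.exp (-(a * u))) ρ := by
    intro ρ _ hρ a
    refine (integrable_const (Real.exp (|a| * (2 * k)))).mono' (by fun_prop) ?_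
    filter_upwards [hρ] with u hu
    rw [Real.norm_eq_abs, Real.abs_exp]
    apply Real.exp_le_exp.2
    calc -(a * u) ≤ |a * u| := neg_le_abs _
      _ = |a| * u := by rw [abs_mul, abs_of_nonneg hu.1]
      _ ≤ |a| * (2 * k) := mul_le_mul_of_nonneg_left hu.2 (abs_nonneg _)
  have hfr : ∀ (ρ : Measure ℝ) (z : ℝ), fr ρ z =
      ProbabilityTheory.complexMGF id ρ (-((z : ℂ) / 2) * I) := by
    intro ρ z
    unfold fr ProbabilityTheory.complexMGF
    refine integral_congr_ae (Eventually.of_forall fun u => ?_)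
    simp only [id]
    congr 1
    push_cast
    ring
  set g : ℂ → ℂ := fun z => (r : ℂ) * ProbabilityTheory.complexMGF id ν (-(z / 2) * I) -
    s * ProbabilityTheory.complexMGF id μ (-(z / 2) * I) with hg
  have dz : Differentiable ℂ (fun z : ℂ => -(z / 2) * I) := by fun_prop
  have hgd : Differentiable ℂ g :=
    (((differentiable_cmgf (hint ν h1)).comp dz).const_mul _).sub
      (((differentiable_cmgf (hint μ h2)).comp dz).const_mul _)
  have hfreq : ∃ᶠ z in 𝓝[≠] (x : ℂ), g z = 0 := by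
    have q1 : ∃ᶠ y in 𝓝[≠] x, y ∈ S := by
      rw [accPt_iff_frequently] at hx
      rw [frequently_nhdsWithin_iff]
      exact hx.mono fun y hy => ⟨hy.2, hy.1⟩
    have q2 : Tendsto (fun y : ℝ => (y : ℂ)) (𝓝[≠] x) (𝓝[≠] (x : ℂ)) := by
      apply tendsto_nhdsWithin_of_tendsto_nhds_of_eventually_within
      · exact (Complex.continuous_ofReal.tendsto x).mono_left nhdsWithin_le_nhds
      · filter_upwards [self_mem_nhdsWithin] with y hy
        intro hcon
        exact hy (Complex.ofReal_injective hcon)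
    refine q2.frequently (q1.mono fun y hy => ?_)
    show g (y : ℂ) = 0
    rw [hg]
    simp only
    rw [← hfr, ← hfr, h y hy, sub_self]
  have hz := (hgd.differentiableOn.analyticOnNhd isOpen_univ).eqOn_zero_of_preconnected_of_frequently_eq_zero
    isPreconnected_univ (mem_univ _) hfreq (mem_univ (h' : ℂ))
  have hz' : g (h' : ℂ) = 0 := hz
  rw [hg] at hz'
  simp only at hz'
  rw [← hfr, ← hfr] at hz'
  exact sub_eq_zero.1 hz'

/-- **Strictly shifted moments determine the moments.** -/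
theorem transfer2 {S : Set ℝ} (hS : Det k S) {T U N : ℕ → ℝ} (hT : Tendsto T atTop atTop)
    (hU : ∀ j, 1 ≤ U j ∧ U j ≤ T j / Real.log (T j)) (hN : ∀ j, 0 < N j)
    (hlim : ∀ h ∈ S, ∃ l : ℂ,
      Tendsto (fun j => CZ k (T j) (U j) (h / Real.log (T j)) / (N j : ℂ)) atTop (𝓝 l)) :
    (∃ l : ℝ, Tendsto (fun j => M0 k (T j) (U j) / N j) atTop (𝓝 l)) ∧
    ∀ h : ℝ, ∃ l : ℂ,
      Tendsto (fun j => CZ k (T j) (U j) (h / Real.log (T j)) / (N j : ℂ)) atTop (𝓝 l) := by
  choose! l hl using hlim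
  have hM0 : ∀ j, 0 ≤ M0 k (T j) (U j) := fun j => JJ_nonneg k _ _ _
  -- subsequences
  have sub : ∀ ns : ℕ → ℕ, Tendsto ns atTop atTop → ∃ φ : ℕ → ℕ, StrictMono φ ∧
      ∃ ν : Measure ℝ, IsProbabilityMeasure ν ∧ (∀ᵐ u ∂ν, u ∈ Icc 0 (2 * k : ℝ)) ∧
      ∃ x : ℝ, Tendsto (fun j => M0 k (T (ns (φ j))) (U (ns (φ j))) / N (ns (φ j))) atTop (𝓝 x) ∧
        ∀ h : ℝ, Tendsto (fun j => CZ k (T (ns (φ j))) (U (ns (φ j)))
          (h / Real.log (T (ns (φ j)))) / (N (ns (φ j)) : ℂ)) atTop (𝓝 (x * fr ν h)) := by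
    intro ns hns
    obtain ⟨φ, hφ, ν, hν, h2, h3, h5, -, h6⟩ := core2 k (T := fun j => T (ns j))
      (U := fun j => U (ns j)) (hT.comp hns) (fun j => hU (ns j))
    set X : ℕ → ℝ := fun j => M0 k (T (ns (φ j))) (U (ns (φ j))) / N (ns (φ j)) with hX
    have hX0 : ∀ j, 0 ≤ X j := fun j => div_nonneg (hM0 _) (hN _).le
    set Y : ℕ → ℝ := fun j => X j / (1 + X j) with hY
    have hY1 : ∀ j, Y j ∈ Icc (0 : ℝ) 1 := fun j =>
      ⟨div_nonneg (hX0 j) (by linarith [hX0 j]), by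
        rw [hY]
        simp only
        rw [div_le_one (by linarith [hX0 j])]
        linarith⟩
    obtain ⟨y, hy, ψ, hψ, hlimy⟩ := isCompact_Icc.tendsto_subseq hY1
    have key : ∀ h : ℝ, ∀ᶠ j in atTop, ((1 - Y j : ℝ) : ℂ) *
        (CZ k (T (ns (φ j))) (U (ns (φ j))) (h / Real.log (T (ns (φ j)))) / (N (ns (φ j)) : ℂ)) =
        (Y j : ℂ) * Cq k (T (ns (φ j))) (U (ns (φ j))) h := by
      intro h
      filter_upwards [h6] with j hj
      have hx1 : 0 < 1 + X j := by linarith [hX0 j]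
      have hNj := hN (ns (φ j))
      have e1 : 1 - Y j = 1 / (1 + X j) := by
        rw [hY]
        field_simp
        ring
      unfold Cq
      rw [e1, hY]
      simp only
      have hXe : X j = M0 k (T (ns (φ j))) (U (ns (φ j))) / N (ns (φ j)) := rfl
      have n1 : (M0 k (T (ns (φ j))) (U (ns (φ j))) : ℂ) ≠ 0 := Complex.ofReal_ne_zero.2 hj.ne'
      have n2 : (N (ns (φ j)) : ℂ) ≠ 0 := Complex.ofReal_ne_zero.2 hNj.ne'
      have n3 : ((1 + X j : ℝ) : ℂ) ≠ 0 := Complex.ofReal_ne_zero.2 hx1.ne'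
      have e2 : (X j : ℂ) = (M0 k (T (ns (φ j))) (U (ns (φ j))) : ℂ) / (N (ns (φ j)) : ℂ) := by
        rw [hXe]
        push_cast
        rfl
      rw [Complex.ofReal_div, Complex.ofReal_div, Complex.ofReal_one]
      rw [e2]
      field_simp
    have hns' : Tendsto (fun j => ns (φ (ψ j))) atTop atTop :=
      hns.comp (hφ.tendsto_atTop.comp hψ.tendsto_atTop)
    have hcq : ∀ h : ℝ, Tendsto (fun j => (Y (ψ j) : ℂ) * Cq k (T (ns (φ (ψ j))))
        (U (ns (φ (ψ j)))) h) atTop (𝓝 (y * fr ν h)) := fun h =>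
      ((Complex.continuous_ofReal.tendsto _).comp hlimy).mul ((h5 h).comp hψ.tendsto_atTop)
    have hlow : Tendsto (fun j => ((1 - Y (ψ j) : ℝ) : ℂ)) atTop (𝓝 ((1 - y : ℝ) : ℂ)) :=
      (Complex.continuous_ofReal.tendsto _).comp (hlimy.const_sub 1)
    have hrel : ∀ h ∈ S, ((1 - y : ℝ) : ℂ) * l h = y * fr ν h := by
      intro m hm
      have q1 := hlow.mul ((hl m hm).comp hns')
      have q2 := hcq m
      refine tendsto_nhds_unique q1 (q2.congr' ?_)
      filter_upwards [hψ.tendsto_atTop.eventually (key m)] with j hj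
      exact hj.symm
    have hy1 : y ≠ 1 := by
      intro hy1
      have q := hS ν ν h2 h2 1 0
        (fun m hm => by
          have := hrel m hm
          rw [hy1, sub_self, Complex.ofReal_zero, zero_mul] at this
          rw [← this]
          simp) 0
      rw [fr_zero] at q
      simp at q
    have hy1' : 0 < 1 - y := by
      have := lt_of_le_of_ne hy.2 hy1
      linarith
    refine ⟨fun j => φ (ψ j), hφ.comp hψ, ν, hν, h2, y / (1 - y), ?_, fun h => ?_⟩
    · have q1 := hlimy.div (hlimy.const_sub 1) hy1'.ne'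
      refine q1.congr fun j => ?_
      have hx1 : 0 < 1 + X (ψ j) := by linarith [hX0 (ψ j)]
      show Y (ψ j) / (1 - Y (ψ j)) = X (ψ j)
      have e1 : 1 - Y (ψ j) = 1 / (1 + X (ψ j)) := by
        rw [hY]
        field_simp
        ring
      rw [e1, hY]
      simp only
      field_simp
    · have hne : ((1 - y : ℝ) : ℂ) ≠ 0 := Complex.ofReal_ne_zero.2 hy1'.ne'
      have q1 := (hcq h).div hlow hne
      have e1 : (y : ℂ) * fr ν h / ((1 - y : ℝ) : ℂ) = ((y / (1 - y) : ℝ) : ℂ) * fr ν h := by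
        push_cast
        ring
      rw [e1] at q1
      refine q1.congr' ?_
      filter_upwards [hψ.tendsto_atTop.eventually (key h),
        hlimy.eventually (gt_mem_nhds (show y < 1 by linarith))] with j hj1 hj2
      have hj2' : Y (ψ j) < 1 := hj2
      have n1 : ((1 - Y (ψ j) : ℝ) : ℂ) ≠ 0 := Complex.ofReal_ne_zero.2 (by linarith)
      rw [Pi.div_apply, ← hj1, mul_div_cancel_left₀ _ n1]
  obtain ⟨φ₀, hφ₀, ν₀, hν₀, g2, x₀, g3, g4⟩ := sub id tendsto_id
  have hx0 : ∀ h ∈ S, (x₀ : ℂ) * fr ν₀ h = l h := by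
    intro m hm
    exact tendsto_nhds_unique (g4 _) ((hl m hm).comp (tendsto_id.comp hφ₀.tendsto_atTop))
  have uniq : ∀ (ν : Measure ℝ) [IsProbabilityMeasure ν] (x : ℝ),
      (∀ᵐ u ∂ν, u ∈ Icc 0 (2 * k : ℝ)) →
      (∀ h ∈ S, (x : ℂ) * fr ν h = l h) →
      x = x₀ ∧ ∀ h : ℝ, (x : ℂ) * fr ν h = x₀ * fr ν₀ h := by
    intro ν _ x q1 q2
    have q3 := hS ν ν₀ q1 g2 x x₀ (fun m hm => by rw [q2 m hm, hx0 m hm])
    refine ⟨?_, q3⟩
    have := q3 0
    rw [fr_zero, fr_zero, mul_one, mul_one] at this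
    exact_mod_cast this
  refine ⟨⟨x₀, ?_⟩, fun h => ⟨x₀ * fr ν₀ h, ?_⟩⟩
  · apply tendsto_of_subseq_tendsto
    intro ns hns
    obtain ⟨φ, hφ, ν, hν, q2, x, q3, q4⟩ := sub ns hns
    refine ⟨φ, ?_⟩
    have hx : ∀ h ∈ S, (x : ℂ) * fr ν h = l h := fun m hm =>
      tendsto_nhds_unique (q4 _) ((hl m hm).comp (hns.comp hφ.tendsto_atTop))
    rw [← (uniq ν x q2 hx).1]
    exact q3
  · apply tendsto_of_subseq_tendsto
    intro ns hns
    obtain ⟨φ, hφ, ν, hν, q2, x, q3, q4⟩ := sub ns hns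
    refine ⟨φ, ?_⟩
    have hx : ∀ h ∈ S, (x : ℂ) * fr ν h = l h := fun m hm =>
      tendsto_nhds_unique (q4 _) ((hl m hm).comp (hns.comp hφ.tendsto_atTop))
    rw [← (uniq ν x q2 hx).2 h]
    exact q4 h

end

end Q97.MM
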