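import Pool.Agent.Q97.MM.Loc
import Pool.Agent.H345R2.Chi

set_option autoImplicit false

open MeasureTheory Filter Topology Complex Set

namespace Q97.MM

noncomputable section

theorem VI_pos_of_pos {F : ℂ → ℂ} {α β M δ : ℝ} (hF : Differentiable ℂ F) (hδ : 0 < δ) (hM : 0 ≤ M)
    (hbd : ∀ x y : ℝ, α ≤ x → x ≤ β → ‖F (x + y * I)‖ ≤ M * Real.exp (-δ * y ^ 2))
    {c x : ℝ} (hc1 : α ≤ c) (hc2 : c ≤ β) (h1 : α ≤ x) (h2 : x ≤ β) (hx : 0 < VI F x) :
    0 < VI F c := by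
  by_contra hcon
  have h0 : VI F c = 0 := le_antisymm (not_lt.mp hcon) (VI_nonneg F c)
  have rc := rep hF hδ hM hbd hc1 hc2 hc1 hc2
  have rx := rep hF hδ hM hbd hc1 hc2 h1 h2
  rw [h0] at rc
  have h3 := (integral_eq_zero_iff_of_nonneg (fun ξ => mul_nonneg (Real.exp_pos _).le
    (dens_nonneg F c ξ)) rc.1).mp rc.2
  have h4 : (fun ξ => Real.exp (4 * Real.pi * ξ * (x - c)) * dens F c ξ) =ᵐ[volume] 0 := by
    filter_upwards [h3] with ξ hξ
    have h5 : Real.exp (4 * Real.pi * ξ * (c - c)) * dens F c ξ = 0 := hξ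
    rw [sub_self, mul_zero, Real.exp_zero, one_mul] at h5
    rw [h5, mul_zero]
    rfl
  rw [← rx.2, integral_congr_ae h4] at hx
  simp at hx

theorem zeta_three_bd : ∃ C : ℝ, 0 < C ∧ ∀ y : ℝ, ‖riemannZeta ((3 : ℝ) + (y : ℂ) * I)‖ ≤ C := by
  have hs : Summable (fun n : ℕ => 1 / ((n : ℝ) + 1) ^ 3) := by
    have h1 : Summable (fun n : ℕ => 1 / (n : ℝ) ^ 3) :=
      Real.summable_one_div_nat_pow.mpr (by norm_num)
    have h2 := (summable_nat_add_iff 1).mpr h1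
    refine h2.congr fun n => ?_
    push_cast
    rfl
  refine ⟨(∑' n : ℕ, 1 / ((n : ℝ) + 1) ^ 3) + 1, ?_, fun y => ?_⟩
  · have : 0 ≤ ∑' n : ℕ, 1 / ((n : ℝ) + 1) ^ 3 := tsum_nonneg fun n => by positivity
    linarith
  · have hre : (((3 : ℝ) : ℂ) + (y : ℂ) * I).re = 3 := by simp
    rw [zeta_eq_tsum_one_div_nat_add_one_cpow (by rw [hre]; norm_num)]
    have hterm : ∀ n : ℕ, ‖1 / ((n : ℂ) + 1) ^ (((3 : ℝ) : ℂ) + (y : ℂ) * I)‖ =
        1 / ((n : ℝ) + 1) ^ 3 := by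
      intro n
      have h1 : ((n : ℂ) + 1) = (((n : ℝ) + 1 : ℝ) : ℂ) := by push_cast; ring
      rw [norm_div, norm_one, h1, Complex.norm_cpow_eq_rpow_re_of_pos (by positivity), hre]
      norm_num
    have h2 : Summable (fun n : ℕ => ‖1 / ((n : ℂ) + 1) ^ (((3 : ℝ) : ℂ) + (y : ℂ) * I)‖) := by
      refine hs.congr fun n => (hterm n).symm
    refine (norm_tsum_le_tsum_norm h2).trans ?_
    rw [tsum_congr hterm]
    linarith

theorem zeta_two_bd (y : ℝ) : ‖riemannZeta ((2 : ℝ) + (y : ℂ) * I)‖ ≤ 5 / 3 := by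
  have h1 := H345.Chi.zeta_two_line y
  have h2 := norm_add_le (riemannZeta (2 + (y : ℂ) * I) - 1) 1
  rw [sub_add_cancel, norm_one] at h2
  push_cast
  linarith

theorem Z1_cont_line (x : ℝ) : Continuous (fun y : ℝ => Z1 (x + y * I)) := by
  have := Z1_differentiable.continuous
  fun_prop

theorem Z1_pow_bd (k : ℕ) {x : ℝ} (h1 : 1 / 4 ≤ x) (h2 : x ≤ 3) (y : ℝ) :
    ‖Z1 (x + y * I)‖ ^ (2 * k) ≤ 45 ^ (2 * k) * (1 + |y|) ^ (2 * (2 * k)) := by
  have h3 := Z1_growth (y := y) h1 h2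
  calc ‖Z1 (x + y * I)‖ ^ (2 * k) ≤ (45 * (1 + |y|) ^ 2) ^ (2 * k) := by gcongr
    _ = _ := by rw [mul_pow, ← pow_mul]

theorem PP_integrable (k : ℕ) {T U x : ℝ} (hU : 0 < U) (hT : 0 ≤ T) (hUT : U ≤ T)
    (h1 : 1 / 4 ≤ x) (h2 : x ≤ 3) :
    Integrable (fun y : ℝ => ‖Z1 (x + y * I)‖ ^ (2 * k) * wt T U y) :=
  poly_wt_integrable (2 * (2 * k)) (C₀ := 45 ^ (2 * k)) hU hT hUT
    ((Z1_cont_line x).norm.pow _).aestronglyMeasurable (fun y => by
      rw [abs_of_nonneg (by positivity)]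
      exact Z1_pow_bd k h1 h2 y)

theorem norm_sub_one_le {x : ℝ} (h1 : 1 ≤ x) (h2 : x ≤ 3) (y : ℝ) :
    ‖(x : ℂ) + y * I - 1‖ ≤ 3 * (1 + |y|) := by
  have e : (x : ℂ) + y * I - 1 = ((x - 1 : ℝ) : ℂ) + y * I := by push_cast; ring
  rw [e]
  refine (norm_add_le _ _).trans ?_
  rw [norm_mul, Complex.norm_I, mul_one, Complex.norm_real, Complex.norm_real, Real.norm_eq_abs,
    Real.norm_eq_abs, abs_of_nonneg (by linarith : (0 : ℝ) ≤ x - 1)]
  linarith [abs_nonneg y]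

theorem ne_one_of_re {x : ℝ} (hx : x ≠ 1) (y : ℝ) : (x : ℂ) + y * I ≠ 1 := by
  intro h
  have := congrArg Complex.re h
  simp at this
  exact hx this

theorem PP_upper (k : ℕ) {B x : ℝ} (h1 : 1 < x) (h2 : x ≤ 3)
    (hB : ∀ y : ℝ, ‖riemannZeta (x + (y : ℂ) * I)‖ ≤ B) {T U : ℝ} (hT : 3 ≤ T) (hU : 0 < U)
    (hUT : U ≤ T) :
    PP k T U x ≤ (6 * B) ^ (2 * k) * KK (2 * k) * (T ^ (2 * k) * U) := by
  have hB0 : 0 ≤ B := (norm_nonneg _).trans (hB 0)
  have hT0 : 0 ≤ T := by linarith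
  have hpt : ∀ y : ℝ, ‖Z1 (x + y * I)‖ ^ (2 * k) * wt T U y ≤
      (6 * B) ^ (2 * k) * T ^ (2 * k) *
        ((1 + |(y - T) / U|) ^ (2 * k) * Real.exp (-(((y - T) / U) ^ 2 / 2))) := by
    intro y
    have e1 : ‖Z1 (x + y * I)‖ ≤ 6 * B * T * (1 + |(y - T) / U|) := by
      rw [Z1_of_ne (ne_one_of_re h1.ne' y), norm_mul]
      have a1 := norm_sub_one_le h1.le h2 y
      have a2 := abs_le_scaled hU hT0 hUT y
      have a3 : (1 + T) * (1 + |(y - T) / U|) ≤ (2 * T) * (1 + |(y - T) / U|) := by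
        gcongr
        linarith
      calc ‖(x : ℂ) + y * I - 1‖ * ‖riemannZeta (x + y * I)‖
          ≤ (3 * ((2 * T) * (1 + |(y - T) / U|))) * B := by
            apply mul_le_mul _ (hB y) (norm_nonneg _) (by positivity)
            linarith
        _ = _ := by ring
    have e2 : wt T U y ≤ Real.exp (-(((y - T) / U) ^ 2 / 2)) := by
      unfold wt
      apply Real.exp_le_exp.2
      nlinarith [sq_nonneg ((y - T) / U)]
    calc ‖Z1 (x + y * I)‖ ^ (2 * k) * wt T U y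
        ≤ (6 * B * T * (1 + |(y - T) / U|)) ^ (2 * k) * Real.exp (-(((y - T) / U) ^ 2 / 2)) :=
          mul_le_mul (pow_le_pow_left₀ (norm_nonneg _) e1 _) e2 (wt_pos _ _ _).le (by positivity)
      _ = _ := by rw [mul_pow, mul_pow]; ring
  have h := integral_mono (PP_integrable k hU hT0 hUT (by linarith) h2)
    ((scaled_integrable (2 * k) T hU).const_mul ((6 * B) ^ (2 * k) * T ^ (2 * k))) hpt
  rw [integral_const_mul, scaled_integral (2 * k) T hU] at h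
  refine h.trans (le_of_eq ?_)
  ring

theorem PP_lower (k : ℕ) {T U : ℝ} (hT : 3 ≤ T) (hU : 0 < U) (hUT : U ≤ T) :
    (1 / 6) ^ (2 * k) * Real.exp (-1) * (T ^ (2 * k) * U) ≤ PP k T U 2 := by
  have hT0 : 0 ≤ T := by linarith
  have hi := PP_integrable k hU hT0 hUT (x := 2) (by norm_num) (by norm_num)
  have hpt : ∀ y ∈ Icc (T - U / 2) (T + U / 2),
      (T / 6) ^ (2 * k) * Real.exp (-1) ≤ ‖Z1 ((2 : ℝ) + y * I)‖ ^ (2 * k) * wt T U y := by
    intro y hy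
    have hy1 : T / 2 ≤ y := by linarith [hy.1]
    have e1 : T / 6 ≤ ‖Z1 ((2 : ℝ) + y * I)‖ := by
      rw [Z1_of_ne (ne_one_of_re (by norm_num) y), norm_mul]
      have a1 : y ≤ ‖((2 : ℝ) : ℂ) + y * I - 1‖ := by
        have := Complex.abs_im_le_norm (((2 : ℝ) : ℂ) + y * I - 1)
        have e : (((2 : ℝ) : ℂ) + y * I - 1).im = y := by simp
        rw [e] at this
        exact (le_abs_self y).trans this
      have a2 := H345.Chi.zeta_two_lower y
      have a3 : ((2 : ℝ) : ℂ) + y * I = 2 + y * I := by push_cast; ring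
      rw [a3] at a1 ⊢
      calc T / 6 = (T / 2) * (1 / 3) := by ring
        _ ≤ ‖(2 : ℂ) + y * I - 1‖ * ‖riemannZeta (2 + y * I)‖ :=
          mul_le_mul (by linarith) a2 (by norm_num) (norm_nonneg _)
    have e2 : Real.exp (-1) ≤ wt T U y := by
      unfold wt
      apply Real.exp_le_exp.2
      have b1 : |(y - T) / U| ≤ 1 := by
        rw [abs_div, abs_of_pos hU, div_le_iff₀ hU, abs_le]
        constructor <;> linarith [hy.1, hy.2]
      have b2 : ((y - T) / U) ^ 2 ≤ 1 := by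
        rw [← sq_abs]
        exact pow_le_one₀ (abs_nonneg _) b1
      linarith
    exact mul_le_mul (pow_le_pow_left₀ (by positivity) e1 _) e2 (Real.exp_pos _).le (by positivity)
  have h1 : ∫ y in Icc (T - U / 2) (T + U / 2), (T / 6) ^ (2 * k) * Real.exp (-1) ≤
      ∫ y in Icc (T - U / 2) (T + U / 2), ‖Z1 ((2 : ℝ) + y * I)‖ ^ (2 * k) * wt T U y := by
    refine setIntegral_mono_on (integrableOn_const (μ := volume) (by simp) enorm_ne_top) hi.integrableOn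
      measurableSet_Icc hpt
  have h2 : ∫ y in Icc (T - U / 2) (T + U / 2), ‖Z1 ((2 : ℝ) + y * I)‖ ^ (2 * k) * wt T U y ≤
      PP k T U 2 :=
    setIntegral_le_integral hi (Eventually.of_forall fun y =>
      mul_nonneg (by positivity) (wt_pos _ _ _).le)
  rw [setIntegral_const, Measure.real, Real.volume_Icc, ENNReal.toReal_ofReal (by linarith),
    smul_eq_mul] at h1
  refine (le_trans (le_of_eq ?_) h1).trans h2
  rw [div_pow, div_pow]
  ring

end

end Q97.MM
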