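import Mathlib

set_option autoImplicit false

/-!
# Limits of Laplace transforms of probability measures on the line
-/

namespace Q97.MM

open MeasureTheory Filter Topology Set ProbabilityTheory

theorem exp_integrable_of_lintegral {μ : Measure ℝ} {a C : ℝ}
    (h : ∫⁻ u, ENNReal.ofReal (Real.exp (-(a * u))) ∂μ ≤ ENNReal.ofReal C) :
    Integrable (fun u => Real.exp (-(a * u))) μ := by
  refine ⟨by fun_prop, ?_⟩
  rw [hasFiniteIntegral_iff_ofReal (Eventually.of_forall fun u => (Real.exp_pos _).le)]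
  exact h.trans_lt ENNReal.ofReal_lt_top

theorem lintegral_of_integrable {μ : Measure ℝ} {a : ℝ}
    (h : Integrable (fun u => Real.exp (-(a * u))) μ) :
    ∫⁻ u, ENNReal.ofReal (Real.exp (-(a * u))) ∂μ =
      ENNReal.ofReal (∫ u, Real.exp (-(a * u)) ∂μ) :=
  (ofReal_integral_eq_lintegral_ofReal h (Eventually.of_forall fun _ => (Real.exp_pos _).le)).symm

/-- Truncation error. -/
theorem trunc {μ : Measure ℝ} [IsProbabilityMeasure μ] {a C M : ℝ} (hM : 0 < M)
    (h1 : Integrable (fun u => Real.exp (-(a * u))) μ)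
    (h2 : Integrable (fun u => Real.exp (-(2 * a * u))) μ)
    (hC : ∫ u, Real.exp (-(2 * a * u)) ∂μ ≤ C) :
    |∫ u, Real.exp (-(a * u)) ∂μ - ∫ u, min (Real.exp (-(a * u))) M ∂μ| ≤ C / M := by
  have hmin : Integrable (fun u => min (Real.exp (-(a * u))) M) μ := by
    refine h1.mono' (by fun_prop) (Eventually.of_forall fun u => ?_)
    rw [Real.norm_eq_abs, abs_of_nonneg (le_min (Real.exp_pos _).le hM.le)]
    exact min_le_left _ _
  have h0 : 0 ≤ ∫ u, Real.exp (-(a * u)) ∂μ - ∫ u, min (Real.exp (-(a * u))) M ∂μ := by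
    rw [sub_nonneg]
    exact integral_mono hmin h1 fun u => min_le_left _ _
  rw [abs_of_nonneg h0, ← integral_sub h1 hmin]
  refine (integral_mono (h1.sub hmin) (h2.div_const M) fun u => ?_).trans ?_
  · change Real.exp (-(a * u)) - min (Real.exp (-(a * u))) M ≤ Real.exp (-(2 * a * u)) / M
    have hsq : Real.exp (-(2 * a * u)) = Real.exp (-(a * u)) * Real.exp (-(a * u)) := by
      rw [← Real.exp_add]; congr 1; ring
    rw [hsq, le_div_iff₀ hM]
    have hp := Real.exp_pos (-(a * u))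
    rcases le_total (Real.exp (-(a * u))) M with h | h
    · rw [min_eq_left h, sub_self, zero_mul]; positivity
    · rw [min_eq_right h]; nlinarith
  · rw [integral_div]
    exact div_le_div_of_nonneg_right hC hM.le

/-- Bounded Laplace transforms give tight tails. -/
theorem tail_bound {μ : Measure ℝ} {C D R : ℝ} (hC : 0 ≤ C) (hD : 0 ≤ D)
    (h1 : ∫⁻ u, ENNReal.ofReal (Real.exp (-(1 * u))) ∂μ ≤ ENNReal.ofReal C)
    (h2 : ∫⁻ u, ENNReal.ofReal (Real.exp (-((-1) * u))) ∂μ ≤ ENNReal.ofReal D) :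
    μ (Icc (-R) R)ᶜ ≤ ENNReal.ofReal ((C + D) * Real.exp (-R)) := by
  have hsub : (Icc (-R) R)ᶜ ⊆ {u : ℝ | ENNReal.ofReal (Real.exp R) ≤
      ENNReal.ofReal (Real.exp (-(1 * u))) + ENNReal.ofReal (Real.exp (-((-1) * u)))} := by
    intro u hu
    rw [mem_ofPred_eq]
    rw [mem_compl_iff, mem_Icc, not_and_or, not_le, not_le] at hu
    rcases hu with hu | hu
    · refine le_trans ?_ (self_le_add_right _ _)
      apply ENNReal.ofReal_le_ofReal
      apply Real.exp_le_exp.mpr
      linarith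
    · refine le_trans ?_ (self_le_add_left _ _)
      apply ENNReal.ofReal_le_ofReal
      apply Real.exp_le_exp.mpr
      linarith
  refine (measure_mono hsub).trans ?_
  have h3 := mul_meas_ge_le_lintegral₀ (μ := μ)
    (f := fun u => ENNReal.ofReal (Real.exp (-(1 * u))) + ENNReal.ofReal (Real.exp (-((-1) * u))))
    (by fun_prop) (ENNReal.ofReal (Real.exp R))
  have h4 : ∫⁻ u, (ENNReal.ofReal (Real.exp (-(1 * u))) +
      ENNReal.ofReal (Real.exp (-((-1) * u)))) ∂μ ≤ ENNReal.ofReal (C + D) := by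
    rw [lintegral_add_left (by fun_prop), ENNReal.ofReal_add hC hD]
    exact add_le_add h1 h2
  have h5 := h3.trans h4
  have hpos : 0 < Real.exp R := Real.exp_pos R
  rw [Real.exp_neg, ← div_eq_mul_inv, ENNReal.ofReal_div_of_pos hpos]
  rw [ENNReal.le_div_iff_mul_le (Or.inl (by simpa using hpos)) (Or.inl ENNReal.ofReal_ne_top)]
  rwa [mul_comm] at h5

/-- A sequence of probability measures with eventually bounded Laplace transforms has a
subsequence whose Laplace transforms converge to the one of a probability measure. -/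
theorem exists_limit (ν : ℕ → ProbabilityMeasure ℝ)
    (h : ∀ a : ℝ, ∃ C, ∀ᶠ j in atTop,
      ∫⁻ u, ENNReal.ofReal (Real.exp (-(a * u))) ∂(ν j : Measure ℝ) ≤ ENNReal.ofReal C) :
    ∃ φ : ℕ → ℕ, StrictMono φ ∧ ∃ μ : ProbabilityMeasure ℝ,
      (∀ a : ℝ, Integrable (fun u => Real.exp (-(a * u))) (μ : Measure ℝ)) ∧
      ∀ a : ℝ, Tendsto (fun j => ∫ u, Real.exp (-(a * u)) ∂(ν (φ j) : Measure ℝ)) atTop
        (𝓝 (∫ u, Real.exp (-(a * u)) ∂(μ : Measure ℝ))) := by
  choose C hC using h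
  have hC' : ∀ a : ℝ, ∀ᶠ j in atTop,
      ∫⁻ u, ENNReal.ofReal (Real.exp (-(a * u))) ∂(ν j : Measure ℝ) ≤
        ENNReal.ofReal (max (C a) 0) := by
    intro a
    filter_upwards [hC a] with j hj
    exact hj.trans (ENNReal.ofReal_le_ofReal (le_max_left _ _))
  obtain ⟨j0, hj0⟩ := eventually_atTop.mp ((hC' 1).and (hC' (-1)))
  -- the tail is tight
  let S : Set (ProbabilityMeasure ℝ) := {m | ∃ j, m = ν (j + j0)}
  have htight : IsTightMeasureSet {((m : ProbabilityMeasure ℝ) : Measure ℝ) | m ∈ S} := by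
    rw [isTightMeasureSet_iff_exists_isCompact_measure_compl_le]
    intro ε hε
    have hlim : Tendsto (fun R : ℝ => ENNReal.ofReal
        ((max (C 1) 0 + max (C (-1)) 0) * Real.exp (-R))) atTop (𝓝 0) := by
      have h1 : Tendsto (fun R : ℝ => (max (C 1) 0 + max (C (-1)) 0) * Real.exp (-R)) atTop
          (𝓝 0) := by
        have h2 := Real.tendsto_exp_neg_atTop_nhds_zero.const_mul
          (max (C 1) 0 + max (C (-1)) 0)
        rwa [mul_zero] at h2
      have h3 := ENNReal.tendsto_ofReal h1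
      rwa [ENNReal.ofReal_zero] at h3
    obtain ⟨R, hR⟩ := (hlim.eventually (ge_mem_nhds hε)).exists
    refine ⟨Icc (-R) R, isCompact_Icc, ?_⟩
    rintro _ ⟨m, ⟨j, rfl⟩, rfl⟩
    have h1 := hj0 (j + j0) (Nat.le_add_left _ _)
    exact (tail_bound (le_max_right _ _) (le_max_right _ _) h1.1 h1.2).trans hR
  have hcomp := isCompact_closure_of_isTightMeasureSet htight
  obtain ⟨μ, _, φ0, hφ0, hlim⟩ := hcomp.tendsto_subseq
    (x := fun j => ν (j + j0)) (fun j => subset_closure ⟨j, rfl⟩)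
  let φ : ℕ → ℕ := fun j => φ0 j + j0
  have hφ : StrictMono φ := fun i j hij => Nat.add_lt_add_right (hφ0 hij) j0
  have hlim' : Tendsto (fun j => ν (φ j)) atTop (𝓝 μ) := hlim
  have hopen : ∀ G : Set ℝ, IsOpen G →
      (μ : Measure ℝ) G ≤ atTop.liminf (fun j => (ν (φ j) : Measure ℝ) G) :=
    fun G hG => ProbabilityMeasure.le_liminf_measure_open_of_tendsto hlim' hG
  have hbd : ∀ a : ℝ, ∫⁻ u, ENNReal.ofReal (Real.exp (-(a * u))) ∂(μ : Measure ℝ) ≤
      ENNReal.ofReal (max (C a) 0) := by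
    intro a
    refine (lintegral_le_liminf_lintegral_of_forall_isOpen_measure_le_liminf_measure
      (μ := (μ : Measure ℝ)) (μs := fun j => (ν (φ j) : Measure ℝ))
      (f := fun u => Real.exp (-(a * u))) (by fun_prop) (fun u => (Real.exp_pos _).le)
      hopen).trans ?_
    refine Filter.liminf_le_of_frequently_le' ?_
    exact ((hφ.tendsto_atTop.eventually (hC' a))).frequently
  have hint : ∀ a : ℝ, Integrable (fun u => Real.exp (-(a * u))) (μ : Measure ℝ) :=
    fun a => exp_integrable_of_lintegral (hbd a)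
  refine ⟨φ, hφ, μ, hint, fun a => ?_⟩
  -- convergence
  rw [Metric.tendsto_atTop]
  intro ε hε
  set K := max (C (2 * a)) 0 with hK
  have hK0 : 0 ≤ K := le_max_right _ _
  obtain ⟨M, hM, hMε⟩ : ∃ M : ℝ, 0 < M ∧ K / M < ε / 3 := by
    refine ⟨3 * (K + 1) / ε, by positivity, ?_⟩
    rw [div_lt_div_iff₀ (by positivity) (by norm_num)]
    have : ε * (3 * (K + 1) / ε) = 3 * (K + 1) := by field_simp
    rw [this]
    linarith
  let g : BoundedContinuousFunction ℝ ℝ := BoundedContinuousFunction.ofNormedAddCommGroup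
    (fun u => min (Real.exp (-(a * u))) M) (by fun_prop) M (fun u => by
      rw [Real.norm_eq_abs, abs_of_nonneg (le_min (Real.exp_pos _).le hM.le)]
      exact min_le_right _ _)
  have hg := (ProbabilityMeasure.tendsto_iff_forall_integral_tendsto.mp hlim') g
  have hg2 : ∀ᶠ j in atTop, |∫ u, min (Real.exp (-(a * u))) M ∂(ν (φ j) : Measure ℝ) -
      ∫ u, min (Real.exp (-(a * u))) M ∂(μ : Measure ℝ)| < ε / 3 := by
    have h1 := (Metric.tendsto_nhds.mp hg) (ε / 3) (by positivity)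
    filter_upwards [h1] with j hj
    rw [Real.dist_eq] at hj
    exact hj
  have hev := (hφ.tendsto_atTop.eventually (hC' a)).and
    ((hφ.tendsto_atTop.eventually (hC' (2 * a))).and hg2)
  obtain ⟨n, hn⟩ := eventually_atTop.mp hev
  refine ⟨n, fun j hj => ?_⟩
  obtain ⟨h1, h2, h3⟩ := hn j hj
  have i1 := exp_integrable_of_lintegral h1
  have i2 := exp_integrable_of_lintegral h2
  have b2 : ∫ u, Real.exp (-(2 * a * u)) ∂(ν (φ j) : Measure ℝ) ≤ K := by
    rw [lintegral_of_integrable i2] at h2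
    exact (ENNReal.ofReal_le_ofReal_iff hK0).mp h2
  have b3 : ∫ u, Real.exp (-(2 * a * u)) ∂(μ : Measure ℝ) ≤ K := by
    have h4 := hbd (2 * a)
    rw [lintegral_of_integrable (hint (2 * a))] at h4
    exact (ENNReal.ofReal_le_ofReal_iff hK0).mp h4
  have t1 := trunc (μ := (ν (φ j) : Measure ℝ)) hM i1 i2 b2
  have t2 := trunc (μ := (μ : Measure ℝ)) hM (hint a) (hint (2 * a)) b3
  rw [Real.dist_eq]
  rw [abs_le] at t1 t2
  rw [abs_lt] at h3 ⊢
  constructor <;> linarith [t1.1, t1.2, t2.1, t2.2, h3.1, h3.2]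

end Q97.MM
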