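import Pool.Agent.Q97.MM.Nrm

set_option autoImplicit false

open MeasureTheory Filter Topology Complex Set

namespace Q97.MM

noncomputable section

variable (k : ℕ)

theorem zeta_line_cont {x : ℝ} (hx : x ≠ 1) : Continuous (fun y : ℝ => riemannZeta (x + y * I)) := by
  rw [continuous_iff_continuousAt]
  intro y
  have h1 : ContinuousAt riemannZeta (x + y * I) :=
    (differentiableAt_riemannZeta (ne_one_of_re hx y)).continuousAt
  have h2 : ContinuousAt (fun y : ℝ => (x : ℂ) + y * I) y := by fun_prop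
  exact ContinuousAt.comp (f := fun y : ℝ => (x : ℂ) + y * I) h1 h2

theorem zeta_pow_bd {x : ℝ} (h1 : 1 / 4 ≤ x) (h2 : x ≤ 3 / 4) (y : ℝ) :
    ‖riemannZeta (x + y * I)‖ ^ (2 * k) ≤ 180 ^ (2 * k) * (1 + |y|) ^ (2 * (2 * k)) := by
  have h3 := Z1_growth (y := y) h1 (by linarith)
  rw [Z1_of_ne (ne_one_of_re (by linarith) y), norm_mul] at h3
  have h4 : 1 / 4 ≤ ‖(x : ℂ) + y * I - 1‖ := by
    have := Complex.abs_re_le_norm ((x : ℂ) + y * I - 1)
    have e : ((x : ℂ) + y * I - 1).re = x - 1 := by simp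
    rw [e] at this
    refine le_trans ?_ this
    rw [abs_of_nonpos (by linarith)]
    linarith
  have h5 : ‖riemannZeta (x + y * I)‖ ≤ 180 * (1 + |y|) ^ 2 := by
    have h6 := mul_le_mul_of_nonneg_right h4 (norm_nonneg (riemannZeta (x + y * I)))
    linarith
  calc ‖riemannZeta (x + y * I)‖ ^ (2 * k) ≤ (180 * (1 + |y|) ^ 2) ^ (2 * k) := by gcongr
    _ = _ := by rw [mul_pow, ← pow_mul]

theorem JJ_integrable {T U x : ℝ} (hU : 0 < U) (hT : 0 ≤ T) (hUT : U ≤ T)
    (h1 : 1 / 4 ≤ x) (h2 : x ≤ 3 / 4) :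
    Integrable (fun y : ℝ => ‖riemannZeta (x + y * I)‖ ^ (2 * k) * wt T U y) :=
  poly_wt_integrable (2 * (2 * k)) (C₀ := 180 ^ (2 * k)) hU hT hUT
    ((zeta_line_cont (by linarith)).norm.pow _).aestronglyMeasurable (fun y => by
      rw [abs_of_nonneg (by positivity)]
      exact zeta_pow_bd k h1 h2 y)

theorem JJ_nonneg (T U x : ℝ) : 0 ≤ JJ k T U x :=
  integral_nonneg fun y => mul_nonneg (by positivity) (wt_pos _ _ _).le

theorem PP_nonneg (T U x : ℝ) : 0 ≤ PP k T U x :=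
  integral_nonneg fun y => mul_nonneg (by positivity) (wt_pos _ _ _).le

theorem Jn_nonneg {T U : ℝ} (h : Adm T U) (a : ℝ) : 0 ≤ Jn k T U a := by
  have hT : 0 < T := by linarith [h.1]
  exact div_nonneg (mul_nonneg (by positivity) (JJ_nonneg k _ _ _)) (V0_pos k h).le

theorem Gn_nonneg {T U : ℝ} (h : Adm T U) (a : ℝ) : 0 ≤ Gn k T U a :=
  div_nonneg (VI_nonneg _ _) (V0_pos k h).le

theorem near_one {ε : ℝ} (hε : 0 < ε) : ∃ d : ℝ, 0 < d ∧ ∀ r : ℝ, |r - 1| < d →
    |r ^ (2 * k) - 1| ≤ ε := by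
  have hcont : Tendsto (fun x : ℝ => x ^ (2 * k)) (𝓝 1) (𝓝 1) := by
    have := (continuous_pow (2 * k)).tendsto (1 : ℝ)
    simpa using this
  obtain ⟨d, hd, hd'⟩ := Metric.tendsto_nhds_nhds.mp hcont ε hε
  refine ⟨d, hd, fun r hr => ?_⟩
  have := hd' (x := r) (by rwa [Real.dist_eq])
  rw [Real.dist_eq] at this
  exact this.le

theorem log_div_tendsto (a : ℝ) : Tendsto (fun T : ℝ => |a / Real.log T|) atTop (𝓝 0) := by
  have h : Tendsto (fun T : ℝ => a / Real.log T) atTop (𝓝 0) :=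
    Real.tendsto_log_atTop.const_div_atTop _
  have := h.abs
  rwa [abs_zero] at this

/-- Removal of the factor `s - 1`. -/
theorem F1 (a : ℝ) {ε : ℝ} (hε : 0 < ε) :
    ∀ᶠ T : ℝ in atTop, ∀ U : ℝ, Adm T U →
      |Gn k T U a - Jn k T U a| ≤ ε * Gn k T U a + ε := by
  obtain ⟨d, hd, hd'⟩ := near_one k (half_pos hε)
  obtain ⟨c, hc, hc'⟩ := V0_lower k
  set η := min (1 / 2) (d / 8) with hη
  have hη0 : 0 < η := lt_min (by norm_num) (by positivity)
  have hη1 : η ≤ 1 / 2 := min_le_left _ _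
  have hη2 : η ≤ d / 8 := min_le_right _ _
  have hK := KK_nonneg (2 * (2 * k))
  have htail := (tail_tendsto (2 * (2 * k)) hη0).const_mul
    (2 * 180 ^ (2 * k) * KK (2 * (2 * k)) / c)
  rw [mul_zero] at htail
  have hsmall : Tendsto (fun T : ℝ => |a / Real.log T| ^ 2) atTop (𝓝 0) := by
    have := (log_div_tendsto a).pow 2
    simpa using this
  filter_upwards [htail.eventually (gt_mem_nhds hε), hsmall.eventually (gt_mem_nhds (half_pos hε)),
    (log_div_tendsto a).eventually (gt_mem_nhds (show (0 : ℝ) < 1 / 4 by norm_num)),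
    eventually_ge_atTop (8 / d)] with T h1 h2 h3 h4 U h
  have hT : 0 < T := by linarith [h.1]
  have hU := h.pos
  have hL := h.log
  have hV0 := V0_pos k h
  set x := 1 / 2 + a / Real.log T with hx
  have hx1 : 1 / 4 ≤ x := by linarith [(abs_lt.mp h3).1]
  have hx2 : x ≤ 3 / 4 := by linarith [(abs_lt.mp h3).2]
  set E := Real.exp (-((η * Real.log T) ^ 2 / 2)) with hE
  have hT1 : 1 ≤ T ^ (2 * k) := one_le_pow₀ (by linarith [h.1])
  have hpq : ∀ y : ℝ, |y - T| ≤ η * T →
      |‖Z1 (x + y * I)‖ ^ (2 * k) - T ^ (2 * k) * ‖riemannZeta (x + y * I)‖ ^ (2 * k)| ≤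
        ε / 2 * ‖Z1 (x + y * I)‖ ^ (2 * k) := by
    intro y hy
    have hy' : |y - T| ≤ 1 / 2 * T := hy.trans (mul_le_mul_of_nonneg_right hη1 hT.le)
    have hy1 : T / 2 ≤ y := by linarith [(abs_le.mp hy').1]
    have hne := ne_one_of_re (x := x) (by linarith) y
    set m := ‖(x : ℂ) + y * I - 1‖ with hm
    have hm0 : 0 < m := norm_pos_iff.mpr (sub_ne_zero.mpr hne)
    have hm1 : y ≤ m := by
      have := Complex.abs_im_le_norm ((x : ℂ) + y * I - 1)
      have e : ((x : ℂ) + y * I - 1).im = y := by simp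
      rw [e] at this
      exact (le_abs_self y).trans this
    have hm2 : m ≤ 1 + y := by
      have e : (x : ℂ) + y * I - 1 = ((x - 1 : ℝ) : ℂ) + y * I := by push_cast; ring
      rw [hm, e]
      refine (norm_add_le _ _).trans ?_
      rw [norm_mul, Complex.norm_I, mul_one, Complex.norm_real, Complex.norm_real,
        Real.norm_eq_abs, Real.norm_eq_abs, abs_of_nonneg (by linarith : 0 ≤ y)]
      have : |x - 1| ≤ 1 := by
        rw [abs_le]
        constructor <;> linarith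
      linarith
    have hr : |T / m - 1| < d := by
      have e1 : T / m - 1 = (T - m) / m := by field_simp
      rw [e1, abs_div, abs_of_pos hm0, div_lt_iff₀ hm0]
      have e2 : |T - m| ≤ η * T + 1 := by
        rw [abs_le] at hy ⊢
        constructor <;> linarith [hy.1, hy.2]
      have e3 : 8 ≤ d * T := by
        rw [div_le_iff₀ hd] at h4
        linarith
      have e4 : η * T ≤ d / 8 * T := mul_le_mul_of_nonneg_right hη2 hT.le
      have e5 : d * (T / 2) ≤ d * m := mul_le_mul_of_nonneg_left (by linarith) hd.le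
      nlinarith
    have hdr := hd' _ hr
    have hZ : T ^ (2 * k) * ‖riemannZeta (x + y * I)‖ ^ (2 * k) =
        (T / m) ^ (2 * k) * ‖Z1 (x + y * I)‖ ^ (2 * k) := by
      rw [Z1_of_ne hne, norm_mul, ← mul_pow, ← mul_pow]
      congr 1
      rw [← hm]
      field_simp
    rw [hZ]
    have e6 : ‖Z1 (x + y * I)‖ ^ (2 * k) - (T / m) ^ (2 * k) * ‖Z1 (x + y * I)‖ ^ (2 * k) =
        -(((T / m) ^ (2 * k) - 1) * ‖Z1 (x + y * I)‖ ^ (2 * k)) := by ring
    rw [e6, abs_neg, abs_mul, abs_of_nonneg (by positivity : 0 ≤ ‖Z1 (x + y * I)‖ ^ (2 * k))]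
    exact mul_le_mul_of_nonneg_right hdr (by positivity)
  have hloc := loc (2 * (2 * k)) (T := T) (U := U) (η := η) (κ := ε / 2)
    (C₀ := T ^ (2 * k) * 180 ^ (2 * k)) h.1 hU h.2.2 hη0.le (by positivity)
    (p := fun y : ℝ => ‖Z1 (x + y * I)‖ ^ (2 * k))
    (q := fun y : ℝ => T ^ (2 * k) * ‖riemannZeta (x + y * I)‖ ^ (2 * k))
    ((Z1_cont_line x).norm.pow _).aestronglyMeasurable
    (((zeta_line_cont (by linarith)).norm.pow _).aestronglyMeasurable.const_mul _)
    (fun y => by positivity)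
    (fun y => by
      rw [abs_of_nonneg (by positivity)]
      refine (Z1_pow_bd k hx1 (by linarith) y).trans ?_
      apply mul_le_mul_of_nonneg_right _ (by positivity)
      calc (45 : ℝ) ^ (2 * k) ≤ 180 ^ (2 * k) := by gcongr; norm_num
        _ ≤ T ^ (2 * k) * 180 ^ (2 * k) := le_mul_of_one_le_left (by positivity) hT1)
    (fun y => by
      rw [abs_of_nonneg (by positivity), mul_assoc]
      exact mul_le_mul_of_nonneg_left (zeta_pow_bd k hx1 hx2 y) (by positivity))
    hpq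
  have e1 : ∫ y : ℝ, ‖Z1 (x + y * I)‖ ^ (2 * k) * wt T U y = PP k T U x := rfl
  have e2 : ∫ y : ℝ, (T ^ (2 * k) * ‖riemannZeta (x + y * I)‖ ^ (2 * k)) * wt T U y =
      T ^ (2 * k) * JJ k T U x := by
    unfold JJ
    rw [← integral_const_mul]
    refine integral_congr_ae (Eventually.of_forall fun y => ?_)
    simp only [mul_assoc]
  rw [e1, e2] at hloc
  -- divide by `V0`
  set p := PP k T U x / V0 k T U with hp
  have hp0 : 0 ≤ p := div_nonneg (PP_nonneg k _ _ _) hV0.le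
  have hJ : Jn k T U a = T ^ (2 * k) * JJ k T U x / V0 k T U := rfl
  have hG : Gn k T U a = Real.exp ((a / Real.log T) ^ 2 / U ^ 2) * p := by
    unfold Gn
    rw [VI_eq, hp, ← hx, mul_div_assoc]
    congr 3
    rw [hx]
    ring
  have h5 : |p - Jn k T U a| ≤ ε / 2 * p + ε := by
    rw [hJ, hp, ← sub_div, abs_div, abs_of_pos hV0, div_le_iff₀ hV0]
    have e3 : (ε / 2 * (PP k T U x / V0 k T U) + ε) * V0 k T U =
        ε / 2 * PP k T U x + ε * V0 k T U := by
      field_simp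
    rw [e3]
    refine hloc.trans (add_le_add le_rfl ?_)
    have e4 := hc' T U h
    have e5 : 2 * (T ^ (2 * k) * 180 ^ (2 * k)) * (1 + T) ^ (2 * (2 * k)) * E *
        (U * KK (2 * (2 * k))) = (2 * 180 ^ (2 * k) * KK (2 * (2 * k)) / c *
          ((1 + T) ^ (2 * (2 * k)) * E)) * (c * (T ^ (2 * k) * U)) := by
      field_simp
    rw [e5]
    calc _ ≤ ε * (c * (T ^ (2 * k) * U)) := mul_le_mul_of_nonneg_right h1.le (by positivity)
      _ ≤ ε * V0 k T U := mul_le_mul_of_nonneg_left e4 hε.le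
  -- the factor `exp`
  set z := (a / Real.log T) ^ 2 / U ^ 2 with hz
  have hz0 : 0 ≤ z := by positivity
  have hz1 : z ≤ ε / 2 := by
    have : z ≤ (a / Real.log T) ^ 2 := div_le_self (by positivity) (by nlinarith [h.2.1])
    rw [sq_abs] at h2
    linarith
  have h6 : p ≤ Gn k T U a := by
    rw [hG]
    exact le_mul_of_one_le_left hp0 (Real.one_le_exp hz0)
  have h7 : Gn k T U a - p ≤ ε / 2 * Gn k T U a := by
    have e8 : p = Real.exp (-z) * Gn k T U a := by
      rw [hG, ← mul_assoc, ← Real.exp_add, neg_add_cancel, Real.exp_zero, one_mul]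
    have e9 := Real.add_one_le_exp (-z)
    have hG0 := Gn_nonneg k h a
    rw [e8]
    nlinarith
  rw [abs_le] at h5 ⊢
  have hG0 := Gn_nonneg k h a
  constructor
  · nlinarith [h5.1]
  · nlinarith [h5.2]

/-- The functional equation for the moments. -/
theorem F2 {a : ℝ} (ha : 0 ≤ a) {ε : ℝ} (hε : 0 < ε) :
    ∀ᶠ T : ℝ in atTop, ∀ U : ℝ, Adm T U →
      |Real.exp (2 * k * a) * Jn k T U a - Jn k T U (-a)| ≤
        ε * (Real.exp (2 * k * a) * Jn k T U a) + ε := by
  obtain ⟨d, hd, hd'⟩ := near_one k hε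
  obtain ⟨c, hc, hc'⟩ := V0_lower k
  have hK := KK_nonneg (2 * (2 * k))
  have htail := (tail_tendsto (2 * (2 * k)) (η := 1 / 2) (by norm_num)).const_mul
    (2 * (Real.exp (2 * k * a) * 180 ^ (2 * k)) * KK (2 * (2 * k)) / c)
  rw [mul_zero] at htail
  filter_upwards [htail.eventually (gt_mem_nhds hε), XX_scaled ha (half_pos hd),
    (log_div_tendsto a).eventually (gt_mem_nhds (show (0 : ℝ) < 1 / 4 by norm_num)),
    eventually_ge_atTop 28] with T h1 h2 h3 h4 U h
  have hT : 0 < T := by linarith [h.1]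
  have hU := h.pos
  have hL := h.log
  have hV0 := V0_pos k h
  set δ := a / Real.log T with hδ
  have hd1 := abs_lt.mp h3
  set E := Real.exp (-((1 / 2 * Real.log T) ^ 2 / 2)) with hE
  set A := Real.exp (2 * k * a) with hA
  have hA0 : 0 < A := Real.exp_pos _
  have hA1 : 1 ≤ A := Real.one_le_exp (by positivity)
  have hpq : ∀ y : ℝ, |y - T| ≤ 1 / 2 * T →
      |A * ‖riemannZeta (((1 / 2 + δ : ℝ) : ℂ) + y * I)‖ ^ (2 * k) -
        ‖riemannZeta (((1 / 2 - δ : ℝ) : ℂ) + y * I)‖ ^ (2 * k)| ≤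
        ε * (A * ‖riemannZeta (((1 / 2 + δ : ℝ) : ℂ) + y * I)‖ ^ (2 * k)) := by
    intro y hy
    have hy1 : T / 2 ≤ y := by linarith [(abs_le.mp hy).1]
    have hX := h2 y (by linarith)
    rw [zeta_sym δ (by linarith), mul_pow]
    set N := ‖H345.XX (((1 / 2 + δ : ℝ) : ℂ) + (y : ℂ) * I)‖ with hN
    have hdr := hd' (N * Real.exp (-a)) (by
      refine lt_of_le_of_lt hX ?_
      linarith)
    have e1 : N ^ (2 * k) = A * (N * Real.exp (-a)) ^ (2 * k) := by
      rw [mul_pow, ← Real.exp_nat_mul, hA]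
      have e2 : Real.exp (2 * k * a) * Real.exp (((2 * k : ℕ) : ℝ) * -a) = 1 := by
        rw [← Real.exp_add]
        push_cast
        rw [show 2 * (k : ℝ) * a + 2 * k * -a = 0 by ring, Real.exp_zero]
      calc N ^ (2 * k) = N ^ (2 * k) * (Real.exp (2 * k * a) * Real.exp (((2 * k : ℕ) : ℝ) * -a)) := by
            rw [e2, mul_one]
        _ = _ := by ring
    rw [e1]
    set Z := ‖riemannZeta (((1 / 2 + δ : ℝ) : ℂ) + y * I)‖ ^ (2 * k) with hZ
    have hZ0 : 0 ≤ Z := by positivity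
    have e6 : A * Z - A * (N * Real.exp (-a)) ^ (2 * k) * Z =
        -(((N * Real.exp (-a)) ^ (2 * k) - 1) * (A * Z)) := by ring
    rw [e6, abs_neg, abs_mul, abs_of_nonneg (by positivity : 0 ≤ A * Z)]
    exact mul_le_mul_of_nonneg_right hdr (by positivity)
  have hloc := loc (2 * (2 * k)) (T := T) (U := U) (η := 1 / 2) (κ := ε)
    (C₀ := A * 180 ^ (2 * k)) h.1 hU h.2.2 (by norm_num) hε.le
    (p := fun y : ℝ => A * ‖riemannZeta (((1 / 2 + δ : ℝ) : ℂ) + y * I)‖ ^ (2 * k))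
    (q := fun y : ℝ => ‖riemannZeta (((1 / 2 - δ : ℝ) : ℂ) + y * I)‖ ^ (2 * k))
    (((zeta_line_cont (by linarith)).norm.pow _).aestronglyMeasurable.const_mul _)
    ((zeta_line_cont (by linarith)).norm.pow _).aestronglyMeasurable
    (fun y => by positivity)
    (fun y => by
      rw [abs_of_nonneg (by positivity), mul_assoc]
      exact mul_le_mul_of_nonneg_left (zeta_pow_bd k (by linarith) (by linarith) y) hA0.le)
    (fun y => by
      rw [abs_of_nonneg (by positivity), mul_assoc]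
      refine (zeta_pow_bd k (by linarith) (by linarith) y).trans ?_
      exact le_mul_of_one_le_left (by positivity) hA1)
    hpq
  have e1 : ∫ y : ℝ, (A * ‖riemannZeta (((1 / 2 + δ : ℝ) : ℂ) + y * I)‖ ^ (2 * k)) * wt T U y =
      A * JJ k T U (1 / 2 + δ) := by
    unfold JJ
    rw [← integral_const_mul]
    refine integral_congr_ae (Eventually.of_forall fun y => ?_)
    simp only [mul_assoc]
  have e2 : ∫ y : ℝ, ‖riemannZeta (((1 / 2 - δ : ℝ) : ℂ) + y * I)‖ ^ (2 * k) * wt T U y =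
      JJ k T U (1 / 2 - δ) := rfl
  rw [e1, e2] at hloc
  have hJ : Jn k T U a = T ^ (2 * k) * JJ k T U (1 / 2 + δ) / V0 k T U := rfl
  have hJ' : Jn k T U (-a) = T ^ (2 * k) * JJ k T U (1 / 2 - δ) / V0 k T U := by
    unfold Jn
    rw [neg_div, ← sub_eq_add_neg]
  set S := T ^ (2 * k) / V0 k T U with hS
  have hS0 : 0 ≤ S := by positivity
  have e3 : A * Jn k T U a - Jn k T U (-a) = S * (A * JJ k T U (1 / 2 + δ) - JJ k T U (1 / 2 - δ)) := by
    rw [hJ, hJ', hS]
    ring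
  have e3' : ε * (A * Jn k T U a) = S * (ε * (A * JJ k T U (1 / 2 + δ))) := by
    rw [hJ, hS]
    ring
  rw [e3, e3', abs_mul, abs_of_nonneg hS0]
  refine (mul_le_mul_of_nonneg_left hloc hS0).trans ?_
  rw [mul_add]
  refine add_le_add le_rfl ?_
  have e4 := hc' T U h
  have e5 : S * (2 * (A * 180 ^ (2 * k)) * (1 + T) ^ (2 * (2 * k)) * E *
        (U * KK (2 * (2 * k)))) = (2 * (A * 180 ^ (2 * k)) * KK (2 * (2 * k)) / c *
          ((1 + T) ^ (2 * (2 * k)) * E)) * (c * (T ^ (2 * k) * U)) / V0 k T U := by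
    rw [hS]
    field_simp
  rw [e5, div_le_iff₀ hV0]
  calc _ ≤ ε * (c * (T ^ (2 * k) * U)) := mul_le_mul_of_nonneg_right h1.le (by positivity)
    _ ≤ ε * V0 k T U := mul_le_mul_of_nonneg_left e4 hε.le

end

end Q97.MM
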