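import Pool.Agent.Q97.MM.Zg

set_option autoImplicit false

open MeasureTheory Filter Topology Complex

namespace Q97.MM

noncomputable section

theorem gauss_poly_integrable (A : ℕ) :
    Integrable (fun x : ℝ => (1 + |x|) ^ A * Real.exp (-(x ^ 2 / 2))) := by
  obtain ⟨C, hC0, hC⟩ := poly_le_exp A (1 / 4) (by norm_num)
  refine ((integrable_exp_neg_mul_sq (b := 1 / 4) (by norm_num)).const_mul C).mono'
    (by fun_prop) (Eventually.of_forall fun x => ?_)
  rw [Real.norm_of_nonneg (by positivity)]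
  calc (1 + |x|) ^ A * Real.exp (-(x ^ 2 / 2))
      ≤ C * Real.exp (1 / 4 * x ^ 2) * Real.exp (-(x ^ 2 / 2)) := by
        gcongr
        exact hC x
    _ = C * Real.exp (-(1 / 4) * x ^ 2) := by
        rw [mul_assoc, ← Real.exp_add]
        congr 2
        ring

/-- the constant -/
def KK (A : ℕ) : ℝ := ∫ x : ℝ, (1 + |x|) ^ A * Real.exp (-(x ^ 2 / 2))

theorem KK_nonneg (A : ℕ) : 0 ≤ KK A := integral_nonneg fun x => by positivity

theorem scaled_integrable (A : ℕ) (T : ℝ) {U : ℝ} (hU : 0 < U) :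
    Integrable (fun y : ℝ => (1 + |(y - T) / U|) ^ A * Real.exp (-(((y - T) / U) ^ 2 / 2))) := by
  have h1 := (gauss_poly_integrable A).comp_div hU.ne'
  exact h1.comp_sub_right T

theorem scaled_integral (A : ℕ) (T : ℝ) {U : ℝ} (hU : 0 < U) :
    ∫ y : ℝ, (1 + |(y - T) / U|) ^ A * Real.exp (-(((y - T) / U) ^ 2 / 2)) = U * KK A := by
  have h1 := integral_sub_right_eq_self
    (fun y : ℝ => (1 + |y / U|) ^ A * Real.exp (-((y / U) ^ 2 / 2))) (μ := volume) T
  rw [h1]
  have h2 := Measure.integral_comp_div (fun x : ℝ => (1 + |x|) ^ A * Real.exp (-(x ^ 2 / 2))) U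
  rw [h2, abs_of_pos hU, smul_eq_mul, KK]

theorem abs_le_scaled {T U : ℝ} (hU : 0 < U) (hT : 0 ≤ T) (hUT : U ≤ T) (y : ℝ) :
    1 + |y| ≤ (1 + T) * (1 + |(y - T) / U|) := by
  have h1 : |y - T| = U * |(y - T) / U| := by
    rw [abs_div, abs_of_pos hU]
    field_simp
  have h2 : |y| ≤ T + |y - T| := by
    have := abs_add_le T (y - T)
    rw [add_sub_cancel, abs_of_nonneg hT] at this
    exact this
  have h3 : U * |(y - T) / U| ≤ T * |(y - T) / U| := mul_le_mul_of_nonneg_right hUT (abs_nonneg _)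
  have h4 := abs_nonneg ((y - T) / U)
  nlinarith

theorem poly_wt_integrable (A : ℕ) {T U : ℝ} (hU : 0 < U) (hT : 0 ≤ T) (hUT : U ≤ T) {p : ℝ → ℝ}
    {C₀ : ℝ} (hp : AEStronglyMeasurable p volume) (hpb : ∀ y, |p y| ≤ C₀ * (1 + |y|) ^ A) :
    Integrable (fun y => p y * wt T U y) := by
  have hC₀ : 0 ≤ C₀ := by
    have := (abs_nonneg _).trans (hpb 0)
    simpa using this
  refine ((scaled_integrable A T hU).const_mul (C₀ * (1 + T) ^ A)).mono' ?_
    (Eventually.of_forall fun y => ?_)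
  · refine hp.mul ?_
    have : Continuous (wt T U) := by unfold wt; fun_prop
    exact this.aestronglyMeasurable
  · rw [Real.norm_eq_abs, abs_mul, abs_of_pos (wt_pos _ _ _)]
    have h1 := hpb y
    have h2 := abs_le_scaled hU hT hUT y
    have h3 : wt T U y ≤ Real.exp (-(((y - T) / U) ^ 2 / 2)) := by
      unfold wt
      apply Real.exp_le_exp.2
      nlinarith [sq_nonneg ((y - T) / U)]
    calc |p y| * wt T U y ≤ (C₀ * ((1 + T) * (1 + |(y - T) / U|)) ^ A) *
          Real.exp (-(((y - T) / U) ^ 2 / 2)) := by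
          have h4 : C₀ * (1 + |y|) ^ A ≤ C₀ * ((1 + T) * (1 + |(y - T) / U|)) ^ A := by gcongr
          exact mul_le_mul (h1.trans h4) h3 (wt_pos _ _ _).le (by positivity)
      _ = _ := by rw [mul_pow]; ring

/-- Comparison of two weighted means from a comparison on the main range. -/
theorem loc (A : ℕ) {T U η κ C₀ : ℝ} (hT : 3 ≤ T) (hU : 0 < U) (hUT : U ≤ T / Real.log T)
    (hη : 0 ≤ η) (hκ : 0 ≤ κ) {p q : ℝ → ℝ} (hp : AEStronglyMeasurable p volume)
    (hq : AEStronglyMeasurable q volume) (hp0 : ∀ y, 0 ≤ p y)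
    (hpb : ∀ y, |p y| ≤ C₀ * (1 + |y|) ^ A) (hqb : ∀ y, |q y| ≤ C₀ * (1 + |y|) ^ A)
    (hpq : ∀ y, |y - T| ≤ η * T → |p y - q y| ≤ κ * p y) :
    |(∫ y, p y * wt T U y) - ∫ y, q y * wt T U y| ≤
      κ * (∫ y, p y * wt T U y) +
        2 * C₀ * (1 + T) ^ A * Real.exp (-((η * Real.log T) ^ 2 / 2)) * (U * KK A) := by
  have hlog : 1 ≤ Real.log T := by
    have h1 : Real.exp 1 ≤ T := by linarith [Real.exp_one_lt_d9]
    have h2 := Real.log_le_log (Real.exp_pos 1) h1
    rwa [Real.log_exp] at h2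
  have hT0 : 0 ≤ T := by linarith
  have hUT' : U ≤ T := hUT.trans (div_le_self hT0 hlog)
  have hC₀ : 0 ≤ C₀ := by
    have := (abs_nonneg _).trans (hpb 0)
    simpa using this
  have ip := poly_wt_integrable A hU hT0 hUT' hp hpb
  have iq := poly_wt_integrable A hU hT0 hUT' hq hqb
  have is := scaled_integrable A T hU
  set E := Real.exp (-((η * Real.log T) ^ 2 / 2)) with hE
  have hpt : ∀ y, ‖p y * wt T U y - q y * wt T U y‖ ≤ κ * (p y * wt T U y) +
      2 * C₀ * (1 + T) ^ A * E *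
        ((1 + |(y - T) / U|) ^ A * Real.exp (-(((y - T) / U) ^ 2 / 2))) := by
    intro y
    have hw := wt_pos T U y
    rw [← sub_mul, norm_mul, Real.norm_of_nonneg hw.le, Real.norm_eq_abs]
    by_cases h : |y - T| ≤ η * T
    · have h1 := mul_le_mul_of_nonneg_right (hpq y h) hw.le
      have h2 : 0 ≤ 2 * C₀ * (1 + T) ^ A * E *
        ((1 + |(y - T) / U|) ^ A * Real.exp (-(((y - T) / U) ^ 2 / 2))) := by positivity
      linarith
    · push Not at h
      have h1 : |p y - q y| ≤ 2 * C₀ * (1 + |y|) ^ A := by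
        have := abs_sub (p y) (q y)
        linarith [hpb y, hqb y]
      have h2 := abs_le_scaled hU hT0 hUT' y
      have h3 : wt T U y ≤ E * Real.exp (-(((y - T) / U) ^ 2 / 2)) := by
        rw [wt, hE, ← Real.exp_add]
        apply Real.exp_le_exp.2
        have h4 : η * Real.log T ≤ |(y - T) / U| := by
          rw [abs_div, abs_of_pos hU, le_div_iff₀ hU]
          have h5 : U * Real.log T ≤ T := by
            rwa [le_div_iff₀ (by linarith)] at hUT
          nlinarith
        have h6 : (η * Real.log T) ^ 2 ≤ ((y - T) / U) ^ 2 := by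
          rw [← sq_abs ((y - T) / U)]
          exact pow_le_pow_left₀ (by positivity) h4 2
        linarith
      have h7 : |p y - q y| ≤ 2 * C₀ * ((1 + T) * (1 + |(y - T) / U|)) ^ A := by
        refine h1.trans ?_
        gcongr
      have h8 : 0 ≤ κ * (p y * wt T U y) := mul_nonneg hκ (mul_nonneg (hp0 y) hw.le)
      have h9 : |p y - q y| * wt T U y ≤ (2 * C₀ * ((1 + T) * (1 + |(y - T) / U|)) ^ A) *
          (E * Real.exp (-(((y - T) / U) ^ 2 / 2))) := mul_le_mul h7 h3 hw.le (by positivity)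
      have h10 : (2 * C₀ * ((1 + T) * (1 + |(y - T) / U|)) ^ A) *
          (E * Real.exp (-(((y - T) / U) ^ 2 / 2))) = 2 * C₀ * (1 + T) ^ A * E *
        ((1 + |(y - T) / U|) ^ A * Real.exp (-(((y - T) / U) ^ 2 / 2))) := by
        rw [mul_pow]; ring
      linarith
  rw [← integral_sub ip iq, ← Real.norm_eq_abs]
  have h1 := norm_integral_le_of_norm_le ((ip.const_mul κ).add (is.const_mul
    (2 * C₀ * (1 + T) ^ A * E))) (Eventually.of_forall hpt)
  refine h1.trans (le_of_eq ?_)
  have h2 := integral_add (ip.const_mul κ) (is.const_mul (2 * C₀ * (1 + T) ^ A * E))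
  rw [integral_const_mul, integral_const_mul, scaled_integral A T hU] at h2
  exact h2

/-- The tail is smaller than any power. -/
theorem tail_tendsto (A : ℕ) {η : ℝ} (hη : 0 < η) :
    Tendsto (fun T : ℝ => (1 + T) ^ A * Real.exp (-((η * Real.log T) ^ 2 / 2))) atTop (𝓝 0) := by
  have h1 : Tendsto (fun l : ℝ => Real.exp ((A + A : ℝ) * l - (η * l) ^ 2 / 2)) atTop (𝓝 0) := by
    apply Real.tendsto_exp_atBot.comp
    have e : (fun l : ℝ => (A + A : ℝ) * l - (η * l) ^ 2 / 2) =
        fun l => -(l * (l * (η ^ 2 / 2) - (A + A : ℝ))) := by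
      funext l; ring
    rw [e]
    apply tendsto_neg_atTop_atBot.comp
    apply tendsto_id.atTop_mul_atTop₀
    have h2 : Tendsto (fun l : ℝ => l * (η ^ 2 / 2)) atTop atTop :=
      tendsto_id.atTop_mul_const (by positivity)
    exact tendsto_atTop_add_const_right _ _ h2
  have h3 := h1.comp Real.tendsto_log_atTop
  refine squeeze_zero' ?_ ?_ h3
  · filter_upwards [eventually_ge_atTop 0] with T hT
    positivity
  · filter_upwards [eventually_ge_atTop 2] with T hT
    have hT0 : 0 < T := by linarith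
    simp only [Function.comp]
    have h4 : (1 + T) ^ A ≤ Real.exp ((A + A : ℝ) * Real.log T) := by
      have h5 : Real.exp ((A + A : ℝ) * Real.log T) = (T ^ 2) ^ A := by
        have h6 : ((A + A : ℝ) * Real.log T) = ((2 * A : ℕ) : ℝ) * Real.log T := by
          push_cast; ring
        rw [h6, Real.exp_nat_mul, Real.exp_log hT0, pow_mul]
      rw [h5]
      apply pow_le_pow_left₀ (by linarith)
      nlinarith
    calc (1 + T) ^ A * Real.exp (-((η * Real.log T) ^ 2 / 2))
        ≤ Real.exp ((A + A : ℝ) * Real.log T) * Real.exp (-((η * Real.log T) ^ 2 / 2)) := by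
          gcongr
      _ = _ := by rw [← Real.exp_add]; rfl

end

end Q97.MM
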