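import Pool.Agent.Q97.MM.Low
import Pool.Agent.Q97.MM.XXb

set_option autoImplicit false

open MeasureTheory Filter Topology Complex Set

namespace Q97.MM

noncomputable section

/-- admissible windows -/
def Adm (T U : ℝ) : Prop := 3 ≤ T ∧ 1 ≤ U ∧ U ≤ T / Real.log T

theorem Adm.log {T U : ℝ} (h : Adm T U) : 1 ≤ Real.log T := by
  have h1 : Real.exp 1 ≤ T := by linarith [Real.exp_one_lt_d9, h.1]
  have h2 := Real.log_le_log (Real.exp_pos 1) h1
  rwa [Real.log_exp] at h2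

theorem Adm.le {T U : ℝ} (h : Adm T U) : U ≤ T :=
  h.2.2.trans (div_le_self (by linarith [h.1]) h.log)

theorem Adm.pos {T U : ℝ} (h : Adm T U) : 0 < U := by linarith [h.2.1]

variable (k : ℕ)

/-- the mean on the critical line -/
def V0 (T U : ℝ) : ℝ := VI (FF k T U) (1 / 2)

/-- normalised mean -/
def Gn (T U a : ℝ) : ℝ := VI (FF k T U) (1 / 2 + a / Real.log T) / V0 k T U

/-- normalised moment -/
def Jn (T U a : ℝ) : ℝ := T ^ (2 * k) * JJ k T U (1 / 2 + a / Real.log T) / V0 k T U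

theorem VI_two_lower : ∃ c : ℝ, 0 < c ∧ ∀ T U : ℝ, Adm T U →
    c * (T ^ (2 * k) * U) ≤ VI (FF k T U) 2 := by
  refine ⟨(1 / 6) ^ (2 * k) * Real.exp (-1), by positivity, fun T U h => ?_⟩
  refine (PP_lower k h.1 h.pos h.le).trans ?_
  rw [VI_eq]
  have h1 : 0 ≤ PP k T U 2 := integral_nonneg fun y => mul_nonneg (by positivity) (wt_pos _ _ _).le
  have h2 : 1 ≤ Real.exp ((2 - 1 / 2) ^ 2 / U ^ 2) := Real.one_le_exp (by positivity)
  nlinarith

theorem VI_upper {B x : ℝ} (h1 : 1 < x) (h2 : x ≤ 3)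
    (hB : ∀ y : ℝ, ‖riemannZeta (x + (y : ℂ) * I)‖ ≤ B) : ∃ C : ℝ, 0 < C ∧ ∀ T U : ℝ, Adm T U →
    VI (FF k T U) x ≤ C * (T ^ (2 * k) * U) := by
  have hB0 : 0 ≤ B := (norm_nonneg _).trans (hB 0)
  refine ⟨Real.exp (25 / 4) * ((6 * B) ^ (2 * k) * KK (2 * k) + 1),
    by have := KK_nonneg (2 * k); positivity, fun T U h => ?_⟩
  have hp := PP_upper k h1 h2 hB h.1 h.pos h.le
  rw [VI_eq]
  have h3 : Real.exp ((x - 1 / 2) ^ 2 / U ^ 2) ≤ Real.exp (25 / 4) := by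
    apply Real.exp_le_exp.2
    have hU := h.2.1
    have h4 : (x - 1 / 2) ^ 2 / U ^ 2 ≤ (x - 1 / 2) ^ 2 := by
      apply div_le_self (by positivity)
      nlinarith
    nlinarith
  have hK := KK_nonneg (2 * k)
  have hT : 0 ≤ T := by linarith [h.1]
  have hU := h.pos
  have h5 : PP k T U x ≤ ((6 * B) ^ (2 * k) * KK (2 * k) + 1) * (T ^ (2 * k) * U) := by
    refine hp.trans ?_
    apply mul_le_mul_of_nonneg_right _ (by positivity)
    linarith
  calc Real.exp ((x - 1 / 2) ^ 2 / U ^ 2) * PP k T U x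
      ≤ Real.exp (25 / 4) * (((6 * B) ^ (2 * k) * KK (2 * k) + 1) * (T ^ (2 * k) * U)) :=
        mul_le_mul h3 h5 (integral_nonneg fun y => mul_nonneg (by positivity) (wt_pos _ _ _).le)
          (Real.exp_pos _).le
    _ = _ := by ring

theorem V0_pos {T U : ℝ} (h : Adm T U) : 0 < V0 k T U := by
  obtain ⟨c, hc, hc'⟩ := VI_two_lower k
  obtain ⟨M, δ, hM, hδ, hbd⟩ := FF_bd k T h.pos
  have hT : 0 < T := by linarith [h.1]
  have hU := h.pos
  exact VI_pos_of_pos (FF_differentiable k T U) hδ hM hbd (by norm_num) (by norm_num)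
    (x := 2) (by norm_num) (by norm_num) (lt_of_lt_of_le (by positivity) (hc' T U h))

theorem V0_lower : ∃ c : ℝ, 0 < c ∧ ∀ T U : ℝ, Adm T U → c * (T ^ (2 * k) * U) ≤ V0 k T U := by
  obtain ⟨c, hc, hc'⟩ := VI_two_lower k
  obtain ⟨B, hB, hB'⟩ := zeta_three_bd
  obtain ⟨C, hC, hC'⟩ := VI_upper k (x := 3) (by norm_num) (by norm_num) hB'
  refine ⟨(c / C ^ (3 / 5 : ℝ)) ^ (5 / 2 : ℝ), by positivity, fun T U h => ?_⟩
  obtain ⟨M, δ, hM, hδ, hbd⟩ := FF_bd k T h.pos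
  have hT : 0 < T := by linarith [h.1]
  have hU := h.pos
  have hV0 := V0_pos k h
  have hN : 0 < T ^ (2 * k) * U := by positivity
  set N := T ^ (2 * k) * U with hNdef
  have h2 := hc' T U h
  have h3 := hC' T U h
  have h3p : 0 < VI (FF k T U) 3 :=
    VI_pos_of_pos (FF_differentiable k T U) hδ hM hbd (by norm_num) (by norm_num)
      (x := 2) (by norm_num) (by norm_num) (lt_of_lt_of_le (by positivity) h2)
  have hlc := logconv (FF_differentiable k T U) hδ hM hbd (x₁ := 1 / 2) (x₂ := 3) (θ := 3 / 5)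
    (by norm_num) (by norm_num) (by norm_num) (by norm_num) (by norm_num) (by norm_num) hV0 h3p
  have e1 : (1 - 3 / 5 : ℝ) * (1 / 2) + 3 / 5 * 3 = 2 := by norm_num
  have e2 : (1 - 3 / 5 : ℝ) = 2 / 5 := by norm_num
  rw [e1, e2] at hlc
  change VI (FF k T U) 2 ≤ V0 k T U ^ (2 / 5 : ℝ) * VI (FF k T U) 3 ^ (3 / 5 : ℝ) at hlc
  have h4 : VI (FF k T U) 3 ^ (3 / 5 : ℝ) ≤ C ^ (3 / 5 : ℝ) * N ^ (3 / 5 : ℝ) := by
    rw [← Real.mul_rpow hC.le hN.le]
    exact Real.rpow_le_rpow h3p.le h3 (by norm_num)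
  have h5 : c * N ≤ V0 k T U ^ (2 / 5 : ℝ) * (C ^ (3 / 5 : ℝ) * N ^ (3 / 5 : ℝ)) :=
    h2.trans (hlc.trans (mul_le_mul_of_nonneg_left h4 (by positivity)))
  have h6 : c / C ^ (3 / 5 : ℝ) * N ^ (2 / 5 : ℝ) ≤ V0 k T U ^ (2 / 5 : ℝ) := by
    have hCp : 0 < C ^ (3 / 5 : ℝ) := Real.rpow_pos_of_pos hC _
    have hNp : 0 < N ^ (3 / 5 : ℝ) := Real.rpow_pos_of_pos hN _
    have e3 : N ^ (2 / 5 : ℝ) * N ^ (3 / 5 : ℝ) = N := by
      rw [← Real.rpow_add hN]
      norm_num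
    rw [div_mul_eq_mul_div, div_le_iff₀ hCp]
    have h7 : c * N ^ (2 / 5 : ℝ) * N ^ (3 / 5 : ℝ) ≤
        V0 k T U ^ (2 / 5 : ℝ) * C ^ (3 / 5 : ℝ) * N ^ (3 / 5 : ℝ) := by
      rw [mul_assoc, e3, mul_assoc]
      exact h5
    exact le_of_mul_le_mul_right h7 hNp
  have h8 := Real.rpow_le_rpow (by positivity) h6 (by norm_num : (0 : ℝ) ≤ 5 / 2)
  rw [← Real.rpow_mul hV0.le, Real.mul_rpow (by positivity) (by positivity),
    ← Real.rpow_mul hN.le] at h8
  norm_num at h8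
  exact h8

/-- The normalised mean is asymptotically at most `1` to the right. -/
theorem Gn_le {a : ℝ} (ha : 0 ≤ a) {ε : ℝ} (hε : 0 < ε) :
    ∀ᶠ T : ℝ in atTop, ∀ U : ℝ, Adm T U → Gn k T U a ≤ 1 + ε := by
  obtain ⟨c, hc, hc'⟩ := V0_lower k
  obtain ⟨C, hC, hC'⟩ := VI_upper k (x := 2) (by norm_num) (by norm_num) zeta_two_bd
  set B := max 1 (C / c) with hBdef
  have hB1 : 1 ≤ B := le_max_left _ _
  have hlim : Tendsto (fun T : ℝ => B ^ (2 / 3 * a / Real.log T)) atTop (𝓝 (B ^ (0 : ℝ))) := by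
    have h1 : Tendsto (fun T : ℝ => 2 / 3 * a / Real.log T) atTop (𝓝 0) :=
      Real.tendsto_log_atTop.const_div_atTop _
    exact (Real.continuousAt_const_rpow (by linarith : B ≠ 0)).tendsto.comp h1
  rw [Real.rpow_zero] at hlim
  have hlim2 : Tendsto (fun T : ℝ => 2 / 3 * a / Real.log T) atTop (𝓝 0) :=
    Real.tendsto_log_atTop.const_div_atTop _
  filter_upwards [hlim.eventually (gt_mem_nhds (show (1 : ℝ) < 1 + ε by linarith)),
    hlim2.eventually (gt_mem_nhds (show (0 : ℝ) < 1 by norm_num))] with T h1 h2 U h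
  refine le_trans ?_ h1.le
  obtain ⟨M, δ, hM, hδ, hbd⟩ := FF_bd k T h.pos
  have hT : 0 < T := by linarith [h.1]
  have hU := h.pos
  have hL := h.log
  have hV0 := V0_pos k h
  have hN : 0 < T ^ (2 * k) * U := by positivity
  have h2p : 0 < VI (FF k T U) 2 := VI_pos_of_pos (FF_differentiable k T U) hδ hM hbd
    (by norm_num) (by norm_num) (x := 1 / 2) (by norm_num) (by norm_num) hV0
  set θ := 2 / 3 * a / Real.log T with hθ
  have hθ0 : 0 ≤ θ := by positivity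
  have hlc := logconv (FF_differentiable k T U) hδ hM hbd (x₁ := 1 / 2) (x₂ := 2) (θ := θ)
    (by norm_num) (by norm_num) (by norm_num) (by norm_num) hθ0 h2.le hV0 h2p
  have e1 : (1 - θ) * (1 / 2) + θ * 2 = 1 / 2 + a / Real.log T := by
    rw [hθ]; ring
  rw [e1] at hlc
  change VI (FF k T U) (1 / 2 + a / Real.log T) ≤ V0 k T U ^ (1 - θ) * VI (FF k T U) 2 ^ θ at hlc
  have h3 : VI (FF k T U) 2 ≤ B * V0 k T U := by
    have a1 := hC' T U h
    have a2 := hc' T U h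
    have a3 : C / c * (c * (T ^ (2 * k) * U)) = C * (T ^ (2 * k) * U) := by
      field_simp
    calc VI (FF k T U) 2 ≤ C / c * (c * (T ^ (2 * k) * U)) := by rw [a3]; exact a1
      _ ≤ C / c * V0 k T U := mul_le_mul_of_nonneg_left a2 (by positivity)
      _ ≤ B * V0 k T U := mul_le_mul_of_nonneg_right (le_max_right _ _) hV0.le
  have h4 : VI (FF k T U) 2 ^ θ ≤ B ^ θ * V0 k T U ^ θ := by
    rw [← Real.mul_rpow (by linarith) hV0.le]
    exact Real.rpow_le_rpow h2p.le h3 hθ0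
  unfold Gn
  rw [div_le_iff₀ hV0]
  calc VI (FF k T U) (1 / 2 + a / Real.log T) ≤ V0 k T U ^ (1 - θ) * VI (FF k T U) 2 ^ θ := hlc
    _ ≤ V0 k T U ^ (1 - θ) * (B ^ θ * V0 k T U ^ θ) := by gcongr
    _ = B ^ θ * (V0 k T U ^ (1 - θ) * V0 k T U ^ θ) := by ring
    _ = B ^ θ * V0 k T U := by
        rw [← Real.rpow_add hV0]
        norm_num

end

end Q97.MM
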