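import Mathlib
import Pool.Agent.Helper625.Planch
import Pool.Agent.W355.LJ.Shift

set_option autoImplicit false

open MeasureTheory Filter Topology Complex FourierTransform

namespace Q97.MM

noncomputable section

/-- the function on a vertical line -/
def ln (F : ℂ → ℂ) (x : ℝ) : ℝ → ℂ := fun y => F (x + y * I)

/-- the square mean over a vertical line -/
def VI (F : ℂ → ℂ) (x : ℝ) : ℝ := ∫ y : ℝ, ‖F (x + y * I)‖ ^ 2

/-- the density of the spectral measure -/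
def dens (F : ℂ → ℂ) (c ξ : ℝ) : ℝ := ‖𝓕 (ln F c) ξ‖ ^ 2

variable {F : ℂ → ℂ} {α β M δ : ℝ}

theorem ln_continuous (hF : Differentiable ℂ F) (x : ℝ) : Continuous (ln F x) := by
  have := hF.continuous
  unfold ln
  fun_prop

theorem ln_integrable (hF : Differentiable ℂ F) (hδ : 0 < δ)
    (hbd : ∀ x y : ℝ, α ≤ x → x ≤ β → ‖F (x + y * I)‖ ≤ M * Real.exp (-δ * y ^ 2))
    {x : ℝ} (h1 : α ≤ x) (h2 : x ≤ β) : Integrable (ln F x) := by
  refine ((integrable_exp_neg_mul_sq hδ).const_mul M).mono'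
    (ln_continuous hF x).aestronglyMeasurable (Eventually.of_forall fun y => hbd x y h1 h2)

theorem ln_sq_integrable (hF : Differentiable ℂ F) (hδ : 0 < δ)
    (hbd : ∀ x y : ℝ, α ≤ x → x ≤ β → ‖F (x + y * I)‖ ≤ M * Real.exp (-δ * y ^ 2))
    {x : ℝ} (h1 : α ≤ x) (h2 : x ≤ β) : Integrable (fun y => ‖ln F x y‖ ^ 2) := by
  refine ((integrable_exp_neg_mul_sq (b := 2 * δ) (by linarith)).const_mul (M ^ 2)).mono'
    ((ln_continuous hF x).norm.pow 2).aestronglyMeasurable (Eventually.of_forall fun y => ?_)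
  have h3 := hbd x y h1 h2
  have h4 : (M * Real.exp (-δ * y ^ 2)) ^ 2 = M ^ 2 * Real.exp (-(2 * δ) * y ^ 2) := by
    rw [mul_pow, ← Real.exp_nat_mul]
    congr 2
    push_cast
    ring
  rw [Real.norm_of_nonneg (by positivity), ← h4]
  exact pow_le_pow_left₀ (norm_nonneg _) h3 2

theorem ln_memLp (hF : Differentiable ℂ F) (hδ : 0 < δ)
    (hbd : ∀ x y : ℝ, α ≤ x → x ≤ β → ‖F (x + y * I)‖ ≤ M * Real.exp (-δ * y ^ 2))
    {x : ℝ} (h1 : α ≤ x) (h2 : x ≤ β) : MemLp (ln F x) 2 := by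
  rw [memLp_two_iff_integrable_sq_norm (ln_continuous hF x).aestronglyMeasurable]
  exact ln_sq_integrable hF hδ hbd h1 h2

theorem fourier_line (F : ℂ → ℂ) (x ξ : ℝ) :
    ∫ y : ℝ, F (x + y * I) * cexp (-(2 * Real.pi * ξ * (x + y * I))) =
      Real.exp (-(2 * Real.pi * ξ * x)) * 𝓕 (ln F x) ξ := by
  rw [Real.fourier_eq']
  rw [← integral_const_mul]
  refine integral_congr_ae (Eventually.of_forall fun y => ?_)
  simp only [ln, smul_eq_mul, RCLike.inner_apply, conj_trivial]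
  have e1 : cexp (-(2 * Real.pi * ξ * (x + y * I))) =
      cexp (-(2 * Real.pi * ξ * x)) * cexp (-(2 * Real.pi * ξ * y) * I) := by
    rw [← Complex.exp_add]
    congr 1
    ring
  rw [e1, Complex.ofReal_exp]
  push_cast
  have e2 : -2 * (Real.pi : ℂ) * (ξ * y) * I = -(2 * Real.pi * ξ * y) * I := by ring
  rw [e2]
  ring

theorem fourier_shift (hF : Differentiable ℂ F) (hδ : 0 < δ) (hM : 0 ≤ M)
    (hbd : ∀ x y : ℝ, α ≤ x → x ≤ β → ‖F (x + y * I)‖ ≤ M * Real.exp (-δ * y ^ 2))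
    {x x' : ℝ} (h1 : α ≤ x) (h2 : x' ≤ β) (hxx : x ≤ x') (ξ : ℝ) :
    Real.exp (-(2 * Real.pi * ξ * x)) * 𝓕 (ln F x) ξ =
      Real.exp (-(2 * Real.pi * ξ * x')) * 𝓕 (ln F x') ξ := by
  rw [← fourier_line, ← fourier_line]
  set K : ℝ := Real.exp (2 * Real.pi * |ξ| * (|α| + |β|)) with hK
  refine Pool.Agent.W355.LJ.shift_gauss (fun s => F s * cexp (-(2 * Real.pi * ξ * s)))
    (hF.mul (by fun_prop)) x x' hxx (M * K) δ hδ (by positivity) ?_
  intro u y hu1 hu2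
  rw [norm_mul, Complex.norm_exp]
  have e1 : (-(2 * Real.pi * ξ * ((u : ℂ) + y * I))).re = -(2 * Real.pi * ξ * u) := by
    simp
  rw [e1]
  have h3 : Real.exp (-(2 * Real.pi * ξ * u)) ≤ K := by
    apply Real.exp_le_exp.2
    have h4 : |u| ≤ |α| + |β| := by
      rw [abs_le]
      constructor
      · linarith [neg_abs_le α, abs_nonneg β]
      · linarith [le_abs_self β, abs_nonneg α]
    have h5 : -(2 * Real.pi * ξ * u) ≤ |2 * Real.pi * ξ * u| := neg_le_abs _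
    rw [abs_mul, abs_mul, abs_of_pos (by positivity : (0 : ℝ) < 2 * Real.pi)] at h5
    refine h5.trans ?_
    exact mul_le_mul_of_nonneg_left h4 (by positivity)
  have h6 := hbd u y (by linarith) (by linarith)
  calc ‖F (u + y * I)‖ * Real.exp (-(2 * Real.pi * ξ * u))
      ≤ (M * Real.exp (-δ * y ^ 2)) * K := by gcongr
    _ = M * K * Real.exp (-δ * y ^ 2) := by ring

theorem fourier_norm (hF : Differentiable ℂ F) (hδ : 0 < δ) (hM : 0 ≤ M)
    (hbd : ∀ x y : ℝ, α ≤ x → x ≤ β → ‖F (x + y * I)‖ ≤ M * Real.exp (-δ * y ^ 2))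
    {c x : ℝ} (hc1 : α ≤ c) (hc2 : c ≤ β) (h1 : α ≤ x) (h2 : x ≤ β) (ξ : ℝ) :
    ‖𝓕 (ln F x) ξ‖ ^ 2 = Real.exp (4 * Real.pi * ξ * (x - c)) * dens F c ξ := by
  have key : Real.exp (-(2 * Real.pi * ξ * x)) * 𝓕 (ln F x) ξ =
      Real.exp (-(2 * Real.pi * ξ * c)) * 𝓕 (ln F c) ξ := by
    rcases le_total x c with h | h
    · exact fourier_shift hF hδ hM hbd h1 hc2 h ξ
    · exact (fourier_shift hF hδ hM hbd hc1 h2 h ξ).symm
  have h3 := congrArg (fun z : ℂ => ‖z‖ ^ 2) key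
  simp only [norm_mul, mul_pow, Complex.norm_real, Real.norm_of_nonneg (Real.exp_pos _).le] at h3
  have e : ∀ z : ℝ, Real.exp (-(2 * Real.pi * ξ * z)) ^ 2 = Real.exp (-(4 * Real.pi * ξ * z)) := by
    intro z
    rw [← Real.exp_nat_mul]
    congr 1
    push_cast
    ring
  rw [e, e] at h3
  unfold dens
  have h4 : Real.exp (4 * Real.pi * ξ * x) * Real.exp (-(4 * Real.pi * ξ * x)) = 1 := by
    rw [← Real.exp_add, add_neg_cancel, Real.exp_zero]
  have h5 : Real.exp (4 * Real.pi * ξ * (x - c)) =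
      Real.exp (4 * Real.pi * ξ * x) * Real.exp (-(4 * Real.pi * ξ * c)) := by
    rw [← Real.exp_add]
    congr 1
    ring
  rw [h5, mul_assoc, ← h3, ← mul_assoc, h4, one_mul]

/-- The representation of the means over the vertical lines of a strip. -/
theorem rep (hF : Differentiable ℂ F) (hδ : 0 < δ) (hM : 0 ≤ M)
    (hbd : ∀ x y : ℝ, α ≤ x → x ≤ β → ‖F (x + y * I)‖ ≤ M * Real.exp (-δ * y ^ 2))
    {c x : ℝ} (hc1 : α ≤ c) (hc2 : c ≤ β) (h1 : α ≤ x) (h2 : x ≤ β) :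
    Integrable (fun ξ => Real.exp (4 * Real.pi * ξ * (x - c)) * dens F c ξ) ∧
      ∫ ξ, Real.exp (4 * Real.pi * ξ * (x - c)) * dens F c ξ = VI F x := by
  have hp := Pool.Agent.Helper625.Planch.plancherel (ln F x) (ln_integrable hF hδ hbd h1 h2)
    (ln_memLp hF hδ hbd h1 h2)
  have e1 : (fun ξ => Real.exp (4 * Real.pi * ξ * (x - c)) * dens F c ξ) =
      fun ξ => ‖𝓕 (ln F x) ξ‖ ^ 2 := by
    funext ξ
    rw [fourier_norm hF hδ hM hbd hc1 hc2 h1 h2]
  rw [e1]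
  refine ⟨(memLp_two_iff_integrable_sq_norm hp.1.aestronglyMeasurable).mp hp.1, hp.2⟩

theorem dens_measurable (hF : Differentiable ℂ F) (hδ : 0 < δ)
    (hbd : ∀ x y : ℝ, α ≤ x → x ≤ β → ‖F (x + y * I)‖ ≤ M * Real.exp (-δ * y ^ 2))
    {c : ℝ} (hc1 : α ≤ c) (hc2 : c ≤ β) : Continuous (dens F c) := by
  have h1 : Continuous (𝓕 (ln F c)) := by
    have := VectorFourier.fourierIntegral_continuous (L := innerₗ ℝ) Real.continuous_fourierChar
      continuous_inner (ln_integrable hF hδ hbd hc1 hc2)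
    exact this
  exact h1.norm.pow 2

end

end Q97.MM
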