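import Pool.Agent.Q97.MM.Rep

set_option autoImplicit false

open MeasureTheory Filter Topology Complex FourierTransform

namespace Q97.MM

noncomputable section

variable {F : ℂ → ℂ} {α β M δ : ℝ}

theorem dens_nonneg (F : ℂ → ℂ) (c ξ : ℝ) : 0 ≤ dens F c ξ := by
  unfold dens
  positivity

theorem VI_nonneg (F : ℂ → ℂ) (x : ℝ) : 0 ≤ VI F x := integral_nonneg fun y => by positivity

/-- Logarithmic convexity of the square means. -/
theorem logconv (hF : Differentiable ℂ F) (hδ : 0 < δ) (hM : 0 ≤ M)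
    (hbd : ∀ x y : ℝ, α ≤ x → x ≤ β → ‖F (x + y * I)‖ ≤ M * Real.exp (-δ * y ^ 2))
    {x₁ x₂ θ : ℝ} (h1 : α ≤ x₁) (h1' : x₁ ≤ β) (h2 : α ≤ x₂) (h2' : x₂ ≤ β)
    (hθ : 0 ≤ θ) (hθ' : θ ≤ 1) (hp1 : 0 < VI F x₁) (hp2 : 0 < VI F x₂) :
    VI F ((1 - θ) * x₁ + θ * x₂) ≤ VI F x₁ ^ (1 - θ) * VI F x₂ ^ θ := by
  set A := VI F x₁ with hA
  set B := VI F x₂ with hB
  set x := (1 - θ) * x₁ + θ * x₂ with hx
  have hxa : α ≤ x := by
    have a1 : (1 - θ) * α ≤ (1 - θ) * x₁ := mul_le_mul_of_nonneg_left h1 (by linarith)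
    have a2 : θ * α ≤ θ * x₂ := mul_le_mul_of_nonneg_left h2 hθ
    rw [hx]
    linarith
  have hxb : x ≤ β := by
    have a1 : (1 - θ) * x₁ ≤ (1 - θ) * β := mul_le_mul_of_nonneg_left h1' (by linarith)
    have a2 : θ * x₂ ≤ θ * β := mul_le_mul_of_nonneg_left h2' hθ
    rw [hx]
    linarith
  have r0 := rep hF hδ hM hbd h1 h1' hxa hxb
  have r1 := rep hF hδ hM hbd h1 h1' h1 h1'
  have r2 := rep hF hδ hM hbd h1 h1' h2 h2'
  have hAp : 0 < A ^ (1 - θ) := Real.rpow_pos_of_pos hp1 _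
  have hBp : 0 < B ^ θ := Real.rpow_pos_of_pos hp2 _
  have hpt : ∀ ξ, Real.exp (4 * Real.pi * ξ * (x - x₁)) * dens F x₁ ξ ≤
      A ^ (1 - θ) * B ^ θ *
        ((1 - θ) / A * (Real.exp (4 * Real.pi * ξ * (x₁ - x₁)) * dens F x₁ ξ) +
          θ / B * (Real.exp (4 * Real.pi * ξ * (x₂ - x₁)) * dens F x₁ ξ)) := by
    intro ξ
    have hd := dens_nonneg F x₁ ξ
    have g := Real.geom_mean_le_arith_mean2_weighted (by linarith : 0 ≤ 1 - θ) hθ
      (p₁ := 1 / A) (p₂ := Real.exp (4 * Real.pi * ξ * (x₂ - x₁)) / B) (by positivity)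
      (by positivity) (by ring)
    rw [Real.div_rpow (by positivity) hp1.le, Real.div_rpow (Real.exp_pos _).le hp2.le,
      Real.one_rpow, ← Real.exp_mul, div_mul_div_comm, one_mul,
      div_le_iff₀ (mul_pos hAp hBp)] at g
    have e1 : 4 * Real.pi * ξ * (x₂ - x₁) * θ = 4 * Real.pi * ξ * (x - x₁) := by
      rw [hx]; ring
    rw [e1] at g
    have e2 : Real.exp (4 * Real.pi * ξ * (x₁ - x₁)) = 1 := by simp
    rw [e2]
    calc Real.exp (4 * Real.pi * ξ * (x - x₁)) * dens F x₁ ξ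
        ≤ (((1 - θ) * (1 / A) + θ * (Real.exp (4 * Real.pi * ξ * (x₂ - x₁)) / B)) *
            (A ^ (1 - θ) * B ^ θ)) * dens F x₁ ξ := mul_le_mul_of_nonneg_right g hd
      _ = _ := by ring
  have hI := integral_mono r0.1 (((r1.1.const_mul ((1 - θ) / A)).add
    (r2.1.const_mul (θ / B))).const_mul (A ^ (1 - θ) * B ^ θ)) hpt
  rw [r0.2] at hI
  refine hI.trans (le_of_eq ?_)
  rw [integral_const_mul]
  have hadd : ∫ ξ, ((1 - θ) / A * (Real.exp (4 * Real.pi * ξ * (x₁ - x₁)) * dens F x₁ ξ) +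
          θ / B * (Real.exp (4 * Real.pi * ξ * (x₂ - x₁)) * dens F x₁ ξ)) = 1 := by
    rw [integral_add (r1.1.const_mul _) (r2.1.const_mul _), integral_const_mul,
      integral_const_mul, r1.2, r2.2, ← hA, ← hB, div_mul_cancel₀ _ hp1.ne',
      div_mul_cancel₀ _ hp2.ne']
    ring
  exact (congrArg (fun z => A ^ (1 - θ) * B ^ θ * z) hadd).trans (mul_one _)

/-- the normalised spectral measure, with the scale `L` -/
def nu (F : ℂ → ℂ) (c L : ℝ) : Measure ℝ :=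
  ((volume : Measure ℝ).withDensity (fun ξ => ENNReal.ofReal (dens F c ξ / VI F c))).map
    (fun ξ => -(4 * Real.pi * ξ / L))

theorem nu_lint (hF : Differentiable ℂ F) (hδ : 0 < δ) (hM : 0 ≤ M)
    (hbd : ∀ x y : ℝ, α ≤ x → x ≤ β → ‖F (x + y * I)‖ ≤ M * Real.exp (-δ * y ^ 2))
    {c L : ℝ} (hc1 : α ≤ c) (hc2 : c ≤ β) (hp : 0 < VI F c)
    {a : ℝ} (h1 : α ≤ c + a / L) (h2 : c + a / L ≤ β) :
    ∫⁻ u, ENNReal.ofReal (Real.exp (-(a * u))) ∂(nu F c L) =
      ENNReal.ofReal (VI F (c + a / L) / VI F c) := by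
  have hm : Measurable (fun ξ : ℝ => -(4 * Real.pi * ξ / L)) := by fun_prop
  have hdm : Measurable (fun ξ => ENNReal.ofReal (dens F c ξ / VI F c)) :=
    ((dens_measurable hF hδ hbd hc1 hc2).measurable.div_const _).ennreal_ofReal
  unfold nu
  rw [lintegral_map (by fun_prop) hm, lintegral_withDensity_eq_lintegral_mul _ hdm (by fun_prop)]
  have r := rep hF hδ hM hbd hc1 hc2 h1 h2
  rw [← r.2, ← integral_div, ofReal_integral_eq_lintegral_ofReal (r.1.div_const _)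
    (Eventually.of_forall fun ξ => ?_)]
  · refine lintegral_congr fun ξ => ?_
    rw [Pi.mul_apply, ← ENNReal.ofReal_mul (div_nonneg (dens_nonneg _ _ _) hp.le)]
    congr 1
    have e1 : -(a * -(4 * Real.pi * ξ / L)) = 4 * Real.pi * ξ * (c + a / L - c) := by ring
    rw [e1]
    ring
  · exact div_nonneg (mul_nonneg (Real.exp_pos _).le (dens_nonneg _ _ _)) hp.le

theorem nu_prob (hF : Differentiable ℂ F) (hδ : 0 < δ) (hM : 0 ≤ M)
    (hbd : ∀ x y : ℝ, α ≤ x → x ≤ β → ‖F (x + y * I)‖ ≤ M * Real.exp (-δ * y ^ 2))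
    {c L : ℝ} (hc1 : α ≤ c) (hc2 : c ≤ β) (hp : 0 < VI F c) :
    IsProbabilityMeasure (nu F c L) := by
  have h := nu_lint hF hδ hM hbd hc1 hc2 hp (a := 0) (L := L) (by simpa using hc1)
    (by simpa using hc2)
  constructor
  simp only [zero_mul, neg_zero, Real.exp_zero, ENNReal.ofReal_one, zero_div, add_zero,
    div_self hp.ne', lintegral_const, one_mul] at h
  exact h

end

end Q97.MM
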