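import Pool.Agent.Q97.MM.Cmp
import Pool.Agent.Q97.MM.Abs

set_option autoImplicit false

open MeasureTheory Filter Topology Complex Set

namespace Q97.MM

noncomputable section

variable (k : ℕ)

theorem G_bdd (a : ℝ) : ∃ C : ℝ, 0 < C ∧ ∀ᶠ T : ℝ in atTop, ∀ U : ℝ, Adm T U → Gn k T U a ≤ C := by
  rcases le_total 0 a with ha | ha
  · refine ⟨1 + 1, by norm_num, Gn_le k ha one_pos⟩
  · set b := -a with hb
    have hb0 : 0 ≤ b := by linarith
    have hab : a = -b := by rw [hb, neg_neg]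
    refine ⟨20 * Real.exp (2 * k * b) + 3, by positivity, ?_⟩
    filter_upwards [Gn_le k hb0 one_pos, F1 k b one_pos, F2 k hb0 one_pos,
      F1 k (-b) (show (0 : ℝ) < 1 / 2 by norm_num)] with T h1 h2 h3 h4 U h
    have e1 := h1 U h
    have e2 := (abs_le.mp (h2 U h)).1
    have e3 := (abs_le.mp (h3 U h)).1
    have e4 := (abs_le.mp (h4 U h)).2
    have j1 : Jn k T U b ≤ 5 := by linarith
    have j2 : Real.exp (2 * k * b) * Jn k T U b ≤ Real.exp (2 * k * b) * 5 :=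
      mul_le_mul_of_nonneg_left j1 (Real.exp_pos _).le
    rw [hab]
    linarith

/-- The two normalised means are asymptotically equal. -/
theorem GJ (a : ℝ) {ε : ℝ} (hε : 0 < ε) :
    ∀ᶠ T : ℝ in atTop, ∀ U : ℝ, Adm T U → |Gn k T U a - Jn k T U a| ≤ ε := by
  obtain ⟨C, hC, hC'⟩ := G_bdd k a
  filter_upwards [hC', F1 k a (show 0 < ε / (C + 1) by positivity)] with T h1 h2 U h
  refine (h2 U h).trans ?_
  have e1 := h1 U h
  calc ε / (C + 1) * Gn k T U a + ε / (C + 1) ≤ ε / (C + 1) * C + ε / (C + 1) := by gcongr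
    _ = ε := by field_simp

/-- The functional equation for the normalised means. -/
theorem G_fe_pos {a : ℝ} (ha : 0 ≤ a) {ε : ℝ} (hε : 0 < ε) :
    ∀ᶠ T : ℝ in atTop, ∀ U : ℝ, Adm T U →
      |Gn k T U (-a) - Real.exp (2 * k * a) * Gn k T U a| ≤ ε := by
  set A := Real.exp (2 * k * a) with hA
  have hA0 : 0 < A := Real.exp_pos _
  set e := ε / (2 + 5 * A) with he
  have he0 : 0 < e := by positivity
  filter_upwards [Gn_le k ha one_pos, GJ k a one_pos, GJ k a he0, GJ k (-a) he0,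
    F2 k ha he0] with T h1 h2 h3 h4 h5 U h
  have e1 := h1 U h
  have e2 := (abs_le.mp (h2 U h)).1
  have e3 := abs_le.mp (h3 U h)
  have e4 := abs_le.mp (h4 U h)
  have e5 := abs_le.mp (h5 U h)
  have j1 : Jn k T U a ≤ 3 := by linarith
  have j2 : e * (A * Jn k T U a) ≤ e * (A * 3) := by gcongr
  have j3 : A * (Gn k T U a - Jn k T U a) ≤ A * e := by
    apply mul_le_mul_of_nonneg_left e3.2 hA0.le
  have j4 : A * (-e) ≤ A * (Gn k T U a - Jn k T U a) := by
    apply mul_le_mul_of_nonneg_left e3.1 hA0.le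
  have e6 : ε = 2 * e + 5 * A * e := by
    rw [he]
    field_simp
  have hAe : 0 < A * e := by positivity
  rw [e6, abs_le]
  constructor
  · nlinarith [e4.1, e5.2]
  · nlinarith [e4.2, e5.1]

theorem G_fe (a : ℝ) {ε : ℝ} (hε : 0 < ε) :
    ∀ᶠ T : ℝ in atTop, ∀ U : ℝ, Adm T U →
      |Gn k T U (-a) - Real.exp (2 * k * a) * Gn k T U a| ≤ ε := by
  rcases le_total 0 a with ha | ha
  · exact G_fe_pos k ha hε
  · have hb : 0 ≤ -a := by linarith
    filter_upwards [G_fe_pos k hb hε] with T h1 U h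
    have e1 := h1 U h
    rw [neg_neg] at e1
    have e2 : Gn k T U (-a) - Real.exp (2 * k * a) * Gn k T U a =
        -(Real.exp (2 * k * a) * (Gn k T U a - Real.exp (2 * k * -a) * Gn k T U (-a))) := by
      have e3 : Real.exp (2 * k * a) * Real.exp (2 * k * -a) = 1 := by
        rw [← Real.exp_add, show 2 * (k : ℝ) * a + 2 * k * -a = 0 by ring, Real.exp_zero]
      linear_combination (-Gn k T U (-a)) * e3
    rw [e2, abs_neg, abs_mul, abs_of_pos (Real.exp_pos _)]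
    have e4 : Real.exp (2 * k * a) ≤ 1 := by
      rw [Real.exp_le_one_iff]
      have : (0 : ℝ) ≤ k := Nat.cast_nonneg k
      nlinarith
    calc _ ≤ 1 * ε := mul_le_mul e4 e1 (abs_nonneg _) zero_le_one
      _ = ε := one_mul _

/-! ### Sequences -/

section seq

variable {T U : ℕ → ℝ}

theorem seq_adm (hT : Tendsto T atTop atTop)
    (hU : ∀ j, 1 ≤ U j ∧ U j ≤ T j / Real.log (T j)) : ∀ᶠ j in atTop, Adm (T j) (U j) := by
  filter_upwards [hT.eventually_ge_atTop 3] with j hj using ⟨hj, (hU j).1, (hU j).2⟩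

theorem seq_GJ (hT : Tendsto T atTop atTop)
    (hU : ∀ j, 1 ≤ U j ∧ U j ≤ T j / Real.log (T j)) (a : ℝ) :
    Tendsto (fun j => Gn k (T j) (U j) a - Jn k (T j) (U j) a) atTop (𝓝 0) := by
  rw [Metric.tendsto_nhds]
  intro ε hε
  filter_upwards [hT.eventually (GJ k a (half_pos hε)), seq_adm hT hU] with j h1 h2
  rw [Real.dist_eq, sub_zero]
  exact lt_of_le_of_lt (h1 _ h2) (by linarith)

theorem seq_fe (hT : Tendsto T atTop atTop)
    (hU : ∀ j, 1 ≤ U j ∧ U j ≤ T j / Real.log (T j)) (a : ℝ) :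
    Tendsto (fun j => Gn k (T j) (U j) (-a) - Real.exp (2 * k * a) * Gn k (T j) (U j) a)
      atTop (𝓝 0) := by
  rw [Metric.tendsto_nhds]
  intro ε hε
  filter_upwards [hT.eventually (G_fe k a (half_pos hε)), seq_adm hT hU] with j h1 h2
  rw [Real.dist_eq, sub_zero]
  exact lt_of_le_of_lt (h1 _ h2) (by linarith)

theorem Gn_zero {T U : ℝ} (h : Adm T U) : Gn k T U 0 = 1 := by
  unfold Gn V0
  rw [zero_div, add_zero]
  exact div_self (V0_pos k h).ne'

end seq

/-- the spectral measure of a window -/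
def nuT (T U : ℝ) : Measure ℝ := nu (FF k T U) (1 / 2) (Real.log T)

theorem nuT_prob {T U : ℝ} (h : Adm T U) : IsProbabilityMeasure (nuT k T U) := by
  obtain ⟨M, δ, hM, hδ, hbd⟩ := FF_bd k T h.pos
  exact nu_prob (FF_differentiable k T U) hδ hM hbd (by norm_num) (by norm_num) (V0_pos k h)

theorem nuT_lint {T U a : ℝ} (h : Adm T U) (ha : |a / Real.log T| ≤ 1 / 4) :
    ∫⁻ u, ENNReal.ofReal (Real.exp (-(a * u))) ∂(nuT k T U) = ENNReal.ofReal (Gn k T U a) := by
  obtain ⟨M, δ, hM, hδ, hbd⟩ := FF_bd k T h.pos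
  have h1 := abs_le.mp ha
  exact nu_lint (FF_differentiable k T U) hδ hM hbd (by norm_num) (by norm_num) (V0_pos k h)
    (by linarith) (by linarith)

/-- Along a subsequence the normalised means converge to a Laplace transform. -/
theorem seq_limit {T U : ℕ → ℝ} (hT : Tendsto T atTop atTop)
    (hU : ∀ j, 1 ≤ U j ∧ U j ≤ T j / Real.log (T j)) :
    ∃ φ : ℕ → ℕ, StrictMono φ ∧ ∃ ν : ProbabilityMeasure ℝ,
      (∀ a : ℝ, Integrable (fun u => Real.exp (-(a * u))) (ν : Measure ℝ)) ∧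
      (∀ a : ℝ, 0 ≤ a → ∫ u, Real.exp (-(a * u)) ∂(ν : Measure ℝ) ≤ 1) ∧
      (∀ a : ℝ, ∫ u, Real.exp (-((-a) * u)) ∂(ν : Measure ℝ) =
        Real.exp (2 * k * a) * ∫ u, Real.exp (-(a * u)) ∂(ν : Measure ℝ)) ∧
      ∀ a : ℝ, Tendsto (fun j => Gn k (T (φ j)) (U (φ j)) a) atTop
        (𝓝 (∫ u, Real.exp (-(a * u)) ∂(ν : Measure ℝ))) := by
  classical
  let μ : ℕ → ProbabilityMeasure ℝ := fun j =>
    if h : Adm (T j) (U j) then ⟨nuT k (T j) (U j), nuT_prob k h⟩ else ⟨Measure.dirac 0, inferInstance⟩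
  have hμ : ∀ j, Adm (T j) (U j) → (μ j : Measure ℝ) = nuT k (T j) (U j) := by
    intro j h
    have h1 : μ j = ⟨nuT k (T j) (U j), nuT_prob k h⟩ := dif_pos h
    rw [h1]
    rfl
  have hlint : ∀ a : ℝ, ∀ᶠ j in atTop,
      ∫⁻ u, ENNReal.ofReal (Real.exp (-(a * u))) ∂(μ j : Measure ℝ) =
        ENNReal.ofReal (Gn k (T j) (U j) a) := by
    intro a
    have h1 := (log_div_tendsto a).eventually (gt_mem_nhds (show (0 : ℝ) < 1 / 4 by norm_num))
    filter_upwards [seq_adm hT hU, hT.eventually h1] with j h2 h3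
    rw [hμ j h2]
    exact nuT_lint k h2 h3.le
  have hbd : ∀ a : ℝ, ∃ C, ∀ᶠ j in atTop,
      ∫⁻ u, ENNReal.ofReal (Real.exp (-(a * u))) ∂(μ j : Measure ℝ) ≤ ENNReal.ofReal C := by
    intro a
    obtain ⟨C, hC, hC'⟩ := G_bdd k a
    refine ⟨C, ?_⟩
    filter_upwards [seq_adm hT hU, hT.eventually hC', hlint a] with j h1 h2 h3
    rw [h3]
    exact ENNReal.ofReal_le_ofReal (h2 _ h1)
  obtain ⟨φ, hφ, ν, hν, hlim⟩ := exists_limit μ hbd
  have hreal : ∀ a : ℝ, ∀ᶠ j in atTop,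
      ∫ u, Real.exp (-(a * u)) ∂(μ j : Measure ℝ) = Gn k (T j) (U j) a := by
    intro a
    filter_upwards [seq_adm hT hU, hlint a] with j h1 h2
    rw [integral_eq_lintegral_of_nonneg_ae (Eventually.of_forall fun u => (Real.exp_pos _).le)
      (by fun_prop), h2, ENNReal.toReal_ofReal (Gn_nonneg k h1 a)]
  have hconv : ∀ a : ℝ, Tendsto (fun j => Gn k (T (φ j)) (U (φ j)) a) atTop
        (𝓝 (∫ u, Real.exp (-(a * u)) ∂(ν : Measure ℝ))) := by
    intro a
    refine (hlim a).congr' ?_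
    exact hφ.tendsto_atTop.eventually (hreal a)
  refine ⟨φ, hφ, ν, hν, ?_, ?_, hconv⟩
  · intro a ha
    apply le_of_forall_pos_le_add
    intro ε hε
    refine le_of_tendsto (hconv a) ?_
    have h1 := hT.eventually (Gn_le k ha hε)
    have h2 : ∀ᶠ j in atTop, Gn k (T j) (U j) a ≤ 1 + ε := by
      filter_upwards [h1, seq_adm hT hU] with j h3 h4 using h3 _ h4
    exact hφ.tendsto_atTop.eventually h2
  · intro a
    have h1 := (seq_fe k hT hU a).comp hφ.tendsto_atTop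
    have h2 := (hconv (-a)).sub ((hconv a).const_mul (Real.exp (2 * k * a)))
    have h3 := tendsto_nhds_unique h1 h2
    linarith

end

end Q97.MM
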