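import Pool.Agent.Q97.MM.Seq

set_option autoImplicit false

open MeasureTheory Filter Topology Complex Set FourierTransform ComplexConjugate

namespace Q97.MM

noncomputable section

theorem norm_add_mul {a b w : ℂ} (hw : ‖w‖ = 1) :
    ‖a + w * b‖ ^ 2 = ‖a‖ ^ 2 + ‖b‖ ^ 2 + 2 * (conj w * (a * conj b)).re := by
  have h1 : w.re ^ 2 + w.im ^ 2 = 1 := by
    have : ‖w‖ ^ 2 = 1 := by rw [hw]; norm_num
    rw [← this, ← Complex.normSq_eq_norm_sq, Complex.normSq_apply]
    ring
  rw [← Complex.normSq_eq_norm_sq, ← Complex.normSq_eq_norm_sq, ← Complex.normSq_eq_norm_sq,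
    Complex.normSq_apply, Complex.normSq_apply, Complex.normSq_apply]
  simp only [Complex.add_re, Complex.add_im, Complex.mul_re, Complex.mul_im, Complex.conj_re,
    Complex.conj_im]
  linear_combination (b.re ^ 2 + b.im ^ 2) * h1

theorem fourier_trans {f : ℝ → ℂ} (h1 : Integrable f) (η : ℝ) (w : ℂ) (ξ : ℝ) :
    𝓕 (fun y => f (y + η) + w * f y) ξ = (cexp ((2 * Real.pi * η * ξ : ℝ) * I) + w) * 𝓕 f ξ := by
  rw [Real.fourier_eq', Real.fourier_eq']
  simp only [smul_eq_mul, RCLike.inner_apply, conj_trivial]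
  have hb : ∀ g : ℝ → ℂ, Integrable g →
      Integrable (fun y : ℝ => cexp ((-2 * Real.pi * (ξ * y) : ℝ) * I) * g y) := by
    intro g hg
    refine hg.norm.mono' (Continuous.aestronglyMeasurable (by fun_prop) |>.mul
      hg.aestronglyMeasurable) (Eventually.of_forall fun y => ?_)
    rw [norm_mul, Complex.norm_exp_ofReal_mul_I, one_mul]
  have e1 : ∀ y : ℝ, cexp ((-2 * Real.pi * (ξ * y) : ℝ) * I) * (f (y + η) + w * f y) =
      cexp ((2 * Real.pi * η * ξ : ℝ) * I) *
        (cexp ((-2 * Real.pi * (ξ * (y + η)) : ℝ) * I) * f (y + η)) +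
        w * (cexp ((-2 * Real.pi * (ξ * y) : ℝ) * I) * f y) := by
    intro y
    have e2 : cexp ((-2 * Real.pi * (ξ * y) : ℝ) * I) = cexp ((2 * Real.pi * η * ξ : ℝ) * I) *
        cexp ((-2 * Real.pi * (ξ * (y + η)) : ℝ) * I) := by
      rw [← Complex.exp_add]
      congr 1
      push_cast
      ring
    calc _ = cexp ((-2 * Real.pi * (ξ * y) : ℝ) * I) * f (y + η) +
          w * (cexp ((-2 * Real.pi * (ξ * y) : ℝ) * I) * f y) := by ring
      _ = _ := by
          congr 1
          rw [e2]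
          ring
  rw [integral_congr_ae (Eventually.of_forall e1)]
  have hb1 := hb f h1
  have hb2 := hb1.comp_add_right η
  rw [integral_add (hb2.const_mul _) (hb1.const_mul _), integral_const_mul, integral_const_mul]
  have e3 := integral_add_right_eq_self (μ := (volume : Measure ℝ))
    (fun y : ℝ => cexp ((-2 * Real.pi * (ξ * y) : ℝ) * I) * f y) η
  rw [e3]
  ring

/-- The correlation of a square integrable function at the distance `η`. -/
theorem cross {f : ℝ → ℂ} (h1 : Integrable f) (h2 : MemLp f 2) (η : ℝ) :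
    Integrable (fun y => f (y + η) * conj (f y)) ∧
    Integrable (fun ξ => cexp ((2 * Real.pi * η * ξ : ℝ) * I) * ((‖𝓕 f ξ‖ ^ 2 : ℝ) : ℂ)) ∧
    ∫ y, f (y + η) * conj (f y) =
      ∫ ξ, cexp ((2 * Real.pi * η * ξ : ℝ) * I) * ((‖𝓕 f ξ‖ ^ 2 : ℝ) : ℂ) := by
  have hs : Integrable (fun y => ‖f y‖ ^ 2) :=
    (memLp_two_iff_integrable_sq_norm h2.aestronglyMeasurable).mp h2
  have hs' : Integrable (fun y => ‖f (y + η)‖ ^ 2) := hs.comp_add_right η
  have hm : AEStronglyMeasurable (fun y => f (y + η)) volume := (h1.comp_add_right η).aestronglyMeasurable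
  have hP := Pool.Agent.Helper625.Planch.plancherel f h1 h2
  have hF : Integrable (fun ξ => ‖𝓕 f ξ‖ ^ 2) :=
    (memLp_two_iff_integrable_sq_norm hP.1.aestronglyMeasurable).mp hP.1
  have i1 : Integrable (fun y => f (y + η) * conj (f y)) := by
    refine (hs'.add hs).mono' (hm.mul (Complex.continuous_conj.comp_aestronglyMeasurable
      h1.aestronglyMeasurable)) (Eventually.of_forall fun y => ?_)
    rw [norm_mul, RCLike.norm_conj]
    show ‖f (y + η)‖ * ‖f y‖ ≤ ‖f (y + η)‖ ^ 2 + ‖f y‖ ^ 2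
    nlinarith [sq_nonneg (‖f (y + η)‖ - ‖f y‖), norm_nonneg (f (y + η)), norm_nonneg (f y)]
  have i2 : Integrable (fun ξ => cexp ((2 * Real.pi * η * ξ : ℝ) * I) *
      ((‖𝓕 f ξ‖ ^ 2 : ℝ) : ℂ)) := by
    refine hF.mono' ((Continuous.aestronglyMeasurable (by fun_prop)).mul
      (Complex.continuous_ofReal.comp_aestronglyMeasurable hF.aestronglyMeasurable))
      (Eventually.of_forall fun ξ => ?_)
    rw [norm_mul, Complex.norm_exp_ofReal_mul_I, one_mul, Complex.norm_real,
      Real.norm_of_nonneg (by positivity)]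
  refine ⟨i1, i2, ?_⟩
  set V := ∫ y, f (y + η) * conj (f y) with hV
  set W := ∫ ξ, cexp ((2 * Real.pi * η * ξ : ℝ) * I) * ((‖𝓕 f ξ‖ ^ 2 : ℝ) : ℂ) with hW
  have key : ∀ w : ℂ, ‖w‖ = 1 → (conj w * V).re = (conj w * W).re := by
    intro w hw
    have hg1 : Integrable (fun y => f (y + η) + w * f y) := (h1.comp_add_right η).add (h1.const_mul w)
    have hexp : ∀ y, ‖f (y + η) + w * f y‖ ^ 2 = ‖f (y + η)‖ ^ 2 + ‖f y‖ ^ 2 +
        2 * (conj w * (f (y + η) * conj (f y))).re := fun y => norm_add_mul hw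
    have ire : Integrable (fun y => (conj w * (f (y + η) * conj (f y))).re) :=
      (i1.const_mul (conj w)).re
    have hg2 : MemLp (fun y => f (y + η) + w * f y) 2 := by
      rw [memLp_two_iff_integrable_sq_norm hg1.aestronglyMeasurable]
      refine ((hs'.add hs).add (ire.const_mul 2)).congr (Eventually.of_forall fun y => ?_)
      exact (hexp y).symm
    have hPg := (Pool.Agent.Helper625.Planch.plancherel _ hg1 hg2).2
    have e1 : ∫ y, ‖f (y + η) + w * f y‖ ^ 2 = 2 * (∫ y, ‖f y‖ ^ 2) + 2 * (conj w * V).re := by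
      rw [integral_congr_ae (Eventually.of_forall hexp)]
      have a1 := integral_add (hs'.add hs) (ire.const_mul 2)
      have a2 := integral_add hs' hs
      have a3 : ∫ y, ‖f (y + η)‖ ^ 2 = ∫ y, ‖f y‖ ^ 2 :=
        integral_add_right_eq_self (μ := (volume : Measure ℝ)) (fun y => ‖f y‖ ^ 2) η
      have a4 : ∫ y, (conj w * (f (y + η) * conj (f y))).re = (conj w * V).re := by
        have a5 := integral_re (i1.const_mul (conj w))
        rw [integral_const_mul] at a5
        exact a5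
      simp only [Pi.add_apply] at a1
      rw [a1, a2, a3, integral_const_mul, a4]
      ring
    have hexp2 : ∀ ξ, ‖𝓕 (fun y => f (y + η) + w * f y) ξ‖ ^ 2 = ‖𝓕 f ξ‖ ^ 2 + ‖𝓕 f ξ‖ ^ 2 +
        2 * (conj w * (cexp ((2 * Real.pi * η * ξ : ℝ) * I) * ((‖𝓕 f ξ‖ ^ 2 : ℝ) : ℂ))).re := by
      intro ξ
      rw [fourier_trans h1, norm_mul, mul_pow]
      have h3 := norm_add_mul (a := cexp ((2 * Real.pi * η * ξ : ℝ) * I)) (b := 1) hw
      rw [mul_one, map_one, mul_one, Complex.norm_exp_ofReal_mul_I, norm_one] at h3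
      rw [h3]
      have h4 : (conj w * (cexp ((2 * Real.pi * η * ξ : ℝ) * I) * ((‖𝓕 f ξ‖ ^ 2 : ℝ) : ℂ))).re =
          (conj w * cexp ((2 * Real.pi * η * ξ : ℝ) * I)).re * ‖𝓕 f ξ‖ ^ 2 := by
        rw [← mul_assoc, Complex.re_mul_ofReal]
      rw [h4]
      ring
    have jre : Integrable (fun ξ => (conj w * (cexp ((2 * Real.pi * η * ξ : ℝ) * I) *
        ((‖𝓕 f ξ‖ ^ 2 : ℝ) : ℂ))).re) := (i2.const_mul (conj w)).re
    have e2 : ∫ ξ, ‖𝓕 (fun y => f (y + η) + w * f y) ξ‖ ^ 2 =
        2 * (∫ ξ, ‖𝓕 f ξ‖ ^ 2) + 2 * (conj w * W).re := by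
      rw [integral_congr_ae (Eventually.of_forall hexp2)]
      have a1 := integral_add (hF.add hF) (jre.const_mul 2)
      have a2 := integral_add hF hF
      have a4 : ∫ ξ, (conj w * (cexp ((2 * Real.pi * η * ξ : ℝ) * I) *
          ((‖𝓕 f ξ‖ ^ 2 : ℝ) : ℂ))).re = (conj w * W).re := by
        have a5 := integral_re (i2.const_mul (conj w))
        rw [integral_const_mul] at a5
        exact a5
      simp only [Pi.add_apply] at a1
      rw [a1, a2, integral_const_mul, a4]
      ring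
    rw [e1, e2, hP.2] at hPg
    linarith
  apply Complex.ext
  · have := key 1 (by simp)
    simpa using this
  · have := key I (by simp)
    simpa using this

end

end Q97.MM
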