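import Pool.Agent.Q97.MM.Rep2
import Pool.Agent.H306R2.ZetaGrowth

set_option autoImplicit false

open MeasureTheory Filter Topology Complex Pool.Agent.H306R2

namespace Q97.MM

noncomputable section

/-- the entire function `(s - 1) ζ(s)` -/
def Z1 : ℂ → ℂ := Function.update (fun s => (s - 1) * riemannZeta s) 1 1

theorem Z1_of_ne {s : ℂ} (h : s ≠ 1) : Z1 s = (s - 1) * riemannZeta s := by
  rw [Z1, Function.update_of_ne h]

theorem Z1_one : Z1 1 = 1 := by rw [Z1, Function.update_self]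

theorem Z1_differentiable : Differentiable ℂ Z1 := by
  intro s
  rcases eq_or_ne s 1 with rfl | hs
  · have h1 : ∀ᶠ z in 𝓝[≠] (1 : ℂ), DifferentiableAt ℂ Z1 z := by
      filter_upwards [self_mem_nhdsWithin] with z hz
      have hz' : z ≠ 1 := hz
      have h2 : DifferentiableAt ℂ (fun s => (s - 1) * riemannZeta s) z :=
        (differentiableAt_id.sub_const 1).mul (differentiableAt_riemannZeta hz')
      refine h2.congr_of_eventuallyEq ?_
      filter_upwards [isOpen_ne.mem_nhds hz'] with w hw using Z1_of_ne hw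
    have h3 : ContinuousAt Z1 1 := by
      rw [Z1, continuousAt_update_same]
      exact riemannZeta_residue_one
    exact (Complex.analyticAt_of_differentiable_on_punctured_nhds_of_continuousAt h1 h3).differentiableAt
  · have h2 : DifferentiableAt ℂ (fun s => (s - 1) * riemannZeta s) s :=
      (differentiableAt_id.sub_const 1).mul (differentiableAt_riemannZeta hs)
    refine h2.congr_of_eventuallyEq ?_
    filter_upwards [isOpen_ne.mem_nhds hs] with w hw using Z1_of_ne hw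

theorem Z1_eq_Zt {s : ℂ} (hs : 0 < s.re) : Z1 s = Zt s := by
  rcases eq_or_ne s 1 with rfl | h
  · rw [Z1_one, Zt_one]
  · rw [Z1_of_ne h, zeta_eq_pos hs h]

theorem Z1_growth {x y : ℝ} (h1 : 1 / 4 ≤ x) (h2 : x ≤ 3) :
    ‖Z1 (x + y * I)‖ ≤ 45 * (1 + |y|) ^ 2 := by
  have hre : ((x : ℂ) + y * I).re = x := by simp
  rw [Z1_eq_Zt (by rw [hre]; linarith)]
  have hs : ‖(x : ℂ) + y * I‖ ≤ 3 + |y| := by
    refine (norm_add_le _ _).trans ?_
    rw [norm_mul, Complex.norm_I, mul_one, Complex.norm_real, Complex.norm_real, Real.norm_eq_abs,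
      Real.norm_eq_abs, abs_of_nonneg (by linarith : (0 : ℝ) ≤ x)]
    linarith
  have hs1 : ‖(x : ℂ) + y * I - 1‖ ≤ 2 + |y| := by
    have e : (x : ℂ) + y * I - 1 = ((x - 1 : ℝ) : ℂ) + y * I := by push_cast; ring
    rw [e]
    refine (norm_add_le _ _).trans ?_
    rw [norm_mul, Complex.norm_I, mul_one, Complex.norm_real, Complex.norm_real, Real.norm_eq_abs,
      Real.norm_eq_abs]
    have : |x - 1| ≤ 2 := by
      rw [abs_le]
      constructor <;> linarith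
    linarith
  have hH := Hf_norm_le (s := (x : ℂ) + y * I) (by rw [hre]; linarith)
  rw [hre] at hH
  have hH' : ‖Hf ((x : ℂ) + y * I)‖ ≤ 4 := by
    refine hH.trans ?_
    rw [div_le_iff₀ (by linarith)]
    linarith
  have h4 : ‖Zt ((x : ℂ) + y * I)‖ ≤ (3 + |y|) + (3 + |y|) * (2 + |y|) * 4 := by
    unfold Zt
    refine (norm_sub_le _ _).trans ?_
    rw [norm_mul, norm_mul]
    gcongr
  refine h4.trans ?_
  nlinarith [abs_nonneg y, sq_nonneg |y|]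

theorem poly_le_exp (n : ℕ) (δ : ℝ) (hδ : 0 < δ) :
    ∃ C : ℝ, 0 < C ∧ ∀ y : ℝ, (1 + |y|) ^ n ≤ C * Real.exp (δ * y ^ 2) := by
  refine ⟨n.factorial * Real.exp (1 + 1 / (4 * δ)), by positivity, fun y => ?_⟩
  have h1 := Real.pow_div_factorial_le_exp (1 + |y|) (by positivity) n
  rw [div_le_iff₀ (by positivity)] at h1
  have h2 : 1 + |y| ≤ 1 + 1 / (4 * δ) + δ * y ^ 2 := by
    have h3 : 1 / (4 * δ) + δ * y ^ 2 - |y| = (2 * δ * |y| - 1) ^ 2 / (4 * δ) := by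
      rw [← sq_abs y]
      field_simp
      ring
    have h4 : 0 ≤ (2 * δ * |y| - 1) ^ 2 / (4 * δ) := by positivity
    linarith
  calc (1 + |y|) ^ n ≤ Real.exp (1 + |y|) * n.factorial := h1
    _ ≤ Real.exp (1 + 1 / (4 * δ) + δ * y ^ 2) * n.factorial := by gcongr
    _ = _ := by rw [Real.exp_add]; ring

/-- the Gaussian weight -/
def wt (T U y : ℝ) : ℝ := Real.exp (-((y - T) / U) ^ 2)

theorem wt_pos (T U y : ℝ) : 0 < wt T U y := Real.exp_pos _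

theorem wt_le_one (T U y : ℝ) : wt T U y ≤ 1 := by
  unfold wt
  rw [Real.exp_le_one_iff]
  nlinarith [sq_nonneg ((y - T) / U)]

/-- the function on whose vertical lines we take square means -/
def FF (k : ℕ) (T U : ℝ) (s : ℂ) : ℂ :=
  Z1 s ^ k * cexp ((s - 1 / 2 - T * I) ^ 2 / (2 * (U : ℂ) ^ 2))

theorem FF_differentiable (k : ℕ) (T U : ℝ) : Differentiable ℂ (FF k T U) := by
  have h1 : Differentiable ℂ (fun s : ℂ => cexp ((s - 1 / 2 - T * I) ^ 2 / (2 * (U : ℂ) ^ 2))) := by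
    fun_prop
  exact (Z1_differentiable.pow k).mul h1

theorem exp_re (T U x y : ℝ) :
    ((((x : ℂ) + y * I) - 1 / 2 - T * I) ^ 2 / (2 * (U : ℂ) ^ 2)).re =
      ((x - 1 / 2) ^ 2 - (y - T) ^ 2) / (2 * U ^ 2) := by
  have e1 : ((x : ℂ) + y * I) - 1 / 2 - T * I = ((x - 1 / 2 : ℝ) : ℂ) + ((y - T : ℝ) : ℂ) * I := by
    push_cast; ring
  have e2 : (2 * (U : ℂ) ^ 2) = ((2 * U ^ 2 : ℝ) : ℂ) := by push_cast; ring
  have e3 : (((x - 1 / 2 : ℝ) : ℂ) + ((y - T : ℝ) : ℂ) * I) ^ 2 =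
      (((x - 1 / 2) ^ 2 - (y - T) ^ 2 : ℝ) : ℂ) + ((2 * (x - 1 / 2) * (y - T) : ℝ) : ℂ) * I := by
    push_cast
    linear_combination ((y : ℂ) - T) ^ 2 * Complex.I_sq
  rw [e1, e2, e3, Complex.div_ofReal_re, Complex.add_re, Complex.re_ofReal_mul, Complex.ofReal_re,
    Complex.I_re, mul_zero, add_zero]

theorem FF_norm (k : ℕ) (T U x y : ℝ) :
    ‖FF k T U (x + y * I)‖ =
      ‖Z1 (x + y * I)‖ ^ k * Real.exp (((x - 1 / 2) ^ 2 - (y - T) ^ 2) / (2 * U ^ 2)) := by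
  rw [FF, norm_mul, norm_pow, Complex.norm_exp, exp_re]

theorem FF_sq (k : ℕ) (T U x y : ℝ) :
    ‖FF k T U (x + y * I)‖ ^ 2 =
      Real.exp ((x - 1 / 2) ^ 2 / U ^ 2) * (‖Z1 (x + y * I)‖ ^ (2 * k) * wt T U y) := by
  rw [FF_norm, mul_pow, ← pow_mul, mul_comm k 2, ← Real.exp_nat_mul, wt]
  have e1 : ((2 : ℕ) : ℝ) * (((x - 1 / 2) ^ 2 - (y - T) ^ 2) / (2 * U ^ 2)) =
      (x - 1 / 2) ^ 2 / U ^ 2 + -((y - T) / U) ^ 2 := by
    push_cast
    rw [div_pow]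
    ring
  rw [e1, Real.exp_add]
  ring

theorem FF_bd (k : ℕ) (T : ℝ) {U : ℝ} (hU : 0 < U) : ∃ M δ : ℝ, 0 ≤ M ∧ 0 < δ ∧
    ∀ x y : ℝ, 1 / 4 ≤ x → x ≤ 3 → ‖FF k T U (x + y * I)‖ ≤ M * Real.exp (-δ * y ^ 2) := by
  obtain ⟨C, hC0, hC⟩ := poly_le_exp (2 * k) (1 / (8 * U ^ 2)) (by positivity)
  refine ⟨45 ^ k * C * Real.exp ((25 / 4 + T ^ 2) / (2 * U ^ 2)), 1 / (8 * U ^ 2), by positivity,
    by positivity, fun x y h1 h2 => ?_⟩
  rw [FF_norm]
  have hg := Z1_growth (y := y) h1 h2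
  have e1 : ((x - 1 / 2) ^ 2 - (y - T) ^ 2) / (2 * U ^ 2) ≤
      (25 / 4 + T ^ 2) / (2 * U ^ 2) + -(1 / (4 * U ^ 2)) * y ^ 2 := by
    have e2 : (25 / 4 + T ^ 2) / (2 * U ^ 2) + -(1 / (4 * U ^ 2)) * y ^ 2 =
        (25 / 4 + T ^ 2 - y ^ 2 / 2) / (2 * U ^ 2) := by
      field_simp
      ring
    rw [e2]
    apply div_le_div_of_nonneg_right _ (by positivity)
    have e3 : (x - 1 / 2) ^ 2 ≤ 25 / 4 := by nlinarith
    nlinarith [sq_nonneg (y - 2 * T)]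
  calc ‖Z1 (x + y * I)‖ ^ k * Real.exp (((x - 1 / 2) ^ 2 - (y - T) ^ 2) / (2 * U ^ 2))
      ≤ (45 * (1 + |y|) ^ 2) ^ k * Real.exp ((25 / 4 + T ^ 2) / (2 * U ^ 2) +
          -(1 / (4 * U ^ 2)) * y ^ 2) := by gcongr
    _ = 45 ^ k * (1 + |y|) ^ (2 * k) * Real.exp ((25 / 4 + T ^ 2) / (2 * U ^ 2) +
          -(1 / (4 * U ^ 2)) * y ^ 2) := by rw [mul_pow, ← pow_mul]
    _ ≤ 45 ^ k * (C * Real.exp (1 / (8 * U ^ 2) * y ^ 2)) *
          Real.exp ((25 / 4 + T ^ 2) / (2 * U ^ 2) + -(1 / (4 * U ^ 2)) * y ^ 2) := by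
        gcongr
        exact hC y
    _ = 45 ^ k * C * Real.exp ((25 / 4 + T ^ 2) / (2 * U ^ 2)) *
          (Real.exp (1 / (8 * U ^ 2) * y ^ 2) * Real.exp (-(1 / (4 * U ^ 2)) * y ^ 2)) := by
        rw [Real.exp_add]
        ring
    _ = _ := by
        rw [← Real.exp_add]
        congr 2
        field_simp
        ring

/-- the weighted mean of `(s - 1) ζ(s)` -/
def PP (k : ℕ) (T U x : ℝ) : ℝ := ∫ y : ℝ, ‖Z1 (x + y * I)‖ ^ (2 * k) * wt T U y

/-- the weighted mean of `ζ(s)` -/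
def JJ (k : ℕ) (T U x : ℝ) : ℝ := ∫ y : ℝ, ‖riemannZeta (x + y * I)‖ ^ (2 * k) * wt T U y

theorem VI_eq (k : ℕ) (T U x : ℝ) :
    VI (FF k T U) x = Real.exp ((x - 1 / 2) ^ 2 / U ^ 2) * PP k T U x := by
  unfold VI PP
  rw [← integral_const_mul]
  exact integral_congr_ae (Eventually.of_forall fun y => FF_sq k T U x y)

end

end Q97.MM
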